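import Pool.Agent.Helper948.Dom.Defs

set_option autoImplicit false

namespace Pool.Agent.Helper948.Dom

-- DEFS2 BEGIN
/-- codes `(m, N, T)`: `T` is a list of four tables, the actions of `a, a⁻¹, t, t⁻¹` on `{0, ..., N-1}` (from the right) -/
abbrev Code := ℕ × ℕ × List (List ℕ)

/-- the number of a letter: `a ↦ 0`, `a⁻¹ ↦ 1`, `t ↦ 2`, `t⁻¹ ↦ 3` -/
def lcode (s : Fin 2 × Bool) : ℕ := 2 * (s.1 : ℕ) + (if s.2 then 0 else 1)

/-- numbers of the letters of a word -/
def enc (w : List (Fin 2 × Bool)) : List ℕ := w.map lcode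

/-- the number of the inverse letter -/
def linv (j : ℕ) : ℕ := if j % 2 = 0 then j + 1 else j - 1

/-- one step -/
def step (T : List (List ℕ)) (j v : ℕ) : ℕ := (T.getD j []).getD v 0

/-- walk from the point `v` along the word `w` -/
def walk (T : List (List ℕ)) (v : ℕ) (w : List ℕ) : ℕ := w.foldl (fun u j => step T j u) v

/-- the tables are permutations of `{0, ..., N-1}`, inverse to each other -/
def Valid (N : ℕ) (T : List (List ℕ)) : Prop :=
  ∀ j < 4, ∀ v < N, step T j v < N ∧ step T (linv j) (step T j v) = v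

/-- all words of length `n` over the letters `0, ..., L-1` -/
def wordsEq (L : ℕ) : ℕ → List (List ℕ)
  | 0 => [[]]
  | n + 1 => (wordsEq L n).flatMap (fun w => (List.range L).map (fun j => j :: w))

/-- all words of length `≤ n` over the letters `0, ..., L-1` -/
def words (L n : ℕ) : List (List ℕ) := (List.range (n + 1)).flatMap (wordsEq L)

/-- the word for `a_{j/2}` (`j` even) or its inverse (`j` odd) -/
def aw (j : ℕ) : List ℕ := List.replicate (j / 2) 2 ++ (j % 2) :: List.replicate (j / 2) 3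

/-- a word in the `a_i^{±1}` as a word in `a, t` -/
def conv (r : List ℕ) : List ℕ := r.flatMap aw

/-- two words act in the same way on `{0, ..., N-1}` -/
def EqT (N : ℕ) (T : List (List ℕ)) (r r' : List ℕ) : Prop := ∀ v < N, walk T v r = walk T v r'

/-- `K` is the kernel of the action given by the tables -/
def IsKer (K : Subgroup F) (N : ℕ) (T : List (List ℕ)) : Prop :=
  ∀ w : List (Fin 2 × Bool), FreeGroup.mk w ∈ K ↔ ∀ v < N, walk T v (enc w) = v

/-- some orbit has a labelling which avoids the patterns -/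
def Commit (I : Inp) (N : ℕ) (T : List (List ℕ)) : Prop :=
  ∃ u < N, ∃ l ∈ wordsEq I.1 N, ∀ g ∈ words 4 N, ∀ P ∈ I.2,
    ¬ ∀ q ∈ P, l.getD (walk T u (g ++ enc q.1)) 0 = q.2

/-- label of a word -/
def lab (D : ℕ) (Y : List ℕ) (w : List ℕ) : ℕ := Y.getD ((words 4 D).idxOf w) 0

/-- `Y` is a good labelling of the words of length at most `D` -/
def BallOK (I : Inp) (N : ℕ) (T : List (List ℕ)) (D : ℕ) (Y : List ℕ) : Prop :=
  (∀ w ∈ words 4 D, ∀ w' ∈ words 4 D, EqT N T w w' → lab D Y w = lab D Y w') ∧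
  ∀ g ∈ words 4 D, ∀ P ∈ I.2, (∀ q ∈ P, g.length + q.1.length ≤ D) →
    ¬ ∀ q ∈ P, lab D Y (g ++ enc q.1) = q.2

/-- no labelling of the words of length at most `D` is good, for some `D` with `2 D + 1 ≤ m` -/
def Kill (I : Inp) (m N : ℕ) (T : List (List ℕ)) : Prop :=
  ∃ D < m + 1, 2 * D + 1 ≤ m ∧ ∀ Y ∈ wordsEq I.1 (words 4 D).length, ¬ BallOK I N T D Y

/-- the code `c'` is a correct next step after `c` for the input `I` -/
def OkStep (c : Code) (I : Inp) (c' : Code) : Prop :=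
  Valid c'.2.1 c'.2.2 ∧ c.2.1 ≤ c'.2.1 ∧
  (∀ v < c.2.1, ∀ j < 4, step c'.2.2 j v = step c.2.2 j v) ∧
  c.1 < c'.1 ∧
  (∀ r ∈ words (2 * (c.1 + 1)) (c'.2.1 ^ c'.2.1),
    EqT c.2.1 c.2.2 (conv r) [] → EqT c'.2.1 c'.2.2 (conv r) []) ∧
  (∀ r ∈ words (2 * c'.1) (c'.2.1 ^ c'.2.1), ¬ EqT c'.2.1 c'.2.2 (conv r) (aw (2 * c'.1))) ∧
  (Commit I c'.2.1 c'.2.2 ∨ Kill I c'.1 c'.2.1 c'.2.2)
-- DEFS2 END

end Pool.Agent.Helper948.Dom
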