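import Mathlib

set_option autoImplicit false

namespace Pool.Agent.Helper948.Dom

-- DEFS BEGIN
/-- the free group on two generators `a`, `t` -/
abbrev F := FreeGroup (Fin 2)

/-- the generator `a` -/
def fa : F := FreeGroup.of 0

/-- the generator `t` -/
def ft : F := FreeGroup.of 1

/-- `a_i = t^i a t^{-i}` -/
def A (i : ℕ) : F := ft ^ i * fa * (ft ^ i)⁻¹

/-- `W k = ⟨a_0, ..., a_{k-1}⟩` -/
def W (k : ℕ) : Subgroup F := Subgroup.closure {g | ∃ i, i < k ∧ g = A i}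

/-- `a_m` does not lie in `W_m K` -/
def ND (K : Subgroup F) (m : ℕ) : Prop := ∀ w ∈ W m, A m * w⁻¹ ∉ K

/-- `K'` is smaller than `K` but has the same relations in the window `W (m+1)` -/
def Ext (K : Subgroup F) (m : ℕ) (K' : Subgroup F) : Prop :=
  K' ≤ K ∧ ∀ w ∈ W (m + 1), w ∈ K → w ∈ K'

/-- finite index and normal -/
structure FN (K : Subgroup F) : Prop where
  normal : K.Normal
  fin : K.FiniteIndex

/-- inputs of the domino problem: size of the alphabet and forbidden patterns -/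
abbrev Inp := ℕ × List (List (List (Fin 2 × Bool) × ℕ))

/-- there is a colouring of `F/K` avoiding the patterns -/
def Good (I : Inp) (K : Subgroup F) : Prop :=
  ∃ x : F → Fin I.1, (∀ g : F, ∀ k ∈ K, x (g * k) = x g) ∧
    ∀ g : F, ∀ P ∈ I.2, ¬ ∀ q ∈ P, ((x (g * FreeGroup.mk q.1) : Fin I.1) : ℕ) = q.2

/-- no colouring of the ball of radius `D` of `F/K` avoids the patterns -/
def NoBall (I : Inp) (K : Subgroup F) (D : ℕ) : Prop :=
  ¬ ∃ Y : List (Fin 2 × Bool) → ℕ,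
    (∀ w, w.length ≤ D → Y w < I.1) ∧
    (∀ w w', w.length ≤ D → w'.length ≤ D →
      (FreeGroup.mk w)⁻¹ * FreeGroup.mk w' ∈ K → Y w = Y w') ∧
    ∀ g, g.length ≤ D → ∀ P ∈ I.2, (∀ q ∈ P, (g ++ q.1).length ≤ D) →
      ¬ ∀ q ∈ P, Y (g ++ q.1) = q.2

/-- nearest neighbour colourings of `F/K` (left version) -/
def NN {B : Type} (Ra Rt : B → B → Prop) (K : Subgroup F) : Prop :=
  ∃ z : F → B, (∀ g : F, ∀ k ∈ K, z (g * k) = z g) ∧
    ∀ g : F, Ra (z g) (z (fa * g)) ∧ Rt (z g) (z (ft * g))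

theorem A_zero : A 0 = fa := by simp [A]

theorem A_succ (i : ℕ) : ft * A i * ft⁻¹ = A (i + 1) := by
  simp only [A, pow_succ']
  group

theorem A_mem {i k : ℕ} (h : i < k) : A i ∈ W k :=
  Subgroup.subset_closure ⟨i, h, rfl⟩

theorem W_mono {k l : ℕ} (h : k ≤ l) : W k ≤ W l := by
  rw [W, Subgroup.closure_le]
  rintro g ⟨i, hi, rfl⟩
  exact A_mem (lt_of_lt_of_le hi h)

theorem fa_mem (k : ℕ) : fa ∈ W (k + 1) := by
  rw [← A_zero]; exact A_mem (Nat.succ_pos k)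

theorem conj_mem {k : ℕ} {w : F} (h : w ∈ W k) : ft * w * ft⁻¹ ∈ W (k + 1) := by
  rw [W] at h
  induction h using Subgroup.closure_induction with
  | mem x hx =>
    obtain ⟨i, hi, rfl⟩ := hx
    rw [A_succ]; exact A_mem (by omega)
  | one => simp
  | mul x y _ _ hx hy =>
    have : ft * (x * y) * ft⁻¹ = (ft * x * ft⁻¹) * (ft * y * ft⁻¹) := by group
    rw [this]; exact mul_mem hx hy
  | inv x _ hx =>
    have : ft * x⁻¹ * ft⁻¹ = (ft * x * ft⁻¹)⁻¹ := by group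
    rw [this]; exact inv_mem hx

theorem conj_pow_mem {k : ℕ} (i : ℕ) {w : F} (h : w ∈ W k) : ft ^ i * w * (ft ^ i)⁻¹ ∈ W (k + i) := by
  induction i with
  | zero => simpa using h
  | succ i ih =>
    have : ft ^ (i + 1) * w * (ft ^ (i + 1))⁻¹ = ft * (ft ^ i * w * (ft ^ i)⁻¹) * ft⁻¹ := by
      rw [pow_succ']; group
    rw [this]; exact conj_mem ih

theorem ND.mono {K K' : Subgroup F} {m : ℕ} (h : ND K m) (hle : K' ≤ K) : ND K' m :=
  fun w hw hk => h w hw (hle hk)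

theorem Good.mono {I : Inp} {K K' : Subgroup F} (h : Good I K) (hle : K' ≤ K) : Good I K' := by
  obtain ⟨x, hx, hx'⟩ := h
  exact ⟨x, fun g k hk => hx g k (hle hk), hx'⟩
-- DEFS END

end Pool.Agent.Helper948.Dom
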