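import Pool.Agent.Helper948.Dom.Defs

/- solved by helper958 -/


set_option autoImplicit false

namespace Pool.Agent.Helper948.Dom.JA
open Pool.Agent.Helper948.Dom 


-- TARGET
/-- Transport of a structure over `G` along `t`, equivariant for a subgroup `C` with `t C t⁻¹ ≤ H`.
Proof: choose one representative `ρ` in each right coset `C γ` (e.g. `Quotient.out` for the
orbit relation of `C` acting on `G` by left multiplication), so `γ = c * ρ(γ)` with a unique `c ∈ C`, and put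
`τ v = (t c t⁻¹) • f_{ρ(p v)} (c⁻¹ • v)`, where `p v = c * ρ(p v)`.
(`p (c⁻¹ • v) = ρ(p v)`.)  Bijectivity: `τ` maps the fibre over `γ` bijectively onto the fibre over `t γ`
(composition of bijections). -/
theorem equivariant_ext {G V : Type*} [Group G] (t : G) (H C : Subgroup G) (hCH : C ≤ H)
    (hCt : ∀ c ∈ C, t * c * t⁻¹ ∈ H) [MulAction H V] (p : V → G)
    (hp : ∀ (h : H) (v : V), p (h • v) = h * p v)
    (f : ∀ γ : G, {v : V // p v = γ} ≃ {v : V // p v = t * γ}) :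
    ∃ τ : Equiv.Perm V, (∀ v, p (τ v) = t * p v) ∧
      (∀ (c : G) (hc : c ∈ C) (v : V),
        τ ((⟨c, hCH hc⟩ : H) • v) = (⟨t * c * t⁻¹, hCt c hc⟩ : H) • τ v) ∧
      ∀ v, ∃ (c : G) (hc : c ∈ C) (v0 : V), v = (⟨c, hCH hc⟩ : H) • v0 ∧
        τ v = (⟨t * c * t⁻¹, hCt c hc⟩ : H) • (f (p v0) ⟨v0, rfl⟩ : V) := by
  classical
  let ρ : G → G := fun γ => Quotient.out (Quotient.mk (QuotientGroup.rightRel C) γ)
  have hρ1 : ∀ γ, γ * (ρ γ)⁻¹ ∈ C := by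
    intro γ
    have h1 : (QuotientGroup.rightRel C) (ρ γ) γ :=
      Quotient.mk_out (s := QuotientGroup.rightRel C) γ
    exact QuotientGroup.rightRel_apply.1 h1
  have hρ2 : ∀ c ∈ C, ∀ γ, ρ (c * γ) = ρ γ := by
    intro c hc γ
    have h1 : Quotient.mk (QuotientGroup.rightRel C) (c * γ) =
        Quotient.mk (QuotientGroup.rightRel C) γ := by
      apply Quotient.sound
      change (QuotientGroup.rightRel C) (c * γ) γ
      rw [QuotientGroup.rightRel_apply]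
      simpa using C.inv_mem hc
    change Quotient.out _ = Quotient.out _
    rw [h1]
  let κ : G → G := fun γ => γ * (ρ γ)⁻¹
  have hκ : ∀ γ, κ γ ∈ C := hρ1
  have hκρ : ∀ γ, κ γ * ρ γ = γ := fun γ => inv_mul_cancel_right γ (ρ γ)
  have hκc : ∀ c ∈ C, ∀ γ, κ (c * γ) = c * κ γ := by
    intro c hc γ
    change c * γ * (ρ (c * γ))⁻¹ = c * (γ * (ρ γ)⁻¹)
    rw [hρ2 c hc, mul_assoc]
  let a : ∀ c, c ∈ C → H := fun c hc => ⟨c, hCH hc⟩
  let b : ∀ c, c ∈ C → H := fun c hc => ⟨t * c * t⁻¹, hCt c hc⟩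
  let F : G → V → V := fun γ v => if h : p v = γ then (f γ ⟨v, h⟩ : V) else v
  let F' : G → V → V := fun γ w => if h : p w = t * γ then ((f γ).symm ⟨w, h⟩ : V) else w
  have hF1 : ∀ γ v, p v = γ → p (F γ v) = t * γ := by
    intro γ v h
    simp only [F, h, dif_pos]
    exact (f γ ⟨v, h⟩).2
  have hF2 : ∀ γ w, p w = t * γ → p (F' γ w) = γ := by
    intro γ w h
    simp only [F', h, dif_pos]
    exact ((f γ).symm ⟨w, h⟩).2
  have hF3 : ∀ γ v, p v = γ → F' γ (F γ v) = v := by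
    intro γ v h
    have h1 := hF1 γ v h
    have h2 : (⟨F γ v, h1⟩ : {v : V // p v = t * γ}) = f γ ⟨v, h⟩ := by
      apply Subtype.ext
      change F γ v = _
      simp only [F, h, dif_pos]
    have h3 : F' γ (F γ v) = ((f γ).symm ⟨F γ v, h1⟩ : V) := by
      change (if h : p (F γ v) = t * γ then ((f γ).symm ⟨F γ v, h⟩ : V) else F γ v) = _
      rw [dif_pos h1]
    rw [h3, h2, Equiv.symm_apply_apply]
  have hF4 : ∀ γ w, p w = t * γ → F γ (F' γ w) = w := by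
    intro γ w h
    have h1 := hF2 γ w h
    have h2 : (⟨F' γ w, h1⟩ : {v : V // p v = γ}) = (f γ).symm ⟨w, h⟩ := by
      apply Subtype.ext
      change F' γ w = _
      simp only [F', h, dif_pos]
    have h3 : F γ (F' γ w) = (f γ ⟨F' γ w, h1⟩ : V) := by
      change (if h : p (F' γ w) = γ then (f γ ⟨F' γ w, h⟩ : V) else F' γ w) = _
      rw [dif_pos h1]
    rw [h3, h2, Equiv.apply_symm_apply]
  have hpa : ∀ v, p ((a _ (hκ (p v)))⁻¹ • v) = ρ (p v) := by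
    intro v
    rw [hp]
    change (κ (p v))⁻¹ * p v = ρ (p v)
    rw [inv_mul_eq_iff_eq_mul, hκρ]
  let τ : V → V := fun v => b _ (hκ (p v)) • F (ρ (p v)) ((a _ (hκ (p v)))⁻¹ • v)
  have hpτ : ∀ v, p (τ v) = t * p v := by
    intro v
    change p (b _ (hκ (p v)) • F (ρ (p v)) ((a _ (hκ (p v)))⁻¹ • v)) = _
    rw [hp, hF1 _ _ (hpa v)]
    change t * κ (p v) * t⁻¹ * (t * ρ (p v)) = t * p v
    rw [mul_assoc (t * κ (p v)), inv_mul_cancel_left, mul_assoc, hκρ]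
  let σ : V → V := fun w => a _ (hκ (t⁻¹ * p w)) •
    F' (ρ (t⁻¹ * p w)) ((b _ (hκ (t⁻¹ * p w)))⁻¹ • w)
  have hpb : ∀ w, p ((b _ (hκ (t⁻¹ * p w)))⁻¹ • w) = t * ρ (t⁻¹ * p w) := by
    intro w
    rw [hp]
    change (t * κ (t⁻¹ * p w) * t⁻¹)⁻¹ * p w = t * ρ (t⁻¹ * p w)
    rw [inv_mul_eq_iff_eq_mul, mul_assoc (t * κ (t⁻¹ * p w)), inv_mul_cancel_left, mul_assoc, hκρ,
      mul_inv_cancel_left]
  have hpσ : ∀ w, p (σ w) = t⁻¹ * p w := by
    intro w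
    change p (a _ (hκ (t⁻¹ * p w)) • F' (ρ (t⁻¹ * p w)) ((b _ (hκ (t⁻¹ * p w)))⁻¹ • w)) = _
    rw [hp, hF2 _ _ (hpb w)]
    exact hκρ _
  have hb_congr : ∀ γ γ', γ = γ' → b _ (hκ γ) = b _ (hκ γ') := by
    rintro γ _ rfl; rfl
  have ha_congr : ∀ γ γ', γ = γ' → a _ (hκ γ) = a _ (hκ γ') := by
    rintro γ _ rfl; rfl
  have hστ : ∀ v, σ (τ v) = v := by
    intro v
    have h1 : t⁻¹ * p (τ v) = p v := by rw [hpτ, inv_mul_cancel_left]
    change a _ (hκ (t⁻¹ * p (τ v))) •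
      F' (ρ (t⁻¹ * p (τ v))) ((b _ (hκ (t⁻¹ * p (τ v))))⁻¹ • (τ v)) = v
    rw [ha_congr _ _ h1, hb_congr _ _ h1, h1]
    change a _ (hκ (p v)) • F' (ρ (p v)) ((b _ (hκ (p v)))⁻¹ •
      (b _ (hκ (p v)) • F (ρ (p v)) ((a _ (hκ (p v)))⁻¹ • v))) = v
    rw [inv_smul_smul, hF3 _ _ (hpa v), smul_inv_smul]
  have hτσ : ∀ w, τ (σ w) = w := by
    intro w
    have h1 : p (σ w) = t⁻¹ * p w := hpσ w
    change b _ (hκ (p (σ w))) • F (ρ (p (σ w))) ((a _ (hκ (p (σ w))))⁻¹ • (σ w)) = w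
    rw [ha_congr _ _ h1, hb_congr _ _ h1, h1]
    change b _ (hκ (t⁻¹ * p w)) • F (ρ (t⁻¹ * p w)) ((a _ (hκ (t⁻¹ * p w)))⁻¹ •
      (a _ (hκ (t⁻¹ * p w)) • F' (ρ (t⁻¹ * p w)) ((b _ (hκ (t⁻¹ * p w)))⁻¹ • w))) = w
    rw [inv_smul_smul, hF4 _ _ (hpb w), smul_inv_smul]
  refine ⟨⟨τ, σ, hστ, hτσ⟩, hpτ, ?_, ?_⟩
  · intro c hc v
    change τ (a c hc • v) = b c hc • τ v
    have h1 : p (a c hc • v) = c * p v := hp _ _
    have h2 : ρ (p (a c hc • v)) = ρ (p v) := by rw [h1, hρ2 c hc]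
    have h3 : a _ (hκ (p (a c hc • v))) = a c hc * a _ (hκ (p v)) := by
      apply Subtype.ext
      change κ (p (a c hc • v)) = c * κ (p v)
      rw [h1, hκc c hc]
    have h4 : b _ (hκ (p (a c hc • v))) = b c hc * b _ (hκ (p v)) := by
      apply Subtype.ext
      change t * κ (p (a c hc • v)) * t⁻¹ = (t * c * t⁻¹) * (t * κ (p v) * t⁻¹)
      rw [h1, hκc c hc]
      group
    change b _ (hκ (p (a c hc • v))) • F (ρ (p (a c hc • v)))
      ((a _ (hκ (p (a c hc • v))))⁻¹ • (a c hc • v)) =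
      b c hc • (b _ (hκ (p v)) • F (ρ (p v)) ((a _ (hκ (p v)))⁻¹ • v))
    rw [h2, h3, h4, mul_smul, mul_inv_rev, mul_smul, inv_smul_smul]
  · intro v
    refine ⟨κ (p v), hκ (p v), (a _ (hκ (p v)))⁻¹ • v, (smul_inv_smul _ _).symm, ?_⟩
    change b _ (hκ (p v)) • F (ρ (p v)) ((a _ (hκ (p v)))⁻¹ • v) = b _ (hκ (p v)) • _
    congr 1
    rw [← hpa v]
    change (if h : p ((a _ (hκ (p v)))⁻¹ • v) = p ((a _ (hκ (p v)))⁻¹ • v) then
      (f (p ((a _ (hκ (p v)))⁻¹ • v)) ⟨(a _ (hκ (p v)))⁻¹ • v, h⟩ : V) else _) = _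
    rw [dif_pos rfl]

end Pool.Agent.Helper948.Dom.JA
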