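import Pool.Agent.Helper948.Dom.Defs
import Pool.Agent.Helper948.Dom.JA

/- solved by helper122 -/


set_option autoImplicit false

namespace Pool.Agent.Helper948.Dom.JB
open Pool.Agent.Helper948.Dom Pool.Agent.Helper948.Dom.JA






-- TARGET
/-- The action of the free group `F` on a set over `G` in which the window `W (m+1)` acts through its image in `G`.
Proof: apply `equivariant_ext` with `t := π ft`, `H := (W (m+1)).map π`, `C := (W m).map π`
(use `W_mono`, `conj_mem`), let `φ := FreeGroup.lift` of `![action of π fa, τ]`, and show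
`φ w v = [w] • v` first for `w = A i`, `i < m+1`, by induction on `i` (`A_succ`: `A (i+1) = ft * A i * ft⁻¹`,
`A i ∈ W m`), then for all `w ∈ W (m+1)` by `Subgroup.closure_induction`. -/
theorem window_ext {G V : Type*} [Group G] (π : F →* G) (m : ℕ)
    [MulAction ((W (m + 1)).map π) V] (p : V → G)
    (hp : ∀ (h : (W (m + 1)).map π) (v : V), p (h • v) = h * p v)
    (f : ∀ γ : G, {v : V // p v = γ} ≃ {v : V // p v = π ft * γ}) :
    ∃ φ : F →* Equiv.Perm V, (∀ g v, p (φ g v) = π g * p v) ∧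
      (∀ (w : F) (hw : w ∈ W (m + 1)) (v : V),
        φ w v = (⟨π w, Subgroup.mem_map_of_mem π hw⟩ : (W (m + 1)).map π) • v) ∧
      ∀ v, ∃ (w : F) (hw : w ∈ W m) (v0 : V),
        v = (⟨π w, Subgroup.mem_map_of_mem π (W_mono (Nat.le_succ m) hw)⟩ :
          (W (m + 1)).map π) • v0 ∧
        φ ft v = (⟨π (ft * w * ft⁻¹), Subgroup.mem_map_of_mem π (conj_mem hw)⟩ :
          (W (m + 1)).map π) • (f (p v0) ⟨v0, rfl⟩ : V) := by
  classical
  have hCH : (W m).map π ≤ (W (m+1)).map π := Subgroup.map_mono (W_mono (Nat.le_succ m))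
  have hCt : ∀ c ∈ (W m).map π, π ft * c * (π ft)⁻¹ ∈ (W (m+1)).map π := by
    rintro c ⟨w, hw, rfl⟩
    exact ⟨ft * w * ft⁻¹, conj_mem hw, by simp⟩
  obtain ⟨τ, hτp, hτe, hτf⟩ := equivariant_ext (π ft) _ _ hCH hCt p hp f
  have hfa : π fa ∈ (W (m+1)).map π := Subgroup.mem_map_of_mem π (fa_mem m)
  obtain ⟨α, hα⟩ : ∃ α : Equiv.Perm V, ∀ v, α v = (⟨π fa, hfa⟩ : (W (m+1)).map π) • v :=
    ⟨MulAction.toPerm (⟨π fa, hfa⟩ : (W (m+1)).map π), fun v => rfl⟩
  obtain ⟨φ, hφa, hφt⟩ : ∃ φ : F →* Equiv.Perm V, φ fa = α ∧ φ ft = τ :=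
    ⟨FreeGroup.lift ![α, τ], by simp [fa], by simp [ft]⟩
  have hinv : ∀ (x : F) (v : V), φ x (φ x⁻¹ v) = v := by
    intro x v
    rw [← Equiv.Perm.mul_apply, ← map_mul, mul_inv_cancel, map_one, Equiv.Perm.one_apply]
  refine ⟨φ, ?_, ?_, ?_⟩
  · intro g
    induction g using FreeGroup.induction_on with
    | C1 => intro v; simp
    | of i =>
      intro v
      fin_cases i
      · show p (φ fa v) = π fa * p v
        rw [hφa, hα, hp]
      · show p (φ ft v) = π ft * p v
        rw [hφt, hτp]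
    | inv_of i hi =>
      intro v
      have h1 := hi (φ (FreeGroup.of i)⁻¹ v)
      rw [hinv] at h1
      rw [h1, map_inv π, inv_mul_cancel_left]
    | mul x y hx hy =>
      intro v
      rw [map_mul, Equiv.Perm.mul_apply, hx, hy, map_mul, mul_assoc]
  · have hA : ∀ i, i < m + 1 → ∀ (h : π (A i) ∈ (W (m+1)).map π) (v : V),
        φ (A i) v = (⟨π (A i), h⟩ : (W (m+1)).map π) • v := by
      intro i
      induction i with
      | zero =>
        intro _ h v
        have e : (⟨π (A 0), h⟩ : (W (m+1)).map π) = ⟨π fa, hfa⟩ :=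
          Subtype.ext (congrArg π A_zero)
        rw [e, A_zero, hφa, hα]
      | succ i ih =>
        intro hi h v
        have hAm : π (A i) ∈ (W m).map π := Subgroup.mem_map_of_mem π (A_mem (by omega))
        have e : (⟨π (A (i+1)), h⟩ : (W (m+1)).map π) =
            ⟨π ft * π (A i) * (π ft)⁻¹, hCt _ hAm⟩ :=
          Subtype.ext (by show π (A (i+1)) = π ft * π (A i) * (π ft)⁻¹; rw [← A_succ]; simp)
        rw [e]
        have h1 := hτe (π (A i)) hAm (φ ft⁻¹ v)
        rw [← ih (by omega)] at h1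
        have h2 := hinv ft v
        rw [hφt] at h2
        rw [h2] at h1
        rw [← h1, ← A_succ, map_mul, map_mul, Equiv.Perm.mul_apply, Equiv.Perm.mul_apply, hφt]
    have key : ∀ w ∈ W (m+1), ∀ (h : π w ∈ (W (m+1)).map π) (v : V),
        φ w v = (⟨π w, h⟩ : (W (m+1)).map π) • v := by
      intro w hw
      have hw' := hw
      rw [W] at hw'
      induction hw' using Subgroup.closure_induction with
      | mem x hx =>
        obtain ⟨i, hi, rfl⟩ := hx
        exact hA i hi
      | one =>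
        intro h v
        have e : (⟨π 1, h⟩ : (W (m+1)).map π) = 1 := Subtype.ext (by simp)
        rw [e, one_smul, map_one, Equiv.Perm.one_apply]
      | mul x y hx hy ihx ihy =>
        intro h v
        have hx' : x ∈ W (m+1) := by rw [W]; exact hx
        have hy' : y ∈ W (m+1) := by rw [W]; exact hy
        have e : (⟨π (x * y), h⟩ : (W (m+1)).map π) =
            ⟨π x, Subgroup.mem_map_of_mem π hx'⟩ * ⟨π y, Subgroup.mem_map_of_mem π hy'⟩ :=
          Subtype.ext (by simp)
        rw [e, mul_smul, ← ihy hy', ← ihx hx', map_mul, Equiv.Perm.mul_apply]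
      | inv x hx ih =>
        intro h v
        have hx' : x ∈ W (m+1) := by rw [W]; exact hx
        have e : (⟨π x⁻¹, h⟩ : (W (m+1)).map π) =
            (⟨π x, Subgroup.mem_map_of_mem π hx'⟩ : (W (m+1)).map π)⁻¹ :=
          Subtype.ext (by simp)
        rw [e, eq_inv_smul_iff, ← ih hx', hinv]
    exact fun w hw v => key w hw _ v
  · intro v
    obtain ⟨c, ⟨w, hw, hwc⟩, v0, h1, h2⟩ := hτf v
    subst hwc
    refine ⟨w, hw, v0, h1, ?_⟩
    rw [hφt, h2]
    have e : (⟨π ft * π w * (π ft)⁻¹, hCt (π w) ⟨w, hw, rfl⟩⟩ : (W (m+1)).map π) =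
        ⟨π (ft * w * ft⁻¹), Subgroup.mem_map_of_mem π (conj_mem hw)⟩ :=
      Subtype.ext (by simp)
    rw [← e]

end Pool.Agent.Helper948.Dom.JB
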