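import Pool.Agent.Helper948.Dom.Defs
import Pool.Agent.Helper948.Dom.JB

/- solved by helper63 -/


set_option autoImplicit false

namespace Pool.Agent.Helper948.Dom.JC
open Pool.Agent.Helper948.Dom Pool.Agent.Helper948.Dom.JB






-- TARGET
/-- One more generator of the window can be made independent.
Proof (G := F ⧸ K, finite; π := QuotientGroup.mk' K; H := (W (m+1)).map π, C := (W m).map π, C ≤ H; by `ND K m`
the element `π (A m)` of `H` is not in `C`).
Let `Ω := Option (H ⧸ C')` where `C' := C.subgroupOf H` (left cosets, `H` acts on the left; `none` is fixed;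
`MulAction` on `Option` may be defined by hand; alternatively use any finite `H`-set with a fixed point `∗` and
another point `c₀` whose stabiliser is exactly `C'`),
`V := Ω × G` with `h • (ω, γ) = (h • ω, h * γ)`, `p := Prod.snd`, and
`f γ : (ω, γ) ↦ (β ω, π ft * γ)` where `β := Equiv.swap ∗ c₀`, `c₀ = some (1 : H ⧸ C')`.
Apply `window_ext` and put `K' := K ⊓ φ.ker`. It is normal and of finite index (`Equiv.Perm V` is finite).
`Ext K m K'`: an element of `W (m+1) ∩ K` acts through `π w = 1`.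
`ND K' (m+1)`: let `Z := {v | v.1 = ∗}`; every `w ∈ W (m+1)` maps `Z` to `Z`. If `A (m+1) * w⁻¹ ∈ K'` then
`φ (A (m+1)) = φ w` preserves `Z`. But `A (m+1) = ft * A m * ft⁻¹` and `φ ft` maps `{c₀} × G` onto `{∗} × G`:
indeed for `v = (c₀, γ)` write `v = [w] • v0` with `w ∈ W m`; then `v0 = (c₀, _)` as `[w] ∈ C` fixes `c₀`,
so `f v0 = (∗, _)`, and `φ ft v = [..] • (∗, _) = (∗, _)`; the same for points not in `{c₀} × G` shows that
they are not mapped into `{∗} × G` (if `v.1 ≠ c₀` then `v0.1 ≠ c₀`, so `(f v0).1 ≠ ∗`).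
So `φ (A m)` would preserve `{c₀} × G`, i.e. `π (A m)` fixes `c₀`, i.e. `π (A m) ∈ C`: contradiction. -/
theorem step_ext (K : Subgroup F) (m : ℕ) (hK : FN K) (hm : ND K m) :
    ∃ K' : Subgroup F, FN K' ∧ Ext K m K' ∧ ND K' (m + 1) := by
  classical
  haveI := hK.normal
  haveI := hK.fin
  let π : F →* F ⧸ K := QuotientGroup.mk' K
  let H : Subgroup (F ⧸ K) := (W (m + 1)).map π
  let C : Subgroup (F ⧸ K) := (W m).map π
  let c₀ : Option (H ⧸ C.subgroupOf H) := some ((1 : H) : H ⧸ C.subgroupOf H)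
  let β : Equiv.Perm (Option (H ⧸ C.subgroupOf H)) := Equiv.swap none c₀
  let p : (Option (H ⧸ C.subgroupOf H)) × (F ⧸ K) → F ⧸ K := Prod.snd
  have hp : ∀ (h : (W (m + 1)).map π) (v : (Option (H ⧸ C.subgroupOf H)) × (F ⧸ K)),
      p (h • v) = h * p v := fun h v => rfl
  let f : ∀ γ : F ⧸ K, {v : (Option (H ⧸ C.subgroupOf H)) × (F ⧸ K) // p v = γ} ≃
      {v : (Option (H ⧸ C.subgroupOf H)) × (F ⧸ K) // p v = π ft * γ} := fun γ =>
    { toFun := fun v => ⟨(β v.1.1, π ft * γ), rfl⟩
      invFun := fun v => ⟨(β.symm v.1.1, γ), rfl⟩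
      left_inv := by
        rintro ⟨⟨ω, γ'⟩, h⟩
        have h' : γ' = γ := h
        subst h'
        simp
      right_inv := by
        rintro ⟨⟨ω, γ'⟩, h⟩
        have h' : γ' = π ft * γ := h
        subst h'
        simp }
  obtain ⟨φ, h1, h2, h3⟩ := window_ext π m p hp f
  haveI : Finite (Equiv.Perm ((Option (H ⧸ C.subgroupOf H)) × (F ⧸ K))) := inferInstance
  haveI : φ.ker.FiniteIndex := Subgroup.finiteIndex_ker φ
  refine ⟨K ⊓ φ.ker, ⟨inferInstance, inferInstance⟩, ⟨inf_le_left, ?_⟩, ?_⟩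
  · intro w hw hwK
    refine Subgroup.mem_inf.2 ⟨hwK, ?_⟩
    rw [MonoidHom.mem_ker]
    ext1 v
    rw [h2 w hw v]
    have hw1 : π w = 1 := (QuotientGroup.eq_one_iff w).2 hwK
    have hw2 : (⟨π w, Subgroup.mem_map_of_mem π hw⟩ : (W (m + 1)).map π) = 1 :=
      Subtype.ext hw1
    rw [hw2, one_smul]
    rfl
  · intro w hw hwK
    have hker : A (m + 1) * w⁻¹ ∈ φ.ker := hwK.2
    have hφ : φ (A (m + 1)) = φ w := by
      rw [MonoidHom.mem_ker, map_mul, map_inv, mul_inv_eq_one] at hker
      exact hker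
    -- action on the first component
    have hsm : ∀ (h : H) (v : (Option (H ⧸ C.subgroupOf H)) × (F ⧸ K)),
        (h • v).1 = none ↔ v.1 = none := by
      intro h v
      have e : (h • v).1 = h • v.1 := rfl
      rw [e]
      cases hv : v.1 with
      | none => simp
      | some x => simp
    have hwn : ∀ v, (φ w v).1 = none ↔ v.1 = none := by
      intro v
      rw [h2 w hw v]
      exact hsm _ v
    have hstab : ∀ h : H, h • c₀ = c₀ ↔ (h : F ⧸ K) ∈ C := by
      intro h
      have e : h • c₀ = some ((h : H) : H ⧸ C.subgroupOf H) := by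
        show h • (some ((1 : H) : H ⧸ C.subgroupOf H)) = _
        rw [Option.smul_some]
        congr 1
        show ((h * 1 : H) : H ⧸ C.subgroupOf H) = _
        rw [mul_one]
      rw [e]
      show some _ = some _ ↔ _
      rw [Option.some_inj, eq_comm, QuotientGroup.eq, inv_one, one_mul, Subgroup.mem_subgroupOf]
    have hft : ∀ v, (φ ft v).1 = none ↔ v.1 = c₀ := by
      intro v
      obtain ⟨u, hu, v0, hv, hφv⟩ := h3 v
      rw [hφv, hsm]
      have e1 : (f (p v0) ⟨v0, rfl⟩ : (Option (H ⧸ C.subgroupOf H)) × (F ⧸ K)).1 = β v0.1 := rfl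
      rw [e1]
      have e2 : β v0.1 = none ↔ v0.1 = c₀ := by
        have e3 : β c₀ = none := Equiv.swap_apply_right _ _
        constructor
        · intro h
          rw [← e3] at h
          exact β.injective h
        · intro h
          rw [h, e3]
      rw [e2]
      have hst := (hstab ⟨π u, Subgroup.mem_map_of_mem π (W_mono (Nat.le_succ m) hu)⟩).2
        (Subgroup.mem_map_of_mem π hu)
      have e4 : v.1 = (⟨π u, Subgroup.mem_map_of_mem π (W_mono (Nat.le_succ m) hu)⟩ : H) • v0.1 := by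
        rw [hv]; rfl
      rw [e4]
      constructor
      · intro h
        rw [h]; exact hst
      · intro h
        rw [← hst] at h
        exact MulAction.injective _ h
    have hA : A (m + 1) * ft = ft * A m := by
      rw [← A_succ]; group
    have hAm : A m ∈ W (m + 1) := A_mem (Nat.lt_succ_self m)
    let v : (Option (H ⧸ C.subgroupOf H)) × (F ⧸ K) := (c₀, 1)
    have s1 : (φ ft v).1 = none := (hft v).2 rfl
    have s2 : (φ w (φ ft v)).1 = none := (hwn _).2 s1
    have s3 : φ w (φ ft v) = φ ft (φ (A m) v) := by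
      rw [← hφ, ← Equiv.Perm.mul_apply, ← Equiv.Perm.mul_apply, ← map_mul, ← map_mul, hA]
    rw [s3, hft, h2 (A m) hAm v] at s2
    have s4 : (⟨π (A m), Subgroup.mem_map_of_mem π hAm⟩ : H) • c₀ = c₀ := s2
    have s5 := (hstab _).1 s4
    obtain ⟨u, hu, hue⟩ := s5
    apply hm u hu
    have s6 : π (A m * u⁻¹) = 1 := by
      rw [map_mul, map_inv, mul_inv_eq_one]
      exact hue.symm
    exact (QuotientGroup.eq_one_iff _).1 s6

end Pool.Agent.Helper948.Dom.JC
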