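import Pool.Agent.Helper948.Dom.Defs
import Pool.Agent.Helper948.Dom.JC

/- solved by helper252 -/


set_option autoImplicit false

namespace Pool.Agent.Helper948.Dom.JD
open Pool.Agent.Helper948.Dom Pool.Agent.Helper948.Dom.JC






-- TARGET
/-- Iteration of `step_ext`. Proof: dependent choice (e.g. `exists_seq` style: build a sequence in the subtype
`{p : Subgroup F × ℕ // FN p.1 ∧ ND p.1 p.2}` by `Nat.rec` and `Classical.choose`). -/
theorem chain_exists (K : Subgroup F) (m : ℕ) (hK : FN K) (hm : ND K m) :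
    ∃ Kc : ℕ → Subgroup F, Kc 0 = K ∧ ∀ j, FN (Kc j) ∧ ND (Kc j) (m + j) ∧
      Ext (Kc j) (m + j) (Kc (j + 1)) := by
  let s : ∀ j : ℕ, {K' : Subgroup F // FN K' ∧ ND K' (m + j)} := fun j =>
    Nat.rec ⟨K, hK, hm⟩ (fun j p =>
      ⟨(step_ext p.1 (m + j) p.2.1 p.2.2).choose,
        (step_ext p.1 (m + j) p.2.1 p.2.2).choose_spec.1,
        (step_ext p.1 (m + j) p.2.1 p.2.2).choose_spec.2.2⟩) j
  refine ⟨fun j => (s j).1, rfl, fun j => ⟨(s j).2.1, (s j).2.2, ?_⟩⟩
  exact (step_ext (s j).1 (m + j) (s j).2.1 (s j).2.2).choose_spec.2.1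

/-- The limit group of a chain. Proof: `Kc` is decreasing; `⨅ j, Kc j` is normal as an intersection of normal
subgroups; if `w ∈ W (m+j+1) ∩ Kc j` then `w ∈ Kc (j+i)` for all `i` by induction (`W_mono`), and `w ∈ Kc i` for `i ≤ j`
by monotonicity.  For the last claim: `W k ≤ W (m+k+1)`, so inside `W k` the subgroup `⨅ Kc` agrees with
`Kc k`, which has finite index in `F`. -/
theorem limit_props (Kc : ℕ → Subgroup F) (m : ℕ)
    (h : ∀ j, FN (Kc j) ∧ Ext (Kc j) (m + j) (Kc (j + 1))) :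
    (⨅ j, Kc j).Normal ∧ (∀ j, (⨅ i, Kc i) ≤ Kc j) ∧
      (∀ j, ∀ w ∈ W (m + j + 1), w ∈ Kc j → w ∈ ⨅ i, Kc i) ∧
      ∀ k, ((⨅ j, Kc j).subgroupOf (W k)).FiniteIndex := by
  have hanti : Antitone Kc := antitone_nat_of_succ_le fun j => (h j).2.1
  have h3 : ∀ j, ∀ w ∈ W (m + j + 1), w ∈ Kc j → w ∈ ⨅ i, Kc i := by
    intro j w hw hj
    have h4 : ∀ i, w ∈ Kc (j + i) := by
      intro i
      induction i with
      | zero => exact hj
      | succ i ih =>
        exact (h (j + i)).2.2 w (W_mono (by omega) hw) ih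
    rw [Subgroup.mem_iInf]
    intro i
    rcases le_total i j with hij | hij
    · exact hanti hij hj
    · obtain ⟨k, rfl⟩ := Nat.exists_eq_add_of_le hij
      exact h4 k
  refine ⟨?_, fun j => iInf_le _ j, h3, ?_⟩
  · exact Subgroup.normal_iInf_normal fun j => (h j).1.normal
  · intro k
    have e : (⨅ j, Kc j).subgroupOf (W k) = (Kc k).subgroupOf (W k) := by
      ext ⟨w, hw⟩
      rw [Subgroup.mem_subgroupOf, Subgroup.mem_subgroupOf]
      constructor
      · intro h5
        exact (iInf_le Kc k) h5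
      · intro h5
        exact h3 k w (W_mono (by omega) hw) h5
    rw [e]
    have := (h k).1.fin
    infer_instance

end Pool.Agent.Helper948.Dom.JD
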