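import Pool.Agent.Helper948.Dom.Defs

/- solved by helper59 -/


set_option autoImplicit false

namespace Pool.Agent.Helper948.Dom.JE
open Pool.Agent.Helper948.Dom 


open Filter Topology in
theorem exact_real {ι κ : Type*} [Fintype ι] [Fintype κ] (M : κ → ι → ℤ) (S : Set ι)
    (h : ∀ ε : ℝ, 0 < ε → ∃ x : ι → ℝ, (∀ i, 0 ≤ x i) ∧ ∑ i, x i = 1 ∧ (∀ i, i ∉ S → x i = 0) ∧
      ∀ k, |∑ i, (M k i : ℝ) * x i| ≤ ε) :
    ∃ x : ι → ℝ, (∀ i, 0 ≤ x i) ∧ ∑ i, x i = 1 ∧ (∀ i, i ∉ S → x i = 0) ∧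
      ∀ k, ∑ i, (M k i : ℝ) * x i = 0 := by
  have h' : ∀ n : ℕ, ∃ x : ι → ℝ, (∀ i, 0 ≤ x i) ∧ ∑ i, x i = 1 ∧ (∀ i, i ∉ S → x i = 0) ∧
      ∀ k, |∑ i, (M k i : ℝ) * x i| ≤ 1 / ((n : ℝ) + 1) := fun n => h _ (by positivity)
  choose x hx0 hx1 hxS hxM using h'
  obtain ⟨y, hy, φ, hφ, hlim⟩ := (isCompact_stdSimplex ℝ ι).tendsto_subseq (x := x)
    (fun n => ⟨hx0 n, hx1 n⟩)
  have hcoord : ∀ i, Tendsto (fun n => x (φ n) i) atTop (𝓝 (y i)) := fun i =>
    (tendsto_pi_nhds.1 hlim) i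
  refine ⟨y, hy.1, hy.2, ?_, ?_⟩
  · intro i hi
    refine tendsto_nhds_unique (hcoord i) ?_
    have : (fun n => x (φ n) i) = fun _ => 0 := by
      funext n
      exact hxS _ i hi
    rw [this]
    exact tendsto_const_nhds
  · intro k
    have h1 : Tendsto (fun n => |∑ i, (M k i : ℝ) * x (φ n) i|) atTop
        (𝓝 |∑ i, (M k i : ℝ) * y i|) :=
      (tendsto_finsetSum _ (fun i _ => (hcoord i).const_mul _)).abs
    have h2 : Tendsto (fun n : ℕ => 1 / (((φ n : ℕ) : ℝ) + 1)) atTop (𝓝 0) :=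
      tendsto_one_div_add_atTop_nhds_zero_nat.comp hφ.tendsto_atTop
    have h3 : |∑ i, (M k i : ℝ) * y i| ≤ 0 :=
      le_of_tendsto_of_tendsto' h1 h2 (fun n => hxM (φ n) k)
    exact abs_eq_zero.1 (le_antisymm h3 (abs_nonneg _))

theorem exact_rat {ι κ : Type*} [Fintype ι] [Fintype κ] (M : κ → ι → ℤ) (x : ι → ℝ)
    (hx : ∀ i, 0 ≤ x i) (hM : ∀ k, ∑ i, (M k i : ℝ) * x i = 0) :
    ∃ z : ι → ℚ, (∀ i, 0 ≤ z i) ∧ (∀ i, 0 < x i → 0 < z i) ∧ (∀ i, x i = 0 → z i = 0) ∧
      ∀ k, ∑ i, (M k i : ℚ) * z i = 0 := by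
  classical
  let U : Submodule ℚ ℝ := Submodule.span ℚ (Set.range x)
  have : FiniteDimensional ℚ U := FiniteDimensional.span_of_finite ℚ (Set.finite_range x)
  let b := Module.finBasis ℚ U
  have hxU : ∀ i, x i ∈ U := fun i => Submodule.subset_span ⟨i, rfl⟩
  let u : ι → U := fun i => ⟨x i, hxU i⟩
  -- the continuous functions
  have hrep : ∀ i, x i = ∑ j, ((b.repr (u i) j : ℚ) : ℝ) * ((b j : U) : ℝ) := by
    intro i
    have h1 := b.sum_repr (u i)
    have h2 := congrArg (fun w : U => (w : ℝ)) h1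
    simp only [Submodule.coe_sum, Submodule.coe_smul] at h2
    have h3 : ((u i : U) : ℝ) = x i := rfl
    rw [h3] at h2
    rw [← h2]
    apply Finset.sum_congr rfl
    intro j _
    rw [Rat.smul_def]
  have hopen : IsOpen {e : Fin (Module.finrank ℚ U) → ℝ |
      ∀ i, 0 < x i → 0 < ∑ j, ((b.repr (u i) j : ℚ) : ℝ) * e j} := by
    have : {e : Fin (Module.finrank ℚ U) → ℝ |
      ∀ i, 0 < x i → 0 < ∑ j, ((b.repr (u i) j : ℚ) : ℝ) * e j} = ⋂ i, {e | 0 < x i → 
        0 < ∑ j, ((b.repr (u i) j : ℚ) : ℝ) * e j} := by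
      ext e
      simp
    rw [this]
    apply isOpen_iInter_of_finite
    intro i
    by_cases hi : 0 < x i
    · simp only [hi, true_imp_iff]
      exact isOpen_lt continuous_const (by fun_prop)
    · simp only [hi, false_imp_iff]
      exact isOpen_univ
  have hdense : DenseRange (Pi.map (fun (_ : Fin (Module.finrank ℚ U)) (q : ℚ) => (q : ℝ))) :=
    DenseRange.piMap (fun _ => Rat.denseRange_cast)
  obtain ⟨_, hy, ⟨v, rfl⟩⟩ := hdense.inter_open_nonempty _ hopen ⟨fun j => ((b j : U) : ℝ), by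
    intro i hi
    show 0 < ∑ j, ((b.repr (u i) j : ℚ) : ℝ) * ((b j : U) : ℝ)
    rw [← hrep i]
    exact hi⟩
  let T : U →ₗ[ℚ] ℚ := b.constr ℚ v
  have hT : ∀ w : U, T w = ∑ j, b.repr w j * v j := by
    intro w
    simp only [T]
    rw [Module.Basis.constr_apply_fintype]
    apply Finset.sum_congr rfl
    intro j _
    rw [smul_eq_mul, Module.Basis.equivFun_apply]
  have hpos : ∀ i, 0 < x i → 0 < T (u i) := by
    intro i hi
    have h1 := hy i hi
    rw [hT]
    have h2 : ((∑ j, b.repr (u i) j * v j : ℚ) : ℝ) = ∑ j, ((b.repr (u i) j : ℚ) : ℝ) *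
        (Pi.map (fun (_ : Fin (Module.finrank ℚ U)) (q : ℚ) => (q : ℝ)) v) j := by
      push_cast
      rfl
    rw [← h2] at h1
    exact_mod_cast h1
  have hzero : ∀ i, x i = 0 → T (u i) = 0 := by
    intro i hi
    have : u i = 0 := Subtype.ext hi
    rw [this, map_zero]
  refine ⟨fun i => T (u i), ?_, hpos, hzero, ?_⟩
  · intro i
    rcases (hx i).lt_or_eq with h | h
    · exact (hpos i h).le
    · exact (hzero i h.symm).ge
  · intro k
    have h1 : ∑ i, (M k i : ℚ) • u i = 0 := by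
      apply Subtype.ext
      simp only [Submodule.coe_sum, Submodule.coe_smul, Submodule.coe_zero]
      rw [← hM k]
      apply Finset.sum_congr rfl
      intro i _
      rw [Rat.smul_def]
      push_cast
      rfl
    have h2 := congrArg T h1
    rw [map_sum, map_zero] at h2
    rw [← h2]
    apply Finset.sum_congr rfl
    intro i _
    rw [map_smul, smul_eq_mul]

-- TARGET
/-- From approximate real solutions of a homogeneous linear system with integer coefficients to a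
nonzero solution in natural numbers.
Proof. (1) Limit: for `ε = 1/(n+1)` choose `x n` in the compact set `{x | ∀ i, 0 ≤ x i, ∑ i, x i = 1}`
(closed subset of `Set.Icc 0 1`), take a convergent subsequence (`IsCompact.tendsto_subseq`); the limit `x` is
an exact real solution with `0 ≤ x i`, `∑ x i = 1`, `x i = 0` for `i ∉ S`.
(2) Rational solution: let `U` be the `ℚ`-span of the finitely many reals `x i` (finite dimensional `ℚ`-space), with a basis
`e_1, ..., e_r`; `x i = ∑ q i j * e_j` with rational `q i j`. Choose rationals `e'_j` so close to `e_j` that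
`x' i := ∑ q i j * e'_j` is positive whenever `x i > 0` (finitely many conditions, continuity). Since `x ↦ x'` is the
restriction of a `ℚ`-linear map `U → ℚ`, all the equations are preserved, and `x i = 0` implies `x' i = 0`.
(3) Multiply by a common denominator. -/
theorem int_solution {ι κ : Type*} [Fintype ι] [Fintype κ] (M : κ → ι → ℤ) (S : Set ι)
    (h : ∀ ε : ℝ, 0 < ε → ∃ x : ι → ℝ, (∀ i, 0 ≤ x i) ∧ ∑ i, x i = 1 ∧ (∀ i, i ∉ S → x i = 0) ∧
      ∀ k, |∑ i, (M k i : ℝ) * x i| ≤ ε) :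
    ∃ n : ι → ℕ, (∃ i, n i ≠ 0) ∧ (∀ i, i ∉ S → n i = 0) ∧ ∀ k, ∑ i, M k i * (n i : ℤ) = 0 := by
  classical
  obtain ⟨x, hx0, hx1, hxS, hxM⟩ := exact_real M S h
  obtain ⟨z, hz0, hzpos, hzz, hzM⟩ := exact_rat M x hx0 hxM
  -- common denominator
  have hD : 0 < ∏ j, (z j).den := Finset.prod_pos (fun j _ => (z j).den_pos)
  have hn : ∀ i, ∃ n : ℕ, (n : ℚ) = ((∏ j, (z j).den : ℕ) : ℚ) * z i := by
    intro i
    refine ⟨(∏ j ∈ Finset.univ.erase i, (z j).den) * (z i).num.toNat, ?_⟩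
    have h1 : (∏ j, (z j).den) = (z i).den * ∏ j ∈ Finset.univ.erase i, (z j).den :=
      (Finset.mul_prod_erase _ _ (Finset.mem_univ i)).symm
    have h2 : (((z i).num.toNat : ℕ) : ℚ) = ((z i).num : ℚ) := by
      have h3 : (((z i).num.toNat : ℕ) : ℤ) = (z i).num :=
        Int.toNat_of_nonneg (Rat.num_nonneg.2 (hz0 i))
      exact_mod_cast congrArg (fun t : ℤ => (t : ℚ)) h3
    have h4 : ((z i).den : ℚ) * z i = (z i).num := Rat.den_mul_eq_num (z i)
    rw [h1, Nat.cast_mul, Nat.cast_mul, h2, ← h4]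
    ring
  choose n hn using hn
  refine ⟨n, ?_, ?_, ?_⟩
  · obtain ⟨i, -, hi⟩ : ∃ i ∈ Finset.univ, 0 < x i := by
      by_contra hcon
      push Not at hcon
      have h1 : ∑ i, x i ≤ 0 := Finset.sum_nonpos (fun i hi => hcon i hi)
      rw [hx1] at h1
      linarith
    refine ⟨i, fun h0 => ?_⟩
    have h1 := hn i
    rw [h0, Nat.cast_zero] at h1
    have h2 : 0 < ((∏ j, (z j).den : ℕ) : ℚ) * z i :=
      mul_pos (by exact_mod_cast hD) (hzpos i hi)
    rw [← h1] at h2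
    exact lt_irrefl _ h2
  · intro i hi
    have h1 := hn i
    rw [hzz i (hxS i hi), mul_zero] at h1
    exact_mod_cast h1
  · intro k
    have h1 : ((∑ i, M k i * (n i : ℤ) : ℤ) : ℚ) = 0 := by
      push_cast
      have h2 : ∀ i, (M k i : ℚ) * (n i : ℚ) = ((∏ j, (z j).den : ℕ) : ℚ) * ((M k i : ℚ) * z i) := by
        intro i
        rw [hn i]
        ring
      rw [Finset.sum_congr rfl (fun i _ => h2 i), ← Finset.mul_sum, hzM k, mul_zero]
    exact_mod_cast h1

end Pool.Agent.Helper948.Dom.JE
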