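import Pool.Agent.Helper948.Dom.Defs

/- solved by helper854 -/


set_option autoImplicit false

namespace Pool.Agent.Helper948.Dom.JF
open Pool.Agent.Helper948.Dom 


-- TARGET
theorem transport_aux {P X : Type*} [Fintype P] [Fintype X] (g : X → P) (r : P → ℕ)
    (h : ∀ ψ, Nat.card {x // g x = ψ} = r ψ) :
    ∃ e : {x : P × ℕ // x.2 < r x.1} ≃ X, ∀ x, g (e x) = x.1.1 := by
  classical
  have h1 : ∀ ψ, Nonempty (Fin (r ψ) ≃ {x // g x = ψ}) := by
    intro ψ
    rw [← h ψ]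
    exact ⟨(Finite.equivFin {x // g x = ψ}).symm⟩
  have e1 : ∀ ψ, Fin (r ψ) ≃ {x // g x = ψ} := fun ψ => (h1 ψ).some
  obtain ⟨e0, he0⟩ : ∃ e0 : {x : P × ℕ // x.2 < r x.1} ≃ Σ ψ, Fin (r ψ), ∀ x, (e0 x).1 = x.1.1 :=
    ⟨{ toFun := fun x => ⟨x.1.1, ⟨x.1.2, x.2⟩⟩
       invFun := fun y => ⟨(y.1, y.2.1), y.2.2⟩
       left_inv := fun x => rfl
       right_inv := fun y => rfl }, fun x => rfl⟩
  refine ⟨(e0.trans (Equiv.sigmaCongrRight e1)).trans (Equiv.sigmaFiberEquiv g), ?_⟩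
  intro x
  have h2 : g ((Equiv.sigmaFiberEquiv g) ((Equiv.sigmaCongrRight e1) (e0 x))) =
      ((Equiv.sigmaCongrRight e1) (e0 x)).1 := ((Equiv.sigmaCongrRight e1) (e0 x)).2.2
  show g ((Equiv.sigmaFiberEquiv g) ((Equiv.sigmaCongrRight e1) (e0 x))) = _
  rw [h2]
  exact he0 x

/-- A transport plan with natural entries is realised by a bijection.
Proof: both types are in bijection with `Σ (ψ ψ'), Fin (N ψ ψ')`
(`Fin (∑ ψ', N ψ ψ') ≃ Σ ψ', Fin (N ψ ψ')` is `finSigmaFinEquiv`-like / `Fintype.card` argument), and the subtype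
form is only a reformulation. -/
theorem transport {P : Type*} [Fintype P] (N : P → P → ℕ) (r s : P → ℕ)
    (hr : ∀ ψ, ∑ ψ', N ψ ψ' = r ψ) (hs : ∀ ψ', ∑ ψ, N ψ ψ' = s ψ') :
    ∃ f : {x : P × ℕ // x.2 < r x.1} ≃ {x : P × ℕ // x.2 < s x.1},
      ∀ x, N x.1.1 (f x).1.1 ≠ 0 := by
  classical
  obtain ⟨e, he⟩ := transport_aux (X := Σ p : P × P, Fin (N p.1 p.2)) (fun y => y.1.1) r (by
    intro ψ
    rw [Nat.card_eq_fintype_card, Fintype.card_subtype, Finset.card_filter, Fintype.sum_sigma,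
      Fintype.sum_prod_type, ← hr ψ]
    simp only [Finset.sum_const, Finset.card_univ, Fintype.card_fin, smul_eq_mul]
    rw [Finset.sum_eq_single ψ]
    · simp
    · intro b _ hb
      simp [hb]
    · intro hn
      exact absurd (Finset.mem_univ _) hn)
  obtain ⟨e', he'⟩ := transport_aux (X := Σ p : P × P, Fin (N p.1 p.2)) (fun y => y.1.2) s (by
    intro ψ
    rw [Nat.card_eq_fintype_card, Fintype.card_subtype, Finset.card_filter, Fintype.sum_sigma,
      Fintype.sum_prod_type, ← hs ψ]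
    simp only [Finset.sum_const, Finset.card_univ, Fintype.card_fin, smul_eq_mul]
    refine Finset.sum_congr rfl fun a _ => ?_
    rw [Finset.sum_eq_single ψ]
    · simp
    · intro b _ hb
      simp [hb]
    · intro hn
      exact absurd (Finset.mem_univ _) hn)
  refine ⟨e.trans e'.symm, ?_⟩
  intro x
  have h1 := he x
  have h2 := he' (e'.symm (e x))
  rw [Equiv.apply_symm_apply] at h2
  show N x.1.1 (e'.symm (e x)).1.1 ≠ 0
  rw [← h1, ← h2]
  have h3 := (e x).2.2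
  exact (lt_of_le_of_lt (Nat.zero_le _) h3).ne'

end Pool.Agent.Helper948.Dom.JF
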