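import Pool.Agent.Helper948.Dom.Defs

/- solved by helper43 -/


set_option autoImplicit false

namespace Pool.Agent.Helper948.Dom.JG
open Pool.Agent.Helper948.Dom 




-- TARGET
open Classical in
/-- real-valued truth value -/
noncomputable def apxct (p : Prop) : ℝ := if p then 1 else 0

theorem apxct_pos {p : Prop} (h : p) : apxct p = 1 := by simp [apxct, h]

theorem apxct_neg {p : Prop} (h : ¬ p) : apxct p = 0 := by simp [apxct, h]

theorem apxct_nonneg (p : Prop) : 0 ≤ apxct p := by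
  by_cases h : p
  · rw [apxct_pos h]; norm_num
  · rw [apxct_neg h]

theorem apxct_le (p : Prop) : apxct p ≤ 1 := by
  by_cases h : p
  · rw [apxct_pos h]
  · rw [apxct_neg h]; norm_num

theorem apxct_congr {p q : Prop} (h : p ↔ q) : apxct p = apxct q := by rw [propext h]

theorem apxct_sum {P : Type*} [Fintype P] (a : P) : ∑ b : P, apxct (a = b) = 1 := by
  rw [Finset.sum_eq_single a]
  · exact apxct_pos rfl
  · intro b _ hb
    exact apxct_neg (fun h => hb h.symm)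
  · intro h
    exact absurd (Finset.mem_univ a) h

theorem apx_sum3 {Q C P : Type*} [Fintype Q] [Fintype P] (L : ℕ) (cl : Q → ℕ → C)
    (pa pb : Q → ℕ → P) (γ : C) (ψ : P) :
    ∑ ψ' : P, ∑ i ∈ Finset.range L, ∑ q : Q,
      apxct ((cl q (i + 1), pa q (i + 1), pb q i) = (γ, ψ, ψ')) =
    ∑ i ∈ Finset.range L, ∑ q : Q, apxct (cl q (i + 1) = γ ∧ pa q (i + 1) = ψ) := by
  rw [Finset.sum_comm]
  refine Finset.sum_congr rfl (fun i _ => ?_)
  rw [Finset.sum_comm]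
  refine Finset.sum_congr rfl (fun q _ => ?_)
  by_cases h : cl q (i + 1) = γ ∧ pa q (i + 1) = ψ
  · rw [apxct_pos h, ← apxct_sum (pb q i)]
    refine Finset.sum_congr rfl (fun ψ' _ => apxct_congr ?_)
    simp only [Prod.mk.injEq, h.1, h.2, true_and]
  · rw [apxct_neg h]
    apply Finset.sum_eq_zero
    intro ψ' _
    apply apxct_neg
    simp only [Prod.mk.injEq]
    tauto

theorem apx_sum2 {Q C P : Type*} [Fintype Q] [Fintype P] (L : ℕ) (cl : Q → ℕ → C)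
    (pa pb : Q → ℕ → P) (γ : C) (ψ' : P) :
    ∑ ψ : P, ∑ i ∈ Finset.range L, ∑ q : Q,
      apxct ((cl q (i + 1), pa q (i + 1), pb q i) = (γ, ψ, ψ')) =
    ∑ i ∈ Finset.range L, ∑ q : Q, apxct (cl q (i + 1) = γ ∧ pb q i = ψ') := by
  rw [Finset.sum_comm]
  refine Finset.sum_congr rfl (fun i _ => ?_)
  rw [Finset.sum_comm]
  refine Finset.sum_congr rfl (fun q _ => ?_)
  by_cases h : cl q (i + 1) = γ ∧ pb q i = ψ'
  · rw [apxct_pos h, ← apxct_sum (pa q (i + 1))]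
    refine Finset.sum_congr rfl (fun ψ _ => apxct_congr ?_)
    simp only [Prod.mk.injEq, h.1, h.2, true_and, and_true]
  · rw [apxct_neg h]
    apply Finset.sum_eq_zero
    intro ψ _
    apply apxct_neg
    simp only [Prod.mk.injEq]
    tauto

theorem apx_shift (i : ℕ) (g : F) : ft * ((ft ^ (i + 1))⁻¹ * g) = (ft ^ i)⁻¹ * g := by
  rw [pow_succ]
  group

theorem apx_conj (i : ℕ) (w g κ : F) :
    (ft ^ i)⁻¹ * ((ft ^ i * w * (ft ^ i)⁻¹) * g * κ) = w * ((ft ^ i)⁻¹ * g) * κ := by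
  group

/-- Approximate solutions from long Folner pieces.
Write `Q := W k / (W k ∩ Kω)` (finite by `hfin`), where `k := L + m + 1` and `L ≥ 1/ε`, `L ≥ 1`.
For `q ∈ Q` (choose a representative `r q ∈ W k`) and `i = 1..L` put `g(q,i) := ft^(-i) * r q` and
`x (γ,ψ,ψ') := #{(q,i) | i = 1..L, [g(q,i)] = γ, pat (g(q,i)) = ψ, pat (ft * g(q,i)) = ψ'} / (L * |Q|)`.
Everything depends only on the class of `r q` modulo `Kω` (normal, `≤ K`, `hpat`).
* Sum is 1; the support condition is clear.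
* Invariance under `w ∈ W (m+1)`: `w * ft^(-i) * r q = ft^(-i) * (ft^i * w * ft^(-i)) * r q` and
  `ft^i * w * (ft^i)⁻¹ ∈ W (m+1+i) ≤ W k` (`conj_pow_mem`, `W_mono`), so `q ↦ [ft^i w ft^(-i)] q` is a permutation of `Q`,
  which maps the elements with data `(γ, ψ)` to those with data `(w γ, act w ψ)`, by `hact`; it is a bijection between them
  because `act w` is injective.
* Flow: `∑ ψ, x (γ,ψ,ψ')` counts the `(q,i)`, `i = 1..L` with `[ft^(-i) r q] = γ` and `pat (ft^(-(i-1)) r q) = ψ'`, i.e.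
  (put `j = i-1`) the `(q,j)`, `j = 0..L-1` with `[ft^(-j) r q] = ft γ`, `pat (ft^(-j) r q) = ψ'`, while
  `∑ ψ'', x (ft γ,ψ',ψ'')` counts the same for `j = 1..L`.  The two numbers differ by at most `|Q|`, so after division by
  `L |Q|` by at most `1/L ≤ ε`. -/
theorem approx_solution (K Kω : Subgroup F) [hKn : K.Normal] [hKf : K.FiniteIndex] (m : ℕ)
    (hω : Kω.Normal) (hle : Kω ≤ K) (hfin : ∀ k, (Kω.subgroupOf (W k)).FiniteIndex)
    (P : Type) [Fintype P] [Fintype (F ⧸ K)] (pat : F → P)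
    (hpat : ∀ g, ∀ κ ∈ Kω, pat (g * κ) = pat g)
    (act : F → P → P) (hact : ∀ w ∈ W (m + 1), ∀ g, pat (w * g) = act w (pat g))
    (hinj : ∀ w ∈ W (m + 1), Function.Injective (act w))
    (ε : ℝ) (hε : 0 < ε) :
    ∃ x : (F ⧸ K) × P × P → ℝ, (∀ i, 0 ≤ x i) ∧ ∑ i, x i = 1 ∧
      (∀ γ ψ ψ', x (γ, ψ, ψ') ≠ 0 →
        ∃ g : F, (g : F ⧸ K) = γ ∧ pat g = ψ ∧ pat (ft * g) = ψ') ∧
      (∀ w ∈ W (m + 1), ∀ γ ψ,
        ∑ ψ', x ((w : F ⧸ K) * γ, act w ψ, ψ') = ∑ ψ', x (γ, ψ, ψ')) ∧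
      (∀ γ ψ', |∑ ψ, x (γ, ψ, ψ') - ∑ ψ'', x ((ft : F ⧸ K) * γ, ψ', ψ'')| ≤ ε) := by
  classical
  obtain ⟨L, hL⟩ := exists_nat_gt (1 / ε)
  have hLpos : (0:ℝ) < L := lt_trans (by positivity) hL
  have hL0 : 0 < L := by exact_mod_cast hLpos
  have hLε : 1 / (L:ℝ) ≤ ε := by
    rw [div_le_iff₀ hLpos]
    rw [div_lt_iff₀ hε] at hL
    linarith
  -- the finite quotient
  let N : Subgroup (W (L + m + 1)) := Kω.subgroupOf (W (L + m + 1))
  have hNn : N.Normal := hω.subgroupOf _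
  have hNf : N.FiniteIndex := hfin (L + m + 1)
  have : Fintype (W (L + m + 1) ⧸ N) := Fintype.ofFinite _
  let r : (W (L + m + 1) ⧸ N) → F := fun q => ((Quotient.out q : W (L + m + 1)) : F)
  have hr : ∀ h : W (L + m + 1), ∃ κ ∈ Kω, r (h : W (L + m + 1) ⧸ N) = (h : F) * κ := by
    intro h
    obtain ⟨n, hn⟩ := QuotientGroup.mk_out_eq_mul N h
    refine ⟨((n : W (L + m + 1)) : F), n.2, ?_⟩
    show ((Quotient.out (h : W (L + m + 1) ⧸ N) : W (L + m + 1)) : F) = _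
    rw [hn]
    rfl
  let cl : (W (L + m + 1) ⧸ N) → ℕ → F ⧸ K := fun q i => (((ft ^ i)⁻¹ * r q : F) : F ⧸ K)
  let pa : (W (L + m + 1) ⧸ N) → ℕ → P := fun q i => pat ((ft ^ i)⁻¹ * r q)
  have hcl : ∀ q i, (ft : F ⧸ K) * cl q (i + 1) = cl q i := by
    intro q i
    show (ft : F ⧸ K) * (((ft ^ (i + 1))⁻¹ * r q : F) : F ⧸ K) = (((ft ^ i)⁻¹ * r q : F) : F ⧸ K)
    rw [← QuotientGroup.mk_mul, apx_shift]
  have hQ : (0:ℝ) < Fintype.card (W (L + m + 1) ⧸ N) := by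
    exact_mod_cast Fintype.card_pos
  have hD : (0:ℝ) < L * Fintype.card (W (L + m + 1) ⧸ N) := mul_pos hLpos hQ
  -- translation
  have htr : ∀ w ∈ W (m + 1), ∀ i < L, ∃ u : W (L + m + 1) ⧸ N, ∀ q,
      cl (u * q) (i + 1) = (w : F ⧸ K) * cl q (i + 1) ∧
      pa (u * q) (i + 1) = act w (pa q (i + 1)) := by
    intro w hw i hi
    have hu : ft ^ (i + 1) * w * (ft ^ (i + 1))⁻¹ ∈ W (L + m + 1) :=
      W_mono (by omega) (conj_pow_mem (i + 1) hw)
    refine ⟨((⟨_, hu⟩ : W (L + m + 1)) : W (L + m + 1) ⧸ N), fun q => ?_⟩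
    have hq : ((Quotient.out q : W (L + m + 1)) : W (L + m + 1) ⧸ N) = q := QuotientGroup.out_eq' q
    obtain ⟨κ, hκ, hrq⟩ := hr ((⟨_, hu⟩ : W (L + m + 1)) * Quotient.out q)
    rw [QuotientGroup.mk_mul, hq] at hrq
    have h1 : (ft ^ (i + 1))⁻¹ * r (((⟨_, hu⟩ : W (L + m + 1)) : W (L + m + 1) ⧸ N) * q) =
        w * ((ft ^ (i + 1))⁻¹ * r q) * κ := by
      rw [hrq]
      exact apx_conj (i + 1) w (r q) κ
    constructor
    · show (((ft ^ (i + 1))⁻¹ * r (((⟨_, hu⟩ : W (L + m + 1)) : W (L + m + 1) ⧸ N) * q) : F) :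
        F ⧸ K) = _
      rw [h1, QuotientGroup.mk_mul_of_mem _ (hle hκ), QuotientGroup.mk_mul]
    · show pat ((ft ^ (i + 1))⁻¹ * r (((⟨_, hu⟩ : W (L + m + 1)) : W (L + m + 1) ⧸ N) * q)) = _
      rw [h1, hpat _ κ hκ, hact w hw]
  refine ⟨fun p => (∑ i ∈ Finset.range L, ∑ q : W (L + m + 1) ⧸ N,
    apxct ((cl q (i + 1), pa q (i + 1), pa q i) = p)) /
      (L * Fintype.card (W (L + m + 1) ⧸ N)), ?_, ?_, ?_, ?_, ?_⟩
  · intro p
    apply div_nonneg _ hD.le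
    exact Finset.sum_nonneg (fun i _ => Finset.sum_nonneg (fun q _ => apxct_nonneg _))
  · rw [← Finset.sum_div, Finset.sum_comm]
    rw [div_eq_one_iff_eq hD.ne']
    have h1 : ∀ i ∈ Finset.range L, ∑ p : (F ⧸ K) × P × P, ∑ q : W (L + m + 1) ⧸ N,
        apxct ((cl q (i + 1), pa q (i + 1), pa q i) = p) =
        Fintype.card (W (L + m + 1) ⧸ N) := by
      intro i _
      rw [Finset.sum_comm]
      rw [Finset.sum_congr rfl (fun q _ => apxct_sum _)]
      simp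
    rw [Finset.sum_congr rfl h1]
    simp
  · intro γ ψ ψ' hx
    have hne : (∑ i ∈ Finset.range L, ∑ q : W (L + m + 1) ⧸ N,
        apxct ((cl q (i + 1), pa q (i + 1), pa q i) = (γ, ψ, ψ'))) ≠ 0 := by
      intro h0
      apply hx
      simp only [h0, zero_div]
    obtain ⟨i, hi, hne2⟩ := Finset.exists_ne_zero_of_sum_ne_zero hne
    obtain ⟨q, _, hne3⟩ := Finset.exists_ne_zero_of_sum_ne_zero hne2
    have h4 : (cl q (i + 1), pa q (i + 1), pa q i) = (γ, ψ, ψ') := by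
      by_contra hcon
      exact hne3 (apxct_neg hcon)
    simp only [Prod.mk.injEq] at h4
    refine ⟨(ft ^ (i + 1))⁻¹ * r q, h4.1, h4.2.1, ?_⟩
    rw [apx_shift]
    exact h4.2.2
  · intro w hw γ ψ
    simp only
    rw [← Finset.sum_div, ← Finset.sum_div]
    congr 1
    rw [apx_sum3 L cl pa pa, apx_sum3 L cl pa pa]
    refine Finset.sum_congr rfl (fun i hi => ?_)
    obtain ⟨u, hu⟩ := htr w hw i (Finset.mem_range.mp hi)
    rw [← Equiv.sum_comp (Equiv.mulLeft u)]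
    refine Finset.sum_congr rfl (fun q _ => ?_)
    simp only [Equiv.coe_mulLeft]
    rw [(hu q).1, (hu q).2]
    apply apxct_congr
    rw [mul_right_inj, (hinj w hw).eq_iff]
  · intro γ ψ'
    simp only
    rw [← Finset.sum_div, ← Finset.sum_div, ← sub_div]
    rw [apx_sum2 L cl pa pa, apx_sum3 L cl pa pa]
    have h6 : ∀ i ∈ Finset.range L, ∑ q : W (L + m + 1) ⧸ N,
        apxct (cl q (i + 1) = γ ∧ pa q i = ψ') = ∑ q : W (L + m + 1) ⧸ N,
        apxct (cl q i = (ft : F ⧸ K) * γ ∧ pa q i = ψ') := by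
      intro i _
      refine Finset.sum_congr rfl (fun q _ => apxct_congr ?_)
      rw [← hcl q i, mul_right_inj]
    rw [Finset.sum_congr rfl h6]
    have h7 := Finset.sum_range_succ (fun i => ∑ q : W (L + m + 1) ⧸ N,
        apxct (cl q i = (ft : F ⧸ K) * γ ∧ pa q i = ψ')) L
    have h8 := Finset.sum_range_succ' (fun i => ∑ q : W (L + m + 1) ⧸ N,
        apxct (cl q i = (ft : F ⧸ K) * γ ∧ pa q i = ψ')) L
    rw [h7] at h8
    have hb : ∀ j, 0 ≤ (∑ q : W (L + m + 1) ⧸ N,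
        apxct (cl q j = (ft : F ⧸ K) * γ ∧ pa q j = ψ')) ∧
        (∑ q : W (L + m + 1) ⧸ N,
        apxct (cl q j = (ft : F ⧸ K) * γ ∧ pa q j = ψ')) ≤
          Fintype.card (W (L + m + 1) ⧸ N) := by
      intro j
      refine ⟨Finset.sum_nonneg (fun q _ => apxct_nonneg _), ?_⟩
      calc (∑ q : W (L + m + 1) ⧸ N, apxct (cl q j = (ft : F ⧸ K) * γ ∧ pa q j = ψ'))
          ≤ ∑ q : W (L + m + 1) ⧸ N, (1:ℝ) := Finset.sum_le_sum (fun q _ => apxct_le _)
        _ = _ := by simp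
    rw [abs_div, abs_of_pos hD, div_le_iff₀ hD]
    have h9 : |(∑ i ∈ Finset.range L, ∑ q : W (L + m + 1) ⧸ N,
        apxct (cl q i = (ft : F ⧸ K) * γ ∧ pa q i = ψ')) -
        ∑ i ∈ Finset.range L, ∑ q : W (L + m + 1) ⧸ N,
        apxct (cl q (i + 1) = (ft : F ⧸ K) * γ ∧ pa q (i + 1) = ψ')| ≤
          Fintype.card (W (L + m + 1) ⧸ N) := by
      have h10 := hb 0
      have h11 := hb L
      rw [abs_le]
      constructor <;> linarith [h10.1, h10.2, h11.1, h11.2]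
    refine h9.trans ?_
    have h12 : (1:ℝ) ≤ ε * L := by
      rw [div_le_iff₀ hLpos] at hLε
      exact hLε
    calc (Fintype.card (W (L + m + 1) ⧸ N) : ℝ) = 1 * Fintype.card (W (L + m + 1) ⧸ N) := by ring
      _ ≤ (ε * L) * Fintype.card (W (L + m + 1) ⧸ N) := mul_le_mul_of_nonneg_right h12 hQ.le
      _ = _ := by ring

end Pool.Agent.Helper948.Dom.JG
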