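import Pool.Agent.Helper948.Dom.Defs
import Pool.Agent.Helper948.Dom.JB
import Pool.Agent.Helper948.Dom.JF

/- solved by helper189 -/


set_option autoImplicit false

namespace Pool.Agent.Helper948.Dom.JH
open Pool.Agent.Helper948.Dom Pool.Agent.Helper948.Dom.JB Pool.Agent.Helper948.Dom.JF






-- TARGET
/-- points of the space on which the free group will act -/
def bpV {G P : Type} (M : G → P → ℕ) : Type := {x : G × P × ℕ // x.2.2 < M x.1 x.2.1}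

/-- the action of the window -/
@[reducible] def bpAct {G P : Type} [Group G] (H : Subgroup G) [MulAction H P] (M : G → P → ℕ)
    (hM : ∀ (h : H) (γ : G) (ψ : P), M ((h : G) * γ) (h • ψ) = M γ ψ) : MulAction H (bpV M) where
  smul h x := ⟨((h : G) * x.1.1, h • x.1.2.1, x.1.2.2), by
    show x.1.2.2 < M ((h : G) * x.1.1) (h • x.1.2.1)
    rw [hM]; exact x.2⟩
  one_smul x := by
    apply Subtype.ext
    show (((1 : H) : G) * x.1.1, (1 : H) • x.1.2.1, x.1.2.2) = x.1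
    rw [Subgroup.coe_one, one_mul, one_smul]
  mul_smul h k x := by
    apply Subtype.ext
    show (((h * k : H) : G) * x.1.1, (h * k) • x.1.2.1, x.1.2.2) =
      ((h : G) * ((k : G) * x.1.1), h • (k • x.1.2.1), x.1.2.2)
    rw [Subgroup.coe_mul, mul_assoc, mul_smul]

/-- the fibres -/
def bpFib {G P : Type} (M : G → P → ℕ) (γ : G) :
    {v : bpV M // v.1.1 = γ} ≃ {x : P × ℕ // x.2 < M γ x.1} where
  toFun v := ⟨v.1.1.2, by
    have h1 := v.1.2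
    have h2 : v.1.1.1 = γ := v.2
    rw [h2] at h1
    exact h1⟩
  invFun x := ⟨⟨(γ, x.1), x.2⟩, rfl⟩
  left_inv v := by
    rcases v with ⟨⟨⟨g, ψ, j⟩, hj⟩, rfl⟩
    rfl
  right_inv x := rfl

theorem bpFinite {G P : Type} [Finite G] [Finite P] (M : G → P → ℕ) : Finite (bpV M) := by
  let g : bpV M → Σ q : G × P, Fin (M q.1 q.2) := fun x => ⟨(x.1.1, x.1.2.1), ⟨x.1.2.2, x.2⟩⟩
  apply Finite.of_injective g
  rintro ⟨⟨a, b, c⟩, h⟩ ⟨⟨a', b', c'⟩, h'⟩ hh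
  simp only [g, Sigma.mk.injEq, Prod.mk.injEq] at hh
  obtain ⟨⟨rfl, rfl⟩, h3⟩ := hh
  rw [heq_eq_eq, Fin.mk.injEq] at h3
  subst h3
  rfl

/-- A periodic nearest neighbour colouring from an integral solution.
Notation: `π := QuotientGroup.mk' K`, `H := (W (m+1)).map π`, `M (γ,ψ) := ∑ ψ', N (γ,ψ,ψ')`,
`V := {x : (F ⧸ K) × P × ℕ // x.2.2 < M (x.1, x.2.1)}` (finite, nonempty by `hN`) with
`h • (γ,ψ,j) := (h * γ, h • ψ, j)` (well defined by `hinv`), `p (γ,ψ,j) := γ`.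
For every `γ` the theorem `transport` applied to `N (γ,·,·)` (row sums `M (γ,·)`, column sums `M (ft γ,·)` by `hflow`)
gives a bijection `f γ` from the fibre over `γ` to the fibre over `ft γ` such that `N (γ,ψ,ψ') ≠ 0` when `(γ,ψ,j) ↦ (ft γ,ψ',j')`.
Apply `window_ext`: get `φ : F →* Perm V`.  Put `K' := K ⊓ φ.ker` (normal, finite index), `z g := lab (ψ-coordinate of φ g v₀)`
for some `v₀ : V`.
`Ext K m K'`: an element of `W (m+1) ∩ K` acts on `V` as `π w = 1`.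
`Ra`: `φ fa v = [fa] • v` (`fa_mem`), and a point `(γ,ψ,j)` of `V` has some `ψ'` with `N (γ,ψ,ψ') ≠ 0`; use `ha`.
`Rt`: for `v` take `w ∈ W m`, `v0` from `window_ext`, `v = [w] • v0`, `φ ft v = [ft w ft⁻¹] • f v0`, and `ht`. -/
theorem build_periodic {B P : Type} [Fintype P] (Ra Rt : B → B → Prop)
    (K : Subgroup F) [hKn : K.Normal] [hKf : K.FiniteIndex] (m : ℕ)
    [MulAction ((W (m + 1)).map (QuotientGroup.mk' K)) P]
    (lab : P → B) (N : (F ⧸ K) × P × P → ℕ) (hN : ∃ i, N i ≠ 0)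
    (hinv : ∀ (h : (W (m + 1)).map (QuotientGroup.mk' K)) (γ : F ⧸ K) (ψ : P),
      ∑ ψ', N ((h : F ⧸ K) * γ, h • ψ, ψ') = ∑ ψ', N (γ, ψ, ψ'))
    (hflow : ∀ γ ψ', ∑ ψ, N (γ, ψ, ψ') = ∑ ψ'', N ((ft : F ⧸ K) * γ, ψ', ψ''))
    (ha : ∀ γ ψ ψ', N (γ, ψ, ψ') ≠ 0 →
      Ra (lab ψ) (lab ((⟨QuotientGroup.mk' K fa, Subgroup.mem_map_of_mem _ (fa_mem m)⟩ :
        (W (m + 1)).map (QuotientGroup.mk' K)) • ψ)))
    (ht : ∀ γ ψ ψ', N (γ, ψ, ψ') ≠ 0 → ∀ (w : F) (hw : w ∈ W m),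
      Rt (lab ((⟨QuotientGroup.mk' K w,
            Subgroup.mem_map_of_mem _ (W_mono (Nat.le_succ m) hw)⟩ :
          (W (m + 1)).map (QuotientGroup.mk' K)) • ψ))
        (lab ((⟨QuotientGroup.mk' K (ft * w * ft⁻¹), Subgroup.mem_map_of_mem _ (conj_mem hw)⟩ :
          (W (m + 1)).map (QuotientGroup.mk' K)) • ψ'))) :
    ∃ K' : Subgroup F, FN K' ∧ Ext K m K' ∧ NN Ra Rt K' := by
  classical
  let M : (F ⧸ K) → P → ℕ := fun γ ψ => ∑ ψ', N (γ, ψ, ψ')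
  letI act : MulAction ((W (m + 1)).map (QuotientGroup.mk' K)) (bpV M) :=
    bpAct ((W (m + 1)).map (QuotientGroup.mk' K)) M hinv
  have hfin : Finite (bpV M) := bpFinite M
  have hex : ∀ γ : F ⧸ K, ∃ e : {x : P × ℕ // x.2 < M γ x.1} ≃
      {x : P × ℕ // x.2 < M ((ft : F ⧸ K) * γ) x.1}, ∀ x, N (γ, x.1.1, (e x).1.1) ≠ 0 := by
    intro γ
    exact transport (fun ψ ψ' => N (γ, ψ, ψ')) (M γ) (M ((ft : F ⧸ K) * γ)) (fun ψ => rfl)
      (fun ψ' => hflow γ ψ')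
  choose e he using hex
  let p : bpV M → F ⧸ K := fun v => v.1.1
  let f : ∀ γ : F ⧸ K, {v : bpV M // p v = γ} ≃ {v : bpV M // p v = QuotientGroup.mk' K ft * γ} :=
    fun γ => (bpFib M γ).trans ((e γ).trans (bpFib M ((ft : F ⧸ K) * γ)).symm)
  have hf : ∀ v : bpV M, N (p v, v.1.2.1, (f (p v) ⟨v, rfl⟩ : bpV M).1.2.1) ≠ 0 := by
    intro v
    exact he (p v) ⟨v.1.2, v.2⟩
  obtain ⟨φ, hφ1, hφ2, hφ3⟩ := window_ext (QuotientGroup.mk' K) m p (fun h v => rfl) f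
  obtain ⟨v₀⟩ : Nonempty (bpV M) := by
    obtain ⟨⟨γ, ψ, ψ'⟩, hi⟩ := hN
    refine ⟨⟨(γ, ψ, 0), ?_⟩⟩
    show 0 < ∑ ψ', N (γ, ψ, ψ')
    exact lt_of_lt_of_le (Nat.pos_of_ne_zero hi)
      (Finset.single_le_sum (f := fun ψ' => N (γ, ψ, ψ')) (fun _ _ => Nat.zero_le _)
        (Finset.mem_univ ψ'))
  refine ⟨K ⊓ φ.ker, ⟨inferInstance, inferInstance⟩, ⟨inf_le_left, ?_⟩,
    fun g => lab ((φ g v₀).1.2.1), ?_, ?_⟩
  · intro w hw hwK
    refine ⟨hwK, ?_⟩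
    show φ w = 1
    apply Equiv.ext
    intro v
    rw [hφ2 w hw v]
    have h1 : (⟨QuotientGroup.mk' K w, Subgroup.mem_map_of_mem (QuotientGroup.mk' K) hw⟩ :
        (W (m + 1)).map (QuotientGroup.mk' K)) = 1 := by
      apply Subtype.ext
      show QuotientGroup.mk' K w = 1
      exact (QuotientGroup.eq_one_iff w).2 hwK
    rw [h1, one_smul]
    rfl
  · intro g k hk
    have h1 : φ k = 1 := hk.2
    show lab ((φ (g * k) v₀).1.2.1) = lab ((φ g v₀).1.2.1)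
    rw [map_mul, h1, mul_one]
  · intro g
    constructor
    · show Ra (lab ((φ g v₀).1.2.1)) (lab ((φ (fa * g) v₀).1.2.1))
      have h1 : φ (fa * g) v₀ = φ fa (φ g v₀) := by
        rw [map_mul]; rfl
      rw [h1, hφ2 fa (fa_mem m) (φ g v₀)]
      obtain ⟨ψ', hψ'⟩ : ∃ ψ', N ((φ g v₀).1.1, (φ g v₀).1.2.1, ψ') ≠ 0 := by
        have h2 : (φ g v₀).1.2.2 < ∑ ψ', N ((φ g v₀).1.1, (φ g v₀).1.2.1, ψ') := (φ g v₀).2
        have h3 : ∑ ψ', N ((φ g v₀).1.1, (φ g v₀).1.2.1, ψ') ≠ 0 := by omega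
        obtain ⟨ψ', _, h4⟩ := Finset.exists_ne_zero_of_sum_ne_zero h3
        exact ⟨ψ', h4⟩
      exact ha _ _ ψ' hψ'
    · show Rt (lab ((φ g v₀).1.2.1)) (lab ((φ (ft * g) v₀).1.2.1))
      have h1 : φ (ft * g) v₀ = φ ft (φ g v₀) := by
        rw [map_mul]; rfl
      rw [h1]
      obtain ⟨w, hw, v1, hv1, hv2⟩ := hφ3 (φ g v₀)
      rw [hv2]
      rw [hv1]
      exact ht _ _ _ (hf v1) w hw

end Pool.Agent.Helper948.Dom.JH
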