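import Pool.Agent.Helper948.Dom.Defs
import Pool.Agent.Helper948.Dom.JG
import Pool.Agent.Helper948.Dom.JE
import Pool.Agent.Helper948.Dom.JH

/- solved by helper846 -/


set_option autoImplicit false

namespace Pool.Agent.Helper948.Dom.JI
open Pool.Agent.Helper948.Dom Pool.Agent.Helper948.Dom.JG Pool.Agent.Helper948.Dom.JE Pool.Agent.Helper948.Dom.JH






-- TARGET

theorem c_sum1 {R G P : Type} [CommRing R] [Fintype G] [Fintype P] [DecidableEq G]
    [DecidableEq P] (x : G × P × P → R) (a : G) (b : P) :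
    ∑ i : G × P × P, (if i.1 = a ∧ i.2.1 = b then (1:R) else 0) * x i = ∑ ψ, x (a, b, ψ) := by
  rw [Fintype.sum_prod_type, Finset.sum_eq_single a]
  · rw [Fintype.sum_prod_type, Finset.sum_eq_single b]
    · simp
    · intro c _ hc; simp [hc]
    · simp
  · intro c _ hc; simp [hc]
  · simp

theorem c_sum2 {R G P : Type} [CommRing R] [Fintype G] [Fintype P] [DecidableEq G]
    [DecidableEq P] (x : G × P × P → R) (a : G) (b : P) :
    ∑ i : G × P × P, (if i.1 = a ∧ i.2.2 = b then (1:R) else 0) * x i = ∑ ψ, x (a, ψ, b) := by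
  rw [Fintype.sum_prod_type, Finset.sum_eq_single a]
  · rw [Fintype.sum_prod_type]
    refine Finset.sum_congr rfl fun ψ _ => ?_
    rw [Finset.sum_eq_single b]
    · simp
    · intro c _ hc; simp [hc]
    · simp
  · intro c _ hc; simp [hc]
  · simp

theorem c_aux {B P : Type} [Fintype P] (Ra Rt : B → B → Prop)
    (K Kω : Subgroup F) [hKn : K.Normal] [hKf : K.FiniteIndex] (m : ℕ)
    (hω : Kω.Normal) (hle : Kω ≤ K) (hfin : ∀ k, (Kω.subgroupOf (W k)).FiniteIndex)
    [MulAction ((W (m + 1)).map (QuotientGroup.mk' K)) P]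
    (z : F → B) (hz : ∀ g : F, Ra (z g) (z (fa * g)) ∧ Rt (z g) (z (ft * g)))
    (pat : F → P) (hpat : ∀ g, ∀ κ ∈ Kω, pat (g * κ) = pat g)
    (hact : ∀ (w : F) (hw : w ∈ W (m + 1)) (g : F), pat (w * g) =
      (⟨QuotientGroup.mk' K w, Subgroup.mem_map_of_mem _ hw⟩ :
        (W (m + 1)).map (QuotientGroup.mk' K)) • pat g)
    (lab : P → B) (hlab : ∀ g, lab (pat g) = z g) :
    ∃ K' : Subgroup F, FN K' ∧ Ext K m K' ∧ NN Ra Rt K' := by
  classical
  letI : Fintype (F ⧸ K) := Fintype.ofFinite _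
  letI : Fintype ((W (m + 1)).map (QuotientGroup.mk' K)) := Fintype.ofFinite _
  let act : F → P → P := fun w ψ => if hw : w ∈ W (m + 1) then
    (⟨QuotientGroup.mk' K w, Subgroup.mem_map_of_mem _ hw⟩ :
        (W (m + 1)).map (QuotientGroup.mk' K)) • ψ else ψ
  have hact1 : ∀ (w : F) (hw : w ∈ W (m + 1)) (ψ : P), act w ψ =
    (⟨QuotientGroup.mk' K w, Subgroup.mem_map_of_mem _ hw⟩ :
        (W (m + 1)).map (QuotientGroup.mk' K)) • ψ := by
    intro w hw ψ
    simp only [act, dif_pos hw]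
  let M : (((W (m + 1)).map (QuotientGroup.mk' K)) × (F ⧸ K) × P) ⊕ ((F ⧸ K) × P) →
      (F ⧸ K) × P × P → ℤ := fun k i =>
    match k with
    | .inl (h, γ, ψ) => (if i.1 = (h : F ⧸ K) * γ ∧ i.2.1 = h • ψ then 1 else 0)
        - (if i.1 = γ ∧ i.2.1 = ψ then 1 else 0)
    | .inr (γ, ψ') => (if i.1 = γ ∧ i.2.2 = ψ' then 1 else 0)
        - (if i.1 = (ft : F ⧸ K) * γ ∧ i.2.1 = ψ' then 1 else 0)
  obtain ⟨N, hN, hNS, hNM⟩ := int_solution M
    {i | ∃ g : F, (g : F ⧸ K) = i.1 ∧ pat g = i.2.1 ∧ pat (ft * g) = i.2.2} (by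
      intro ε hε
      obtain ⟨x, hx0, hx1, hxS, hxI, hxF⟩ := approx_solution K Kω m hω hle hfin P pat hpat act
        (fun w hw g => by rw [hact1 w hw]; exact hact w hw g)
        (fun w hw => by
          intro a b hab
          rw [hact1 w hw, hact1 w hw] at hab
          exact MulAction.injective _ hab) ε hε
      refine ⟨x, hx0, hx1, ?_, ?_⟩
      · rintro ⟨γ, ψ, ψ'⟩ hi
        by_contra hne
        exact hi (hxS γ ψ ψ' hne)
      · rintro (⟨h, γ, ψ⟩ | ⟨γ, ψ'⟩)
        · obtain ⟨h, hh⟩ := h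
          obtain ⟨w, hw, rfl⟩ := Subgroup.mem_map.mp hh
          have e1 := hxI w hw γ ψ
          rw [hact1 w hw] at e1
          have e2 : ∑ i, (M (.inl (⟨QuotientGroup.mk' K w, hh⟩, γ, ψ)) i : ℝ) * x i = 0 := by
            simp only [M, Int.cast_sub, Int.cast_ite, Int.cast_one, Int.cast_zero, sub_mul,
              Finset.sum_sub_distrib]
            rw [c_sum1, c_sum1]
            rw [sub_eq_zero]
            exact e1
          rw [e2, abs_zero]
          exact hε.le
        · have e2 : ∑ i, (M (.inr (γ, ψ')) i : ℝ) * x i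
              = ∑ ψ, x (γ, ψ, ψ') - ∑ ψ'', x ((ft : F ⧸ K) * γ, ψ', ψ'') := by
            simp only [M, Int.cast_sub, Int.cast_ite, Int.cast_one, Int.cast_zero, sub_mul,
              Finset.sum_sub_distrib]
            rw [c_sum1, c_sum2]
          rw [e2]
          exact hxF γ ψ')
  have hS : ∀ γ ψ ψ', N (γ, ψ, ψ') ≠ 0 →
      ∃ g : F, (g : F ⧸ K) = γ ∧ pat g = ψ ∧ pat (ft * g) = ψ' := by
    intro γ ψ ψ' hne
    by_contra hc
    exact hne (hNS _ hc)
  refine build_periodic Ra Rt K m lab N hN ?_ ?_ ?_ ?_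
  · intro h γ ψ
    have e1 := hNM (.inl (h, γ, ψ))
    simp only [M, sub_mul, Finset.sum_sub_distrib] at e1
    rw [c_sum1, c_sum1, sub_eq_zero] at e1
    exact_mod_cast e1
  · intro γ ψ'
    have e1 := hNM (.inr (γ, ψ'))
    simp only [M, sub_mul, Finset.sum_sub_distrib] at e1
    rw [c_sum1, c_sum2, sub_eq_zero] at e1
    exact_mod_cast e1
  · intro γ ψ ψ' hne
    obtain ⟨g, -, rfl, -⟩ := hS γ ψ ψ' hne
    rw [← hact fa (fa_mem m) g, hlab, hlab]
    exact (hz g).1
  · intro γ ψ ψ' hne w hw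
    obtain ⟨g, -, rfl, rfl⟩ := hS γ ψ ψ' hne
    rw [← hact w (W_mono (Nat.le_succ m) hw) g, ← hact (ft * w * ft⁻¹) (conj_mem hw) (ft * g),
      hlab, hlab]
    have : ft * w * ft⁻¹ * (ft * g) = ft * (w * g) := by group
    rw [this]
    exact (hz (w * g)).2

/-- The periodic colouring.  Notation: `π := QuotientGroup.mk' K`, `H := (W (m+1)).map π` (a finite group),
`P := H → B` with the left action `(η • ψ) h := ψ (h * η)`.
For `h : H` choose `s h ∈ W (m+1)` with `π (s h) = h`.  Given the colouring `z` for `Kω` (left or right multiplication of the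
argument by elements of the normal subgroup `Kω` does not matter: `z (u * κ * g) = z (u * g * (g⁻¹ κ g))`), put
`pat g h := z (s h * g)`.  Since elements of `W (m+1)` with the same image under `π` differ by an element of
`K ∩ W (m+1) ≤ Kω` (`hrel`) one gets `pat (w * g) = [w] • pat g` for `w ∈ W (m+1)` and `pat g [w] = z (w * g)`; put
`act w := ([w] • ·)` for `w ∈ W (m+1)` (anything else, e.g. `id`, otherwise), `lab ψ := ψ 1`, `lab (pat g) = z g`.
`approx_solution` gives the approximate solutions required by `int_solution` with index type `(F ⧸ K) × P × P`,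
`S := {(γ,ψ,ψ') | ∃ g, [g] = γ ∧ pat g = ψ ∧ pat (ft g) = ψ'}`, and equations indexed by
`κ := (H × (F ⧸ K) × P) ⊕ ((F ⧸ K) × P)` (all with coefficients in `{-1,0,1}`): the invariance equations and the flow equations.
The natural solution `N` satisfies the hypotheses of `build_periodic`: for `(γ,ψ,ψ') ∈ S`, with `g` as above,
`lab ψ = z g`, `lab ([fa] • ψ) = z (fa * g)`, `lab ([w] • ψ) = z (w * g)`, and
`lab ([ft w ft⁻¹] • ψ') = z (ft * w * ft⁻¹ * (ft * g)) = z (ft * (w * g))`. -/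
theorem nn_ext {B : Type} [Fintype B] (Ra Rt : B → B → Prop) (K Kω : Subgroup F) (m : ℕ)
    (hK : FN K) (hω : Kω.Normal) (hle : Kω ≤ K) (hrel : ∀ w ∈ W (m + 1), w ∈ K → w ∈ Kω)
    (hfin : ∀ k, (Kω.subgroupOf (W k)).FiniteIndex) (h : NN Ra Rt Kω) :
    ∃ K' : Subgroup F, FN K' ∧ Ext K m K' ∧ NN Ra Rt K' := by
  classical
  obtain ⟨z, hz1, hz2⟩ := h
  have hKn := hK.normal
  have hKf := hK.fin
  -- changing the representative
  have hL : ∀ u ∈ W (m + 1), ∀ u' ∈ W (m + 1),
      QuotientGroup.mk' K u = QuotientGroup.mk' K u' → ∀ g, z (u * g) = z (u' * g) := by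
    intro u hu u' hu' he g
    have h1 : u⁻¹ * u' ∈ K := QuotientGroup.eq.mp he
    have h2 : u⁻¹ * u' ∈ Kω := hrel _ (mul_mem (inv_mem hu) hu') h1
    have h3 : g⁻¹ * (u⁻¹ * u') * g ∈ Kω := by
      have := hω.conj_mem _ h2 g⁻¹
      rwa [inv_inv] at this
    have h4 : u' * g = u * g * (g⁻¹ * (u⁻¹ * u') * g) := by group
    rw [h4, hz1 _ _ h3]
  have hs : ∀ h : (W (m + 1)).map (QuotientGroup.mk' K),
      ∃ u ∈ W (m + 1), QuotientGroup.mk' K u = h := fun h => Subgroup.mem_map.mp h.2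
  choose s hsW hsπ using hs
  letI : Fintype ((W (m + 1)).map (QuotientGroup.mk' K)) := Fintype.ofFinite _
  letI : MulAction ((W (m + 1)).map (QuotientGroup.mk' K))
      ((W (m + 1)).map (QuotientGroup.mk' K) → B) :=
    { smul := fun η ψ h => ψ (h * η)
      one_smul := fun ψ => by
        funext h
        show ψ (h * 1) = ψ h
        rw [mul_one]
      mul_smul := fun a b ψ => by
        funext h
        show ψ (h * (a * b)) = ψ (h * a * b)
        rw [mul_assoc] }
  refine c_aux Ra Rt K Kω m hω hle hfin z hz2 (fun g h => z (s h * g)) ?_ ?_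
    (fun ψ => ψ 1) ?_
  · intro g κ hκ
    funext h
    rw [← mul_assoc]
    exact hz1 _ _ hκ
  · intro w hw g
    funext h
    show z (s h * (w * g)) = z (s (h * ⟨QuotientGroup.mk' K w, Subgroup.mem_map_of_mem _ hw⟩) * g)
    rw [← mul_assoc]
    apply hL _ (mul_mem (hsW h) hw) _ (hsW _)
    rw [hsπ, map_mul, hsπ]
    rfl
  · intro g
    show z (s 1 * g) = z g
    have := hL (s 1) (hsW 1) 1 (one_mem _) (by rw [hsπ]; simp) g
    rw [this, one_mul]

end Pool.Agent.Helper948.Dom.JI
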