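import Pool.Agent.Helper948.Dom.Defs

/- solved by helper104 -/


set_option autoImplicit false

namespace Pool.Agent.Helper948.Dom.JJ
open Pool.Agent.Helper948.Dom 




-- TARGET
/-- windows of radius `r` not showing a forbidden pattern -/
def Bd (I : Inp) (r : ℕ) : Type :=
  {b : {w : List (Fin 2 × Bool) // w.length ≤ r} → Fin I.1 //
    ∀ P ∈ I.2, ¬ ∀ q ∈ P, ∀ h : q.1.length ≤ r, ((b ⟨q.1, h⟩ : Fin I.1) : ℕ) = q.2}

/-- the nearest neighbour relation for the letter `i` -/
def RR (I : Inp) (r : ℕ) (i : Fin 2) (b b' : Bd I r) : Prop :=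
  ∀ (w : List (Fin 2 × Bool)) (h : w.length + 1 ≤ r),
    b'.1 ⟨(i, true) :: w, h⟩ = b.1 ⟨w, (Nat.le_succ _).trans h⟩ ∧
    b.1 ⟨(i, false) :: w, h⟩ = b'.1 ⟨w, (Nat.le_succ _).trans h⟩

theorem Bd_finite (I : Inp) (r : ℕ) : Finite (Bd I r) := by
  haveI h1 : Finite {w : List (Fin 2 × Bool) // w.length ≤ r} :=
    (List.finite_length_le (Fin 2 × Bool) r).to_subtype
  unfold Bd
  infer_instance

theorem mk_true (i : Fin 2) (w : List (Fin 2 × Bool)) :
    (FreeGroup.mk ((i, true) :: w) : F) = FreeGroup.of i * FreeGroup.mk w := rfl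

theorem mk_false (i : Fin 2) (w : List (Fin 2 × Bool)) :
    (FreeGroup.mk ((i, false) :: w) : F) = (FreeGroup.of i)⁻¹ * FreeGroup.mk w := rfl

theorem exists_bound (I : Inp) : ∃ r : ℕ, ∀ P ∈ I.2, ∀ q ∈ P, q.1.length ≤ r := by
  refine ⟨(I.2.flatten.map fun q => q.1.length).sum, fun P hP q hq => ?_⟩
  apply List.single_le_sum (fun _ _ => Nat.zero_le _)
  exact List.mem_map.2 ⟨q, List.mem_flatten.2 ⟨P, hP, hq⟩, rfl⟩

theorem conj_inv_mem {K : Subgroup F} (hK : K.Normal) (g k : F) (hk : k ∈ K) :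
    g * k⁻¹ * g⁻¹ ∈ K := hK.conj_mem _ (inv_mem hk) g

/-- Recoding of an arbitrary finite set of patterns by nearest neighbour conditions.
Proof: let `r` be a bound for the lengths of the words in the patterns of `I`, `Wd := {w : List (Fin 2 × Bool) // w.length ≤ r}`
(a finite type), `B := {b : Wd → Fin I.1 // no pattern of I.2 is matched: ∀ P ∈ I.2, ¬ ∀ q ∈ P, (b q.1 : ℕ) = q.2}`.
For a colouring `x` let `b g w := x (g * FreeGroup.mk w)` and `z u := b u⁻¹`.
`Ra b b'` should say (for `b = z u`, `b' = z (fa * u)`, so that with `g = (fa * u)⁻¹` we have `b' = b g`, `b = b (g * fa)`):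
`b' ((0,true) :: w) = b w` and `b ((0,false) :: w) = b' w` whenever `w.length + 1 ≤ r`; `Rt` the same with the letter `1`.
Conversely, from `z` define `x g := z g⁻¹ []`; by induction on the word `w` (of length `≤ r`), for all `g`,
`z g⁻¹ w = x (g * FreeGroup.mk w)`, using `Ra`/`Rt` at the points `u = (g * s)⁻¹` or `u = g⁻¹` for the first letter `s` of `w`
(`FreeGroup.mk [(0,true)] = fa`, `FreeGroup.mk [(0,false)] = fa⁻¹`).
`K`-invariance: `K` is normal, so invariance under right multiplication by `K` of `x` is equivalent to that of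
`u ↦ x u⁻¹`. -/
theorem recode (I : Inp) : ∃ (B : Type) (_ : Fintype B) (Ra Rt : B → B → Prop),
    ∀ K : Subgroup F, K.Normal → (Good I K ↔ NN Ra Rt K) := by
  classical
  obtain ⟨r, hr⟩ := exists_bound I
  haveI := Bd_finite I r
  refine ⟨Bd I r, Fintype.ofFinite _, RR I r 0, RR I r 1, fun K hK => ⟨?_, ?_⟩⟩
  · rintro ⟨x, hx1, hx2⟩
    have hprop : ∀ u : F, ∀ P ∈ I.2, ¬ ∀ q ∈ P, ∀ _ : q.1.length ≤ r,
        ((x (u⁻¹ * FreeGroup.mk q.1) : Fin I.1) : ℕ) = q.2 := by
      intro u P hP hall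
      exact hx2 u⁻¹ P hP fun q hq => hall q hq (hr P hP q hq)
    let z : F → Bd I r := fun u => ⟨fun w => x (u⁻¹ * FreeGroup.mk w.1), hprop u⟩
    have hz : ∀ u w h, (z u).1 ⟨w, h⟩ = x (u⁻¹ * FreeGroup.mk w) := fun u w h => rfl
    have hR : ∀ (i : Fin 2) (g : F), RR I r i (z g) (z (FreeGroup.of i * g)) := by
      intro i g w h
      rw [hz, hz, hz, hz, mk_true, mk_false]
      constructor
      · congr 1
        group
      · congr 1
        group
    refine ⟨z, ?_, fun g => ⟨hR 0 g, hR 1 g⟩⟩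
    intro g k hk
    apply Subtype.ext
    funext w
    show x ((g * k)⁻¹ * FreeGroup.mk w.1) = x (g⁻¹ * FreeGroup.mk w.1)
    have h1 := hx1 (g⁻¹ * FreeGroup.mk w.1)
      ((g⁻¹ * FreeGroup.mk w.1)⁻¹ * k⁻¹ * ((g⁻¹ * FreeGroup.mk w.1)⁻¹)⁻¹)
      (conj_inv_mem hK _ _ hk)
    rw [← h1]
    congr 1
    group
  · rintro ⟨z, hz1, hz2⟩
    have hR : ∀ (i : Fin 2) (g : F), RR I r i (z g) (z (FreeGroup.of i * g)) := by
      intro i g
      fin_cases i
      · exact (hz2 g).1
      · exact (hz2 g).2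
    let x : F → Fin I.1 := fun g => (z g⁻¹).1 ⟨[], Nat.zero_le r⟩
    have hx : ∀ g, x g = (z g⁻¹).1 ⟨[], Nat.zero_le r⟩ := fun g => rfl
    have key : ∀ (w : List (Fin 2 × Bool)) (h : w.length ≤ r) (g : F),
        (z g⁻¹).1 ⟨w, h⟩ = x (g * FreeGroup.mk w) := by
      intro w
      induction w with
      | nil =>
        intro h g
        have h1 : (FreeGroup.mk [] : F) = 1 := rfl
        rw [h1, mul_one]
      | cons a w ih =>
        intro h g
        obtain ⟨i, b⟩ := a
        cases b with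
        | false =>
          have h1 := (hR i g⁻¹ w h).2
          rw [h1, mk_false]
          have h2 := ih ((Nat.le_succ _).trans h) (g * (FreeGroup.of i)⁻¹)
          rw [mul_inv_rev, inv_inv] at h2
          rw [h2, mul_assoc]
        | true =>
          have h1 := (hR i (g * FreeGroup.of i)⁻¹ w h).1
          have h3 : FreeGroup.of i * (g * FreeGroup.of i)⁻¹ = g⁻¹ := by group
          rw [h3] at h1
          rw [h1, mk_true]
          have h2 := ih ((Nat.le_succ _).trans h) (g * FreeGroup.of i)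
          rw [h2, mul_assoc]
    refine ⟨x, ?_, ?_⟩
    · intro g k hk
      rw [hx, hx]
      have h1 := hz1 g⁻¹ (g * k⁻¹ * g⁻¹) (conj_inv_mem hK _ _ hk)
      have h2 : g⁻¹ * (g * k⁻¹ * g⁻¹) = (g * k)⁻¹ := by group
      rw [h2] at h1
      rw [h1]
    · intro g P hP hall
      apply (z g⁻¹).2 P hP
      intro q hq h
      rw [key q.1 h g]
      exact hall q hq

end Pool.Agent.Helper948.Dom.JJ
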