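import Pool.Agent.Helper948.Dom.Defs

/- solved by helper419 -/


set_option autoImplicit false

namespace Pool.Agent.Helper948.Dom.JK
open Pool.Agent.Helper948.Dom 




-- TARGET
/-- Compactness. Proof: `→` restrict `x` to words. `←`: for every `D` take a labelling `Y D` of the words of length
`≤ D`; `I.1 > 0`. In the compact space `List (Fin 2 × Bool) → Fin I.1` (Tychonoff, discrete factors) the sets
`C D := {Y | Y satisfies the conditions of NoBall for D}` are closed (each condition depends on finitely many coordinates),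
nonempty and decreasing, so there is a `Y` in all of them (`IsCompact.nonempty_iInter_of_directed_nonempty_isCompact_isClosed`
or `IsCompact.nonempty_iInter_of_sequence_nonempty_isCompact_isClosed`).  Then `x g := Y g.toWord` is as required:
`Y w = Y w'` whenever `(mk w)⁻¹ * mk w' ∈ K`, in particular `Y w` depends only on `mk w`. -/
theorem good_iff (I : Inp) (K : Subgroup F) : Good I K ↔ ∀ D, ¬ NoBall I K D := by
  constructor
  · rintro ⟨x, hx, hx'⟩ D hD
    apply hD
    refine ⟨fun w => ((x (FreeGroup.mk w) : Fin I.1) : ℕ), fun w _ => (x _).2, ?_, ?_⟩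
    · intro w w' _ _ h
      have h1 := hx (FreeGroup.mk w) _ h
      rw [mul_inv_cancel_left] at h1
      simp only [h1]
    · intro g _ P hP _ hall
      apply hx' (FreeGroup.mk g) P hP
      intro q hq
      have := hall q hq
      rw [FreeGroup.mul_mk]
      exact this
  · intro h
    have h' : ∀ D, ∃ Y : List (Fin 2 × Bool) → ℕ,
        (∀ w, w.length ≤ D → Y w < I.1) ∧
        (∀ w w', w.length ≤ D → w'.length ≤ D →
          (FreeGroup.mk w)⁻¹ * FreeGroup.mk w' ∈ K → Y w = Y w') ∧
        ∀ g, g.length ≤ D → ∀ P ∈ I.2, (∀ q ∈ P, (g ++ q.1).length ≤ D) →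
          ¬ ∀ q ∈ P, Y (g ++ q.1) = q.2 := by
      intro D
      exact not_not.mp (h D)
    have hpos : 0 < I.1 := by
      obtain ⟨Y, hY, _⟩ := h' 0
      exact lt_of_le_of_lt (Nat.zero_le _) (hY [] (by simp))
    let C : ℕ → Set (List (Fin 2 × Bool) → Fin I.1) := fun D =>
      {Y | ∀ w w' : List (Fin 2 × Bool), w.length ≤ D → w'.length ≤ D →
          (FreeGroup.mk w)⁻¹ * FreeGroup.mk w' ∈ K → Y w = Y w'} ∩
      {Y | ∀ g : List (Fin 2 × Bool), g.length ≤ D → ∀ P ∈ I.2, (∀ q ∈ P, (g ++ q.1).length ≤ D) →
          ∃ q ∈ P, ((Y (g ++ q.1) : Fin I.1) : ℕ) ≠ q.2}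
    have hanti : ∀ D, C (D + 1) ⊆ C D := by
      rintro D Y ⟨h1, h2⟩
      refine ⟨fun w w' hw hw' hk => h1 w w' (by omega) (by omega) hk, ?_⟩
      intro g hg P hP hq
      exact h2 g (by omega) P hP (fun q hqP => le_trans (hq q hqP) (Nat.le_succ _))
    have hne : ∀ D, (C D).Nonempty := by
      intro D
      obtain ⟨Y, hY, hY2, hY3⟩ := h' D
      refine ⟨fun w => if hw : Y w < I.1 then ⟨Y w, hw⟩ else ⟨0, hpos⟩, ?_, ?_⟩
      · intro w w' hw hw' hk
        have := hY2 w w' hw hw' hk
        simp only [this]
      · intro g hg P hP hq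
        by_contra hcon
        push Not at hcon
        apply hY3 g hg P hP hq
        intro q hqP
        have h1 := hcon q hqP
        have h2 : Y (g ++ q.1) < I.1 := hY _ (hq q hqP)
        simp only [h2, dif_pos] at h1
        exact h1
    have hcl : ∀ D, IsClosed (C D) := by
      intro D
      apply IsClosed.inter
      · simp only [Set.ofPred_forall]
        refine isClosed_iInter fun w => isClosed_iInter fun w' => isClosed_iInter fun _ =>
          isClosed_iInter fun _ => isClosed_iInter fun _ => ?_
        exact isClosed_eq (continuous_apply w) (continuous_apply w')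
      · simp only [Set.ofPred_forall]
        refine isClosed_iInter fun g => isClosed_iInter fun _ => isClosed_iInter fun P =>
          isClosed_iInter fun _ => isClosed_iInter fun _ => ?_
        have : {Y : List (Fin 2 × Bool) → Fin I.1 | ∃ q ∈ P, ((Y (g ++ q.1) : Fin I.1) : ℕ) ≠ q.2} =
            ⋃ q ∈ {q | q ∈ P}, {Y : List (Fin 2 × Bool) → Fin I.1 | ((Y (g ++ q.1) : Fin I.1) : ℕ) ≠ q.2} := by
          ext Y
          simp
        rw [this]
        apply (List.finite_toSet P).isClosed_biUnion
        intro q _
        have hc : Continuous (fun Y : List (Fin 2 × Bool) → Fin I.1 => Y (g ++ q.1)) := continuous_apply _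
        exact (isClosed_discrete {a : Fin I.1 | (a : ℕ) ≠ q.2}).preimage hc
    have hco : IsCompact (C 0) := (hcl 0).isCompact
    obtain ⟨Y, hY⟩ := IsCompact.nonempty_iInter_of_sequence_nonempty_isCompact_isClosed C hanti hne hco hcl
    have hY1 : ∀ w w' : List (Fin 2 × Bool), (FreeGroup.mk w)⁻¹ * FreeGroup.mk w' ∈ K → Y w = Y w' := by
      intro w w' hk
      have := Set.mem_iInter.mp hY (w.length + w'.length)
      exact this.1 w w' (by omega) (by omega) hk
    refine ⟨fun g => Y g.toWord, ?_, ?_⟩
    · intro g k hk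
      apply hY1
      rw [FreeGroup.mk_toWord, FreeGroup.mk_toWord]
      have : (g * k)⁻¹ * g = k⁻¹ := by group
      rw [this]
      exact inv_mem hk
    · intro g P hP hall
      have hD := Set.mem_iInter.mp hY (g.toWord.length + (P.map (fun q => q.1.length)).sum)
      obtain ⟨q, hq, hne⟩ := hD.2 g.toWord (by omega) P hP (by
        intro q hq
        rw [List.length_append]
        have : q.1.length ≤ (P.map (fun q => q.1.length)).sum :=
          List.le_sum_of_mem (List.mem_map.mpr ⟨q, hq, rfl⟩)
        omega)
      apply hne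
      rw [← hall q hq]
      congr 1
      apply hY1
      rw [FreeGroup.mk_toWord, ← FreeGroup.mul_mk, FreeGroup.mk_toWord, inv_mul_cancel]
      exact one_mem K

end Pool.Agent.Helper948.Dom.JK
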