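import Pool.Agent.Helper948.Dom.Defs
import Pool.Agent.Helper948.Dom.JC
import Pool.Agent.Helper948.Dom.JD
import Pool.Agent.Helper948.Dom.JI
import Pool.Agent.Helper948.Dom.JJ
import Pool.Agent.Helper948.Dom.JK

/- solved by helper969 -/


set_option autoImplicit false

namespace Pool.Agent.Helper948.Dom.JL
open Pool.Agent.Helper948.Dom Pool.Agent.Helper948.Dom.JC Pool.Agent.Helper948.Dom.JD Pool.Agent.Helper948.Dom.JI Pool.Agent.Helper948.Dom.JJ Pool.Agent.Helper948.Dom.JK






-- TARGET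
/-- The dichotomy: every input is either realised periodically or killed for good.
Proof. `chain_exists` gives a chain `Kc` starting from `K`; let `Kω := ⨅ j, Kc j`, with the properties of `limit_props`
(`Kc 0 = K`).
Case `Good I Kω`: by `recode` `NN Ra Rt Kω`, by `nn_ext` there is `K1` with `FN K1`, `Ext K m K1`, `NN Ra Rt K1`, hence `Good I K1`;
`ND K1 m` by `ND.mono`; `step_ext` gives `K2` with `Ext K1 m K2`, `ND K2 (m+1)`; take `K' := K2`, `m' := m+1`, `Good.mono`.
Case `¬ Good I Kω`: by `good_iff` there is `D` with `NoBall I Kω D`; take `j := 2*D+1`, `K' := Kc j`, `m' := m + j`: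
`NoBall I (Kc j) D` as `Kω ≤ Kc j` (a labelling compatible with `Kc j` is compatible with `Kω`), and
`Ext K m (Kc j)`: `Kc j ≤ Kc 0` and elements of `W (m+1) ∩ K` lie in `Kω`. -/
theorem dich (K : Subgroup F) (m : ℕ) (hK : FN K) (hm : ND K m) (I : Inp) :
    ∃ (K' : Subgroup F) (m' : ℕ), m < m' ∧ FN K' ∧ Ext K m K' ∧ ND K' m' ∧
      (Good I K' ∨ ∃ D, 2 * D + 1 ≤ m' ∧ NoBall I K' D) := by
  obtain ⟨Kc, hK0, hch⟩ := chain_exists K m hK hm
  obtain ⟨hnor, hle, hrel, hfin⟩ := limit_props Kc m (fun j => ⟨(hch j).1, (hch j).2.2⟩)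
  by_cases hg : Good I (⨅ j, Kc j)
  · obtain ⟨B, hB, Ra, Rt, hrec⟩ := recode I
    haveI := hB
    have hNN : NN Ra Rt (⨅ j, Kc j) := (hrec _ hnor).1 hg
    obtain ⟨K1, hK1, hext1, hNN1⟩ := nn_ext Ra Rt K (⨅ j, Kc j) m hK hnor
      (by have := hle 0; rwa [hK0] at this)
      (by intro w hw hwK
          have := hrel 0 w (by simpa using hw) (by rwa [hK0])
          exact this)
      hfin hNN
    have hG1 : Good I K1 := (hrec K1 hK1.normal).2 hNN1
    have hND1 : ND K1 m := ND.mono hm hext1.1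
    obtain ⟨K2, hK2, hext2, hND2⟩ := step_ext K1 m hK1 hND1
    refine ⟨K2, m + 1, Nat.lt_succ_self m, hK2, ⟨hext2.1.trans hext1.1, ?_⟩, hND2, Or.inl ?_⟩
    · intro w hw hwK
      exact hext2.2 w hw (hext1.2 w hw hwK)
    · exact hG1.mono hext2.1
  · have h1 : ∃ D, NoBall I (⨅ j, Kc j) D := by
      by_contra hcon
      push_neg at hcon
      exact hg ((good_iff I _).2 hcon)
    obtain ⟨D, hD⟩ := h1
    refine ⟨Kc (2 * D + 1), m + (2 * D + 1), by omega, (hch _).1, ⟨?_, ?_⟩, (hch _).2.1,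
      Or.inr ⟨D, by omega, ?_⟩⟩
    · have hanti : ∀ j, Kc j ≤ Kc 0 := by
        intro j
        induction j with
        | zero => exact le_refl _
        | succ j ih => exact ((hch j).2.2.1).trans ih
      rw [← hK0]
      exact hanti _
    · intro w hw hwK
      have := hrel 0 w (by simpa using hw) (by rwa [hK0])
      exact hle _ this
    · rintro ⟨Y, hY1, hY2, hY3⟩
      exact hD ⟨Y, hY1, fun w w' hw hw' h => hY2 w w' hw hw' (hle _ h), hY3⟩

end Pool.Agent.Helper948.Dom.JL
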