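import Pool.Agent.Helper948.Dom.Defs

/- solved by helper214 -/


set_option autoImplicit false

namespace Pool.Agent.Helper948.Dom.JM
open Pool.Agent.Helper948.Dom 




-- TARGET

theorem ball_dec (D : ℕ) (w : List (Fin 2 × Bool)) (hw : w.length ≤ D) :
    ∃ v ∈ W (2 * D + 1), ∃ k : ℕ, k ≤ D + w.length ∧ D ≤ k + w.length ∧
      ft ^ D * FreeGroup.mk w = v * ft ^ k := by
  induction w using List.reverseRecOn with
  | nil => 
    refine ⟨1, one_mem _, D, by simp, by simp, ?_⟩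
    rw [← FreeGroup.one_eq_mk, mul_one, one_mul]
  | append_singleton w x ih =>
    rw [List.length_append, List.length_singleton] at hw
    obtain ⟨v, hv, k, hk1, hk2, hk3⟩ := ih (by omega)
    have hsplit : ft ^ D * FreeGroup.mk (w ++ [x]) = v * ft ^ k * FreeGroup.mk [x] := by
      rw [← FreeGroup.mul_mk, ← mul_assoc, hk3]
    rw [hsplit, List.length_append, List.length_singleton]
    obtain ⟨i, b⟩ := x
    have hA : A k ∈ W (2 * D + 1) := A_mem (by omega)
    have hfa : FreeGroup.mk [((0 : Fin 2), true)] = fa := rfl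
    have hft : FreeGroup.mk [((1 : Fin 2), true)] = ft := rfl
    have hfa' : FreeGroup.mk [((0 : Fin 2), false)] = fa⁻¹ := by
      rw [← hfa, FreeGroup.inv_mk]; rfl
    have hft' : FreeGroup.mk [((1 : Fin 2), false)] = ft⁻¹ := by
      rw [← hft, FreeGroup.inv_mk]; rfl
    fin_cases i <;> cases b
    · refine ⟨v * (A k)⁻¹, mul_mem hv (inv_mem hA), k, by omega, by omega, ?_⟩
      show v * ft ^ k * FreeGroup.mk [((0 : Fin 2), false)] = _
      rw [hfa', A]
      group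
    · refine ⟨v * A k, mul_mem hv hA, k, by omega, by omega, ?_⟩
      show v * ft ^ k * FreeGroup.mk [((0 : Fin 2), true)] = _
      rw [hfa, A]
      group
    · refine ⟨v, hv, k - 1, by omega, by omega, ?_⟩
      show v * ft ^ k * FreeGroup.mk [((1 : Fin 2), false)] = _
      rw [hft']
      obtain ⟨l, rfl⟩ : ∃ l, k = l + 1 := ⟨k - 1, by omega⟩
      rw [Nat.add_sub_cancel, pow_succ]
      group
    · refine ⟨v, hv, k + 1, by omega, by omega, ?_⟩
      show v * ft ^ k * FreeGroup.mk [((1 : Fin 2), true)] = _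
      rw [hft, pow_succ]
      group

theorem ball_no (K : Subgroup F) (hK : K.Normal) (m D : ℕ)
    (hND : ND K m) (hD : 2 * D + 1 ≤ m) (u : F) (hu : u ∈ W (2 * D + 1)) (f : ℕ)
    (hf1 : 1 ≤ f) (hf2 : f ≤ 2 * D) (h : u * ft ^ f ∈ K) : False := by
  have hum : u ∈ W m := W_mono hD hu
  have hAm : A (m - f) ∈ W m := A_mem (by omega)
  refine hND (u⁻¹ * A (m - f) * u) (mul_mem (mul_mem (inv_mem hum) hAm) hum) ?_
  have e1 : A m = ft ^ f * A (m - f) * (ft ^ f)⁻¹ := by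
    obtain ⟨l, rfl⟩ : ∃ l, m = f + l := ⟨m - f, by omega⟩
    rw [Nat.add_sub_cancel_left, A, A, pow_add]
    group
  have e2 : A m * (u⁻¹ * A (m - f) * u)⁻¹ =
      u⁻¹ * ((u * ft ^ f) * (A (m - f) * (u * ft ^ f)⁻¹ * (A (m - f))⁻¹)) * (u⁻¹)⁻¹ := by
    rw [e1]
    group
  rw [e2]
  exact hK.conj_mem _ (mul_mem h (hK.conj_mem _ (inv_mem h) _)) _

/-- Equality of short words modulo `K` is permanent.
Proof: every word `w` of length `≤ D` satisfies `ft^D * FreeGroup.mk w = v * ft^(D + e)` (integer exponents `ft^(D+e : ℤ)`)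
with `v ∈ W (2*D+1)` and `|e| ≤ D` (`e` = exponent sum of `t`; induction on `w` from the right end, more generally for all
prefixes: `ft^j * fa * ft^(-j) = A j`, `0 ≤ j ≤ 2D`).  So for `w, w'` of length `≤ D`
`ft^D * mk w = v * ft^(D+e)`, `ft^D * mk w' = v' * ft^(D+e')`, and `(mk w)⁻¹ * mk w' = ft^(-(D+e)) * v⁻¹ * v' * ft^(D+e')`.
By normality this is in `K` iff `u * ft^(e'-e) ∈ K` with `u := v⁻¹ * v' ∈ W (2*D+1)`; the same for `Kinf`.
If `e = e'`: `u ∈ W (2D+1) ∩ K ≤ W (m+1) ∩ K ≤ Kinf`.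
If `f := e' - e > 0` (`f ≤ 2D`): modulo `K`, `ft^f = u⁻¹`, so `A m = ft^f * A (m-f) * ft^(-f) = u⁻¹ * A (m-f) * u` modulo `K`,
which is in `W m` (as `m - f < m`, `2D+1 ≤ m`), contradicting `ND K m`.  If `f < 0` the same with `ft^(-f) = u` modulo `K`. -/
theorem ball_eq (K Kinf : Subgroup F) (hK : K.Normal) (hinf : Kinf.Normal) (m D : ℕ)
    (hND : ND K m) (hD : 2 * D + 1 ≤ m) (hrel : ∀ w ∈ W (m + 1), w ∈ K → w ∈ Kinf)
    (w w' : List (Fin 2 × Bool)) (hw : w.length ≤ D) (hw' : w'.length ≤ D)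
    (h : (FreeGroup.mk w)⁻¹ * FreeGroup.mk w' ∈ K) :
    (FreeGroup.mk w)⁻¹ * FreeGroup.mk w' ∈ Kinf := by
  obtain ⟨v, hv, k, hk1, hk2, hk3⟩ := ball_dec D w hw
  obtain ⟨v', hv', k', hk1', hk2', hk3'⟩ := ball_dec D w' hw'
  have e1 : FreeGroup.mk w = (ft ^ D)⁻¹ * (v * ft ^ k) := by
    rw [← hk3]; group
  have e2 : FreeGroup.mk w' = (ft ^ D)⁻¹ * (v' * ft ^ k') := by
    rw [← hk3']; group
  rcases lt_trichotomy k k' with hlt | heq | hgt
  · exfalso
    refine ball_no K hK m D hND hD (v⁻¹ * v') (mul_mem (inv_mem hv) hv') (k' - k) (by omega)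
      (by omega) ?_
    have e3 : v⁻¹ * v' * ft ^ (k' - k) =
        ft ^ k * ((FreeGroup.mk w)⁻¹ * FreeGroup.mk w') * (ft ^ k)⁻¹ := by
      obtain ⟨l, rfl⟩ : ∃ l, k' = l + k := ⟨k' - k, by omega⟩
      rw [e1, e2, Nat.add_sub_cancel, pow_add]
      group
    rw [e3]
    exact hK.conj_mem _ h _
  · subst heq
    have e3 : v⁻¹ * v' = ft ^ k * ((FreeGroup.mk w)⁻¹ * FreeGroup.mk w') * (ft ^ k)⁻¹ := by
      rw [e1, e2]
      group
    have h1 : v⁻¹ * v' ∈ K := by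
      rw [e3]; exact hK.conj_mem _ h _
    have h2 : v⁻¹ * v' ∈ Kinf :=
      hrel _ (W_mono (by omega) (mul_mem (inv_mem hv) hv')) h1
    have e4 : (FreeGroup.mk w)⁻¹ * FreeGroup.mk w' =
        (ft ^ k)⁻¹ * (v⁻¹ * v') * ((ft ^ k)⁻¹)⁻¹ := by
      rw [e1, e2]
      group
    rw [e4]
    exact hinf.conj_mem _ h2 _
  · exfalso
    refine ball_no K hK m D hND hD (v'⁻¹ * v) (mul_mem (inv_mem hv') hv) (k - k') (by omega)
      (by omega) ?_
    have e3 : v'⁻¹ * v * ft ^ (k - k') =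
        ft ^ k' * ((FreeGroup.mk w)⁻¹ * FreeGroup.mk w')⁻¹ * (ft ^ k')⁻¹ := by
      obtain ⟨l, rfl⟩ : ∃ l, k = l + k' := ⟨k - k', by omega⟩
      rw [e1, e2, Nat.add_sub_cancel, pow_add]
      group
    rw [e3]
    exact hK.conj_mem _ (inv_mem h) _

/-- An input killed at `(K, m)` is killed for all later groups. Proof: a colouring `x` for `Kinf` gives `Y w := x (mk w)`,
compatible with equality mod `K` by `ball_eq`. -/
theorem kill_sound (K Kinf : Subgroup F) (hK : K.Normal) (hinf : Kinf.Normal) (m D : ℕ)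
    (hND : ND K m) (hD : 2 * D + 1 ≤ m) (hrel : ∀ w ∈ W (m + 1), w ∈ K → w ∈ Kinf) (I : Inp)
    (h : NoBall I K D) : ¬ Good I Kinf := by
  rintro ⟨x, hx, hx'⟩
  refine h ⟨fun w => (x (FreeGroup.mk w) : ℕ), fun w _ => (x (FreeGroup.mk w)).is_lt, ?_, ?_⟩
  · intro w w' hw hw' hk
    have h1 := ball_eq K Kinf hK hinf m D hND hD hrel w w' hw hw' hk
    have h2 := hx (FreeGroup.mk w) _ h1
    rw [mul_inv_cancel_left] at h2
    show (x (FreeGroup.mk w) : ℕ) = (x (FreeGroup.mk w') : ℕ)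
    rw [h2]
  · intro g _ P hP _ hall
    refine hx' (FreeGroup.mk g) P hP ?_
    intro q hq
    have h3 := hall q hq
    simp only [← FreeGroup.mul_mk] at h3
    exact h3

end Pool.Agent.Helper948.Dom.JM
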