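import Pool.Agent.Helper948.Dom.Defs

/- solved by helper546 -/


set_option autoImplicit false

namespace Pool.Agent.Helper948.Dom.JN
open Pool.Agent.Helper948.Dom 




-- TARGET
theorem free_no_torsion {G : Type} [Group G] [IsFreeGroup G] (x : G) (k : ℕ) (hk : k ≠ 0)
    (hx : x ^ k = 1) : x = 1 := by
  have h1 : (IsFreeGroup.toFreeGroup G x) ^ k = 1 := by
    rw [← map_pow, hx, map_one]
  have h2 : IsFreeGroup.toFreeGroup G x = 1 := by
    have := pow_left_injective hk (M := FreeGroup (IsFreeGroup.Generators G))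
    apply this
    simp only [one_pow]
    exact h1
  exact (MulEquiv.map_eq_one_iff _).mp h2

/-- The limit group is not virtually free.
Proof: suppose `H` is a free subgroup of finite index in `Γ := F ⧸ ⨅ n, Kc n`. Take `n` with `mc n + 1 > H.index`
(`mc` is strictly increasing). The images of `A 0, ..., A (mc n)` in `Γ` are pairwise distinct: otherwise
`A i * (A j)⁻¹ ∈ Kc n` with `i < j ≤ mc n`; conjugating by `ft ^ (mc n - j)`: `A (i + mc n - j) * (A (mc n))⁻¹ ∈ Kc n`, and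
`A (i + mc n - j) ∈ W (mc n)`, contradicting `ND (Kc n) (mc n)`. By pigeonhole two of them are in the same left coset of `H`, so
`H` contains an element `≠ 1` of the image `Q` of `W (mc n + 1)` in `Γ`.  `Q` is finite: `W (mc n + 1) ∩ Kc n ≤ ⨅ Kc`
(`hrel`) so `Q` is a quotient of `W (mc n + 1) / (W (mc n + 1) ∩ Kc n)`.  A free group has no nontrivial element of finite
order: contradiction. -/
theorem not_virt_free (Kc : ℕ → Subgroup F) (mc : ℕ → ℕ) (hmc : StrictMono mc)
    (hFN : ∀ n, FN (Kc n)) (hND : ∀ n, ND (Kc n) (mc n)) [hn : (⨅ n, Kc n).Normal]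
    (hrel : ∀ n, ∀ w ∈ W (mc n + 1), w ∈ Kc n → w ∈ ⨅ n, Kc n) :
    ¬ ∃ H : Subgroup (F ⧸ (⨅ n, Kc n)), H.FiniteIndex ∧ IsFreeGroup H := by
  rintro ⟨H, hfin, hfree⟩
  -- choose n
  obtain ⟨n, hn'⟩ : ∃ n, H.index < mc n + 1 := ⟨H.index, by
    have := hmc.id_le H.index
    simp only [id] at this
    omega⟩
  have hK : ∀ x ∈ (⨅ n, Kc n), x ∈ Kc n := fun x hx => (Subgroup.mem_iInf.mp hx) n
  haveI : (Kc n).Normal := (hFN n).normal
  haveI : (Kc n).FiniteIndex := (hFN n).fin
  -- pigeonhole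
  haveI : Finite ((F ⧸ (⨅ n, Kc n)) ⧸ H) := inferInstance
  haveI := Fintype.ofFinite ((F ⧸ (⨅ n, Kc n)) ⧸ H)
  have hcard : Fintype.card ((F ⧸ (⨅ n, Kc n)) ⧸ H) < Fintype.card (Fin (mc n + 1)) := by
    rw [Fintype.card_fin, ← Nat.card_eq_fintype_card]
    exact hn'
  obtain ⟨i, j, hij, hEq⟩ := Fintype.exists_ne_map_eq_of_card_lt
    (fun i : Fin (mc n + 1) => (QuotientGroup.mk (QuotientGroup.mk (A i) : F ⧸ (⨅ n, Kc n)) :
      (F ⧸ (⨅ n, Kc n)) ⧸ H)) hcard
  have main : ∀ i j : Fin (mc n + 1), (i : ℕ) < j →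
      (QuotientGroup.mk (QuotientGroup.mk (A i) : F ⧸ (⨅ n, Kc n)) :
      (F ⧸ (⨅ n, Kc n)) ⧸ H) = QuotientGroup.mk (QuotientGroup.mk (A j) : F ⧸ (⨅ n, Kc n)) →
      False := by
    intro i j hlt hE
    rw [QuotientGroup.eq] at hE
    set w : F := (A i)⁻¹ * A j with hw
    have hwH : (QuotientGroup.mk w : F ⧸ (⨅ n, Kc n)) ∈ H := by
      rw [hw, QuotientGroup.mk_mul, QuotientGroup.mk_inv]
      exact hE
    have hwW : w ∈ W (mc n + 1) := mul_mem (inv_mem (A_mem i.2)) (A_mem j.2)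
    -- torsion
    have htor : w ^ (Kc n).index ∈ (⨅ n, Kc n) :=
      hrel n _ (pow_mem hwW _) (Subgroup.pow_index_mem (Kc n) w)
    have hidx : (Kc n).index ≠ 0 := Subgroup.FiniteIndex.index_ne_zero
    have h1 : (⟨QuotientGroup.mk w, hwH⟩ : H) ^ (Kc n).index = 1 := by
      apply Subtype.ext
      simp only [Subgroup.coe_pow, Subgroup.coe_one]
      rw [← QuotientGroup.mk_pow]
      exact (QuotientGroup.eq_one_iff _).mpr htor
    have h2 := free_no_torsion _ _ hidx h1
    have h3 : (QuotientGroup.mk w : F ⧸ (⨅ n, Kc n)) = 1 := congrArg Subtype.val h2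
    have h4 : w ∈ (⨅ n, Kc n) := (QuotientGroup.eq_one_iff _).mp h3
    have h5 : w ∈ Kc n := hK _ h4
    -- conjugate
    have hj : (j : ℕ) ≤ mc n := by have := j.2; omega
    have hconj : ∀ m k : ℕ, ft ^ m * A k * (ft ^ m)⁻¹ = A (k + m) := by
      intro m k
      unfold A
      rw [pow_add, (Commute.refl ft).pow_pow k m]
      group
    have h6 : A j * (A i)⁻¹ ∈ Kc n := by
      have := (inferInstance : (Kc n).Normal).conj_mem w h5 (A i)
      rw [hw] at this
      simpa [mul_assoc] using this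
    have h7 := (inferInstance : (Kc n).Normal).conj_mem _ h6 (ft ^ (mc n - j))
    have h8 : ft ^ (mc n - j) * (A j * (A i)⁻¹) * (ft ^ (mc n - j))⁻¹ =
        A (mc n) * (A (i + (mc n - j)))⁻¹ := by
      have e1 := hconj (mc n - j) j
      have e2 := hconj (mc n - j) i
      rw [show (j : ℕ) + (mc n - j) = mc n by omega] at e1
      rw [← e1, ← e2]
      group
    rw [h8] at h7
    exact hND n _ (A_mem (by omega)) h7
  rcases lt_or_gt_of_ne (fun h => hij (Fin.ext h) : (i : ℕ) ≠ j) with h | h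
  · exact main i j h hEq
  · exact main j i h hEq.symm

end Pool.Agent.Helper948.Dom.JN
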