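import Pool.Agent.Helper948.Dom.Code

/- solved by helper500 -/


set_option autoImplicit false

namespace Pool.Agent.Helper948.Dom.KB
open Pool.Agent.Helper948.Dom 






-- TARGET
/-- group element of a letter -/
def ec_gl (j : ℕ) : F := if j = 0 then fa else if j = 1 then fa⁻¹ else if j = 2 then ft else ft⁻¹

theorem ec_gl_mul (j : ℕ) (hj : j < 4) : ec_gl j * ec_gl (linv j) = 1 := by
  interval_cases j <;> simp [ec_gl, linv]

theorem ec_linv_lt (j : ℕ) (hj : j < 4) : linv j < 4 := by
  interval_cases j <;> simp [linv]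

theorem ec_lcode_lt (s : Fin 2 × Bool) : lcode s < 4 := by
  obtain ⟨i, b⟩ := s
  fin_cases i <;> cases b <;> simp [lcode]

theorem ec_mk_letter (s : Fin 2 × Bool) : FreeGroup.mk [s] = ec_gl (lcode s) := by
  obtain ⟨i, b⟩ := s
  fin_cases i <;> cases b <;> simp [ec_gl, lcode, fa, ft, FreeGroup.of, FreeGroup.inv_mk, FreeGroup.invRev]

open Classical in
/-- action on the enlarged set -/
noncomputable def ec_act (N : ℕ) (T : List (List ℕ)) {Q : Type} [Group Q] (π : F →* Q) (M : ℕ) (e : Q ≃ Fin M)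
    (j v : ℕ) : ℕ :=
  if v < N then step T j v else
    if h : v - N < M then N + (e (e.symm ⟨v - N, h⟩ * π (ec_gl j)) : ℕ) else 0

theorem ec_act_old (N : ℕ) (T : List (List ℕ)) {Q : Type} [Group Q] (π : F →* Q) (M : ℕ) (e : Q ≃ Fin M)
    (j v : ℕ) (hv : v < N) : ec_act N T π M e j v = step T j v := by
  simp [ec_act, hv]

theorem ec_act_new (N : ℕ) (T : List (List ℕ)) {Q : Type} [Group Q] (π : F →* Q) (M : ℕ) (e : Q ≃ Fin M)
    (j : ℕ) (q : Q) : ec_act N T π M e j (N + (e q : ℕ)) = N + (e (q * π (ec_gl j)) : ℕ) := by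
  have h1 : ¬ (N + (e q : ℕ) < N) := by omega
  have h2 : N + (e q : ℕ) - N = (e q : ℕ) := by omega
  have h3 : N + (e q : ℕ) - N < M := by rw [h2]; exact (e q).2
  have h4 : (⟨N + (e q : ℕ) - N, h3⟩ : Fin M) = e q := Fin.ext h2
  simp only [ec_act, h1, if_false, h3, dif_pos]
  rw [h4, Equiv.symm_apply_apply]

/-- the enlarged tables -/
noncomputable def ec_T (N : ℕ) (T : List (List ℕ)) {Q : Type} [Group Q] (π : F →* Q) (M : ℕ) (e : Q ≃ Fin M) :
    List (List ℕ) :=
  (List.range 4).map (fun j => (List.range (N + M)).map (ec_act N T π M e j))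

theorem ec_step (N : ℕ) (T : List (List ℕ)) {Q : Type} [Group Q] (π : F →* Q) (M : ℕ) (e : Q ≃ Fin M)
    (j v : ℕ) (hj : j < 4) (hv : v < N + M) :
    step (ec_T N T π M e) j v = ec_act N T π M e j v := by
  have h1 : (ec_T N T π M e).getD j [] = (List.range (N + M)).map (ec_act N T π M e j) := by
    unfold ec_T
    have hl : j < (List.map (fun j => List.map (ec_act N T π M e j) (List.range (N + M))) (List.range 4)).length := by
      simpa using hj
    rw [List.getD_eq_getElem _ _ hl, List.getElem_map, List.getElem_range]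
  have hl2 : v < ((List.range (N + M)).map (ec_act N T π M e j)).length := by
    simpa using hv
  unfold step
  rw [h1, List.getD_eq_getElem _ _ hl2, List.getElem_map, List.getElem_range]

theorem ec_walk_cons (T : List (List ℕ)) (v : ℕ) (s : Fin 2 × Bool) (w : List (Fin 2 × Bool)) :
    walk T v (enc (s :: w)) = walk T (step T (lcode s) v) (enc w) := rfl

theorem ec_walk_old (N : ℕ) (T : List (List ℕ)) (hT : Valid N T) {Q : Type} [Group Q] (π : F →* Q) (M : ℕ)
    (e : Q ≃ Fin M) (w : List (Fin 2 × Bool)) :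
    ∀ v < N, walk (ec_T N T π M e) v (enc w) = walk T v (enc w) := by
  induction w with
  | nil => intro v _; rfl
  | cons s w ih =>
    intro v hv
    rw [ec_walk_cons, ec_walk_cons, ec_step N T π M e _ _ (ec_lcode_lt s) (by omega), ec_act_old _ _ _ _ _ _ _ hv]
    exact ih _ (hT _ (ec_lcode_lt s) v hv).1

theorem ec_walk_new (N : ℕ) (T : List (List ℕ)) {Q : Type} [Group Q] (π : F →* Q) (M : ℕ)
    (e : Q ≃ Fin M) (w : List (Fin 2 × Bool)) :
    ∀ q : Q, walk (ec_T N T π M e) (N + (e q : ℕ)) (enc w) = N + (e (q * π (FreeGroup.mk w)) : ℕ) := by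
  induction w with
  | nil =>
    intro q
    have h1 : (FreeGroup.mk ([] : List (Fin 2 × Bool)) : F) = 1 := rfl
    rw [h1, map_one, mul_one]
    rfl
  | cons s w ih =>
    intro q
    have h1 : (FreeGroup.mk (s :: w) : F) = FreeGroup.mk [s] * FreeGroup.mk w := by
      rw [FreeGroup.mul_mk]; rfl
    rw [ec_walk_cons, ec_step N T π M e _ _ (ec_lcode_lt s) (by have := (e q).2; omega), ec_act_new, ih, h1,
      map_mul π, ec_mk_letter, mul_assoc]

/-- Realisation of a smaller normal subgroup by larger tables, containing a regular orbit.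
Proof: let `e : F ⧸ K' ≃ Fin M` (finite), `N' := N + M`, and for `v = N + i`, `v·s := N + e (e.symm i * s)` (right multiplication in
the group `F ⧸ K'`), for `v < N` the old action; write the four tables as lists
(`List.ofFn`/`(List.range N').map`).  `K'` acts trivially on both parts (as `K' ≤ K0`), and the point `u := N + e 1` is regular:
`walk T' u (enc w) = N + e [mk w]`, so it equals `u` iff `mk w ∈ K'`. -/
theorem exists_code (N : ℕ) (T : List (List ℕ)) (hv : Valid N T) (K0 K' : Subgroup F)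
    (h0 : IsKer K0 N T) (hK' : FN K') (hle : K' ≤ K0) :
    ∃ (N' : ℕ) (T' : List (List ℕ)), Valid N' T' ∧ N ≤ N' ∧
      (∀ v < N, ∀ j < 4, step T' j v = step T j v) ∧ IsKer K' N' T' ∧
      ∃ u < N', ∀ w : List (Fin 2 × Bool), walk T' u (enc w) = u → FreeGroup.mk w ∈ K' := by
  have _i1 := hK'.normal
  have _i1 := hK'.fin
  have : Finite (F ⧸ K') := Subgroup.finite_quotient_of_finiteIndex
  let M := Nat.card (F ⧸ K')
  let e : (F ⧸ K') ≃ Fin M := Finite.equivFin (F ⧸ K')
  let π : F →* (F ⧸ K') := QuotientGroup.mk' K'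
  have hπ : ∀ g : F, π g = 1 ↔ g ∈ K' := fun g => QuotientGroup.eq_one_iff g
  refine ⟨N + M, ec_T N T π M e, ?_, Nat.le_add_right _ _, ?_, ?_, N + (e 1 : ℕ), ?_, ?_⟩
  · intro j hj v hv'
    rw [ec_step N T π M e j v hj hv']
    by_cases hvN : v < N
    · rw [ec_act_old _ _ _ _ _ _ _ hvN]
      obtain ⟨h1, h2⟩ := hv j hj v hvN
      refine ⟨by omega, ?_⟩
      rw [ec_step N T π M e _ _ (ec_linv_lt j hj) (by omega), ec_act_old _ _ _ _ _ _ _ h1]
      exact h2
    · obtain ⟨q, hq⟩ : ∃ q, v = N + (e q : ℕ) := by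
        refine ⟨e.symm ⟨v - N, by omega⟩, ?_⟩
        rw [Equiv.apply_symm_apply]
        simp only
        omega
      rw [hq, ec_act_new]
      have h3 := (e (q * π (ec_gl j))).2
      refine ⟨by omega, ?_⟩
      rw [ec_step N T π M e _ _ (ec_linv_lt j hj) (by omega), ec_act_new, mul_assoc, ← map_mul, ec_gl_mul j hj,
        map_one, mul_one]
  · intro v hvN j hj
    rw [ec_step N T π M e j v hj (by omega), ec_act_old _ _ _ _ _ _ _ hvN]
  · intro w
    constructor
    · intro hw v hv'
      by_cases hvN : v < N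
      · rw [ec_walk_old N T hv π M e w v hvN]
        exact (h0 w).1 (hle hw) v hvN
      · obtain ⟨q, hq⟩ : ∃ q, v = N + (e q : ℕ) := by
          refine ⟨e.symm ⟨v - N, by omega⟩, ?_⟩
          rw [Equiv.apply_symm_apply]
          simp only
          omega
        rw [hq, ec_walk_new, (hπ _).2 hw, mul_one]
    · intro h
      have h1 := h (N + (e 1 : ℕ)) (by have := (e 1).2; omega)
      rw [ec_walk_new, one_mul] at h1
      have h2 : e (π (FreeGroup.mk w)) = e 1 := Fin.ext (by omega)
      exact (hπ _).1 (e.injective h2)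
  · have := (e 1).2; omega
  · intro w hw
    rw [ec_walk_new, one_mul] at hw
    have h2 : e (π (FreeGroup.mk w)) = e 1 := Fin.ext (by omega)
    exact (hπ _).1 (e.injective h2)

end Pool.Agent.Helper948.Dom.KB
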