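import Pool.Agent.Helper948.Dom.Code

/- solved by helper372 -/


set_option autoImplicit false

namespace Pool.Agent.Helper948.Dom.KC
open Pool.Agent.Helper948.Dom 






-- TARGET
/-- membership in `wordsEq` -/
theorem mem_wordsEq (L n : ℕ) (w : List ℕ) : w ∈ wordsEq L n ↔ w.length = n ∧ ∀ j ∈ w, j < L := by
  induction n generalizing w with
  | zero =>
    simp only [wordsEq, List.mem_singleton, List.length_eq_zero_iff]
    constructor
    · rintro rfl
      exact ⟨rfl, by simp⟩
    · exact fun h => h.1
  | succ n ih =>
    simp only [wordsEq, List.mem_flatMap, List.mem_map, List.mem_range]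
    constructor
    · rintro ⟨w', hw', j, hj, rfl⟩
      obtain ⟨h1, h2⟩ := (ih w').mp hw'
      refine ⟨by simp [h1], ?_⟩
      intro i hi
      rcases List.mem_cons.mp hi with rfl | hi
      · exact hj
      · exact h2 i hi
    · rintro ⟨h1, h2⟩
      cases w with
      | nil => simp at h1
      | cons j w =>
        refine ⟨w, (ih w).mpr ⟨by simpa using h1, fun i hi => h2 i (List.mem_cons_of_mem _ hi)⟩,
          j, h2 j List.mem_cons_self, rfl⟩

/-- membership in `words` -/
theorem mem_words (L n : ℕ) (w : List ℕ) : w ∈ words L n ↔ w.length ≤ n ∧ ∀ j ∈ w, j < L := by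
  simp only [words, List.mem_flatMap, List.mem_range, mem_wordsEq]
  constructor
  · rintro ⟨m, hm, h1, h2⟩
    exact ⟨by omega, h2⟩
  · rintro ⟨h1, h2⟩
    exact ⟨w.length, by omega, rfl, h2⟩

/-- Every state reachable by a word is reachable by a word of length at most the number of states.
Proof: take a shortest word `w'` with letters `< L` leading to the state; if its length were `> card X`, two different prefixes
would lead to the same state (pigeonhole) and the piece between them could be cut out. -/
theorem short_word {X : Type*} [Fintype X] (L : ℕ) (δ : ℕ → X → X) (x : X) (w : List ℕ)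
    (hw : ∀ j ∈ w, j < L) :
    ∃ w' : List ℕ, w'.length ≤ Fintype.card X ∧ (∀ j ∈ w', j < L) ∧
      w'.foldl (fun y j => δ j y) x = w.foldl (fun y j => δ j y) x := by
  induction hn : w.length using Nat.strong_induction_on generalizing w with
  | _ n ih =>
    by_cases hle : w.length ≤ Fintype.card X
    · exact ⟨w, hle, hw, rfl⟩
    · push Not at hle
      obtain ⟨i, j, hij, hf⟩ := Fintype.exists_ne_map_eq_of_card_lt
        (fun i : Fin (w.length + 1) => (w.take i).foldl (fun y j => δ j y) x)
        (by rw [Fintype.card_fin]; omega)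
      have key : ∀ i j : Fin (w.length + 1), i < j →
          (w.take i).foldl (fun y j => δ j y) x = (w.take j).foldl (fun y j => δ j y) x →
          ∃ w' : List ℕ, w'.length ≤ Fintype.card X ∧ (∀ j ∈ w', j < L) ∧
            w'.foldl (fun y j => δ j y) x = w.foldl (fun y j => δ j y) x := by
        intro i j hlt he
        have hlt' : (i : ℕ) < (j : ℕ) := hlt
        have hj := j.2
        have hlen : (w.take i ++ w.drop j).length < n := by
          simp only [List.length_append, List.length_take, List.length_drop]
          omega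
        obtain ⟨w', h1, h2, h3⟩ := ih _ hlen (w.take i ++ w.drop j) (by
          intro k hk
          rcases List.mem_append.mp hk with hk | hk
          · exact hw k (List.mem_of_mem_take hk)
          · exact hw k (List.mem_of_mem_drop hk)) rfl
        refine ⟨w', h1, h2, h3.trans ?_⟩
        rw [List.foldl_append, he, ← List.foldl_append, List.take_append_drop]
      rcases lt_or_gt_of_ne hij with h | h
      · exact key i j h hf
      · exact key j i h hf.symm

theorem walk_append (T : List (List ℕ)) (v : ℕ) (w w' : List ℕ) :
    walk T v (w ++ w') = walk T (walk T v w) w' := by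
  simp [walk]

theorem walk_lt {N : ℕ} {T : List (List ℕ)} (hv : Valid N T) (w : List ℕ) (hw : ∀ j ∈ w, j < 4) :
    ∀ v < N, walk T v w < N := by
  induction w with
  | nil => intro v h; exact h
  | cons j w ih =>
    intro v h
    have h1 := (hv j (hw j List.mem_cons_self) v h).1
    exact ih (fun i hi => hw i (List.mem_cons_of_mem _ hi)) _ h1

theorem aw_lt (j : ℕ) : ∀ i ∈ aw j, i < 4 := by
  intro i hi
  simp only [aw, List.mem_append, List.mem_replicate, List.mem_cons] at hi
  rcases hi with ⟨_, rfl⟩ | rfl | ⟨_, rfl⟩
  · norm_num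
  · omega
  · norm_num

/-- points of an orbit are reached by short words; `short_word` with `X := Fin N` -/
theorem short_point (N : ℕ) (T : List (List ℕ)) (hv : Valid N T) (u : ℕ) (hu : u < N) (w : List ℕ)
    (hw : ∀ j ∈ w, j < 4) :
    ∃ w' ∈ words 4 N, walk T u w' = walk T u w := by
  let δ : ℕ → Fin N → Fin N := fun j v =>
    if h : j < 4 then ⟨step T j v, (hv j h v v.2).1⟩ else v
  have key : ∀ w : List ℕ, (∀ j ∈ w, j < 4) → ∀ v : Fin N,
      ((w.foldl (fun y j => δ j y) v : Fin N) : ℕ) = walk T v w := by
    intro w
    induction w with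
    | nil => intro _ v; rfl
    | cons j w ih =>
      intro h v
      have h1 : j < 4 := h j List.mem_cons_self
      rw [List.foldl_cons, ih (fun i hi => h i (List.mem_cons_of_mem _ hi))]
      have h2 : ((δ j v : Fin N) : ℕ) = step T j v := by simp only [δ, dif_pos h1]
      rw [h2]
      rfl
  obtain ⟨w', h1, h2, h3⟩ := short_word 4 δ ⟨u, hu⟩ w hw
  refine ⟨w', (mem_words 4 N w').mpr ⟨by simpa using h1, h2⟩, ?_⟩
  have := congrArg (fun z : Fin N => (z : ℕ)) h3
  simp only [key w' h2, key w hw] at this
  exact this

/-- permutations given by words in the `a_i` are given by short words in the `a_i`;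
`short_word` with `X := Fin N → Fin N`, `δ j f := fun v => walk T (f v) (aw j)` (letters of `aw j` are `< 4`). -/
theorem short_perm (N : ℕ) (T : List (List ℕ)) (hv : Valid N T) (L : ℕ) (r : List ℕ)
    (hr : ∀ j ∈ r, j < L) :
    ∃ r' ∈ words L (N ^ N), EqT N T (conv r') (conv r) := by
  let δ : ℕ → (Fin N → Fin N) → (Fin N → Fin N) := fun j f v =>
    ⟨walk T (f v) (aw j), walk_lt hv (aw j) (aw_lt j) _ (f v).2⟩
  have key : ∀ r : List ℕ, ∀ (f : Fin N → Fin N) (v : Fin N),
      (((r.foldl (fun y j => δ j y) f) v : Fin N) : ℕ) = walk T (f v) (conv r) := by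
    intro r
    induction r with
    | nil => intro f v; rfl
    | cons j r ih =>
      intro f v
      rw [List.foldl_cons, ih]
      have h2 : ((δ j f v : Fin N) : ℕ) = walk T (f v) (aw j) := rfl
      rw [h2, ← walk_append]
      rfl
  obtain ⟨r', h1, h2, h3⟩ := short_word L δ id r hr
  refine ⟨r', (mem_words L _ r').mpr ⟨by simpa using h1, h2⟩, ?_⟩
  intro v hvN
  have := congrArg (fun z : Fin N → Fin N => ((z ⟨v, hvN⟩ : Fin N) : ℕ)) h3
  simp only [key] at this
  exact this

end Pool.Agent.Helper948.Dom.KC
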