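import Pool.Agent.Helper948.Dom.Code

/- solved by helper681 -/


set_option autoImplicit false

namespace Pool.Agent.Helper948.Dom.KD
open Pool.Agent.Helper948.Dom 






-- TARGET
theorem conv_mem_rep (i : ℕ) : FreeGroup.mk (List.replicate i ((1 : Fin 2), true)) = ft ^ i := by
  induction i with
  | zero => rfl
  | succ i ih =>
    rw [List.replicate_succ, pow_succ', ← ih]
    rfl

theorem conv_mem_rep' (i : ℕ) :
    FreeGroup.mk (List.replicate i ((1 : Fin 2), false)) = (ft ^ i)⁻¹ := by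
  induction i with
  | zero => simp [FreeGroup.one_eq_mk]
  | succ i ih =>
    rw [List.replicate_succ, pow_succ, mul_inv_rev, ← ih]
    rfl

/-- the word of a letter -/
def conv_mem_wd (j : ℕ) : List (Fin 2 × Bool) :=
  List.replicate (j / 2) ((1 : Fin 2), true) ++ ((0 : Fin 2), decide (j % 2 = 0)) ::
    List.replicate (j / 2) ((1 : Fin 2), false)

theorem conv_mem_enc (j : ℕ) : enc (conv_mem_wd j) = aw j := by
  unfold enc conv_mem_wd aw
  rw [List.map_append, List.map_cons, List.map_replicate, List.map_replicate]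
  have h1 : lcode ((1 : Fin 2), true) = 2 := rfl
  have h2 : lcode ((1 : Fin 2), false) = 3 := rfl
  have h3 : lcode ((0 : Fin 2), decide (j % 2 = 0)) = j % 2 := by
    rcases Nat.mod_two_eq_zero_or_one j with h | h <;> rw [h] <;> rfl
  rw [h1, h2, h3]

theorem conv_mem_mk (i : ℕ) : FreeGroup.mk (conv_mem_wd (2 * i)) = A i := by
  unfold conv_mem_wd
  have h1 : 2 * i / 2 = i := by omega
  have h2 : 2 * i % 2 = 0 := by omega
  rw [h1, h2, ← FreeGroup.mul_mk, conv_mem_rep]
  have h3 : FreeGroup.mk (((0 : Fin 2), decide (0 = 0)) :: List.replicate i ((1 : Fin 2), false)) =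
      fa * (ft ^ i)⁻¹ := by
    rw [← conv_mem_rep']
    rfl
  rw [h3, A, mul_assoc]

theorem conv_mem_mk' (i : ℕ) : FreeGroup.mk (conv_mem_wd (2 * i + 1)) = (A i)⁻¹ := by
  unfold conv_mem_wd
  have h1 : (2 * i + 1) / 2 = i := by omega
  have h2 : (2 * i + 1) % 2 = 1 := by omega
  rw [h1, h2, ← FreeGroup.mul_mk, conv_mem_rep]
  have h3 : FreeGroup.mk (((0 : Fin 2), decide (1 = 0)) :: List.replicate i ((1 : Fin 2), false)) =
      fa⁻¹ * (ft ^ i)⁻¹ := by
    rw [← conv_mem_rep']
    rfl
  rw [h3, A]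
  group

theorem conv_mem_mkW (j k : ℕ) (hj : j < 2 * k) : FreeGroup.mk (conv_mem_wd j) ∈ W k := by
  rcases Nat.even_or_odd' j with ⟨i, hi | hi⟩
  · rw [hi, conv_mem_mk]
    exact A_mem (by omega)
  · rw [hi, conv_mem_mk']
    exact (W k).inv_mem (A_mem (by omega))

theorem conv_mem_app (w w' : List (Fin 2 × Bool)) : enc (w ++ w') = enc w ++ enc w' := by
  unfold enc
  rw [List.map_append]

/-- words in the `a_i` represent the elements of `W k` -/
theorem conv_mem (k : ℕ) (r : List ℕ) (hr : ∀ j ∈ r, j < 2 * k) :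
    ∃ w : List (Fin 2 × Bool), enc w = conv r ∧ FreeGroup.mk w ∈ W k := by
  induction r with
  | nil => exact ⟨[], rfl, (W k).one_mem⟩
  | cons j r ih =>
    obtain ⟨w, hw1, hw2⟩ := ih (fun i hi => hr i (List.mem_cons_of_mem _ hi))
    refine ⟨conv_mem_wd j ++ w, ?_, ?_⟩
    · rw [conv_mem_app, conv_mem_enc, hw1]
      rfl
    · rw [← FreeGroup.mul_mk]
      exact (W k).mul_mem (conv_mem_mkW j k (hr j List.mem_cons_self)) hw2

/-- every element of `W k` is represented by such a word (`Subgroup.closure_induction` or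
`Subgroup.exists_list_of_mem_closure`) -/
theorem conv_surj (k : ℕ) (g : F) (hg : g ∈ W k) :
    ∃ r : List ℕ, (∀ j ∈ r, j < 2 * k) ∧
      ∃ w : List (Fin 2 × Bool), enc w = conv r ∧ FreeGroup.mk w = g := by
  have step : ∀ (x : F) (j : ℕ), j < 2 * k → FreeGroup.mk (conv_mem_wd j) = x → ∀ y : F,
      (∃ r : List ℕ, (∀ j ∈ r, j < 2 * k) ∧
        ∃ w : List (Fin 2 × Bool), enc w = conv r ∧ FreeGroup.mk w = y) →
      (∃ r : List ℕ, (∀ j ∈ r, j < 2 * k) ∧
        ∃ w : List (Fin 2 × Bool), enc w = conv r ∧ FreeGroup.mk w = x * y) := by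
    rintro x j hj hjx y ⟨r, hr, w, hw1, hw2⟩
    refine ⟨j :: r, ?_, conv_mem_wd j ++ w, ?_, ?_⟩
    · intro i hi
      rcases List.mem_cons.1 hi with h | h
      · rw [h]; exact hj
      · exact hr i h
    · rw [conv_mem_app, conv_mem_enc, hw1]
      rfl
    · rw [← FreeGroup.mul_mk, hjx, hw2]
  rw [W] at hg
  induction hg using Subgroup.closure_induction_left with
  | one => exact ⟨[], by simp, [], rfl, rfl⟩
  | mul_left x hx y _ ih =>
    obtain ⟨i, hi, rfl⟩ := hx
    exact step _ (2 * i) (by omega) (conv_mem_mk i) y ih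
  | inv_mul_cancel x hx y _ ih =>
    obtain ⟨i, hi, rfl⟩ := hx
    exact step _ (2 * i + 1) (by omega) (conv_mem_mk' i) y ih

/-- the word `aw (2 i)` is `a_i` -/
theorem aw_enc (i : ℕ) : ∃ w : List (Fin 2 × Bool), enc w = aw (2 * i) ∧ FreeGroup.mk w = A i :=
  ⟨conv_mem_wd (2 * i), conv_mem_enc _, conv_mem_mk i⟩

theorem eqT_iff_lc (s : Fin 2 × Bool) : lcode s < 4 ∧ lcode (s.1, !s.2) = linv (lcode s) := by
  rcases s with ⟨a, b⟩
  fin_cases a <;> cases b <;> simp [lcode, linv]

theorem eqT_iff_lt (N : ℕ) (T : List (List ℕ)) (hv : Valid N T) (w : List (Fin 2 × Bool)) :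
    ∀ v < N, walk T v (enc w) < N := by
  induction w with
  | nil => intro v hv; exact hv
  | cons s w ih =>
    intro v hvN
    show walk T (step T (lcode s) v) (enc w) < N
    exact ih _ (hv _ (eqT_iff_lc s).1 v hvN).1

theorem eqT_iff_app (T : List (List ℕ)) (v : ℕ) (r r' : List ℕ) :
    walk T v (r ++ r') = walk T (walk T v r) r' := by
  unfold walk
  rw [List.foldl_append]

theorem eqT_iff_inv (N : ℕ) (T : List (List ℕ)) (hv : Valid N T) (w : List (Fin 2 × Bool)) :
    ∀ v < N, walk T (walk T v (enc w)) (enc (FreeGroup.invRev w)) = v := by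
  induction w with
  | nil => intro v hv; rfl
  | cons s w ih =>
    intro v hvN
    have h1 := hv _ (eqT_iff_lc s).1 v hvN
    have h2 : FreeGroup.invRev (s :: w) = FreeGroup.invRev w ++ [(s.1, !s.2)] := by
      simp [FreeGroup.invRev]
    rw [h2, conv_mem_app, eqT_iff_app]
    have h3 : walk T v (enc (s :: w)) = walk T (step T (lcode s) v) (enc w) := rfl
    rw [h3, ih _ h1.1]
    show step T (lcode (s.1, !s.2)) (step T (lcode s) v) = v
    rw [(eqT_iff_lc s).2]
    exact h1.2

/-- equality of actions: if `IsKer K N T` (with `Valid N T`, `FN K`), two words act in the same way iff they are equal modulo `K`.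
(`walk T (walk T v w) w' = walk T v (w ++ w')`; `mk w⁻¹ * mk w' ∈ K` iff `mk w' * (mk w)⁻¹ ∈ K` by normality; use the inverse word
`FreeGroup.invRev w` and that `walk` along `enc (invRev w)` is the inverse of the walk along `enc w`.) -/
theorem eqT_iff (K : Subgroup F) (hK : FN K) (N : ℕ) (T : List (List ℕ)) (hv : Valid N T)
    (hker : IsKer K N T) (w w' : List (Fin 2 × Bool)) :
    EqT N T (enc w) (enc w') ↔ (FreeGroup.mk w)⁻¹ * FreeGroup.mk w' ∈ K := by
  rw [FreeGroup.inv_mk, FreeGroup.mul_mk, hker]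
  constructor
  · intro h v hvN
    rw [conv_mem_app, eqT_iff_app]
    have h1 := eqT_iff_lt N T hv (FreeGroup.invRev w) v hvN
    rw [← h _ h1]
    have h2 := eqT_iff_inv N T hv (FreeGroup.invRev w) v hvN
    rwa [FreeGroup.invRev_invRev] at h2
  · intro h v hvN
    have h1 := h (walk T v (enc w)) (eqT_iff_lt N T hv w v hvN)
    rw [conv_mem_app, eqT_iff_app, eqT_iff_inv N T hv w v hvN] at h1
    exact h1.symm

/-- letters are `< 4`, and every word over the letters `0,..,3` comes from a word in `F` -/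
theorem enc_lt (w : List (Fin 2 × Bool)) : ∀ j ∈ enc w, j < 4 := by
  intro j hj
  obtain ⟨s, _, rfl⟩ := List.mem_map.1 hj
  exact (eqT_iff_lc s).1

/-- surjectivity of `enc` -/
theorem enc_surj (r : List ℕ) (hr : ∀ j ∈ r, j < 4) : ∃ w : List (Fin 2 × Bool), enc w = r := by
  induction r with
  | nil => exact ⟨[], rfl⟩
  | cons j r ih =>
    obtain ⟨w, hw⟩ := ih (fun i hi => hr i (List.mem_cons_of_mem _ hi))
    have hj : ∃ s, lcode s = j := by
      have := hr j List.mem_cons_self
      interval_cases j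
      · exact ⟨(0, true), rfl⟩
      · exact ⟨(0, false), rfl⟩
      · exact ⟨(1, true), rfl⟩
      · exact ⟨(1, false), rfl⟩
    obtain ⟨s, hs⟩ := hj
    refine ⟨s :: w, ?_⟩
    unfold enc at hw ⊢
    rw [List.map_cons, hs, hw]

/-- injectivity of `enc` -/
theorem enc_inj : Function.Injective enc := by
  unfold enc
  apply List.map_injective_iff.2
  rintro ⟨a, b⟩ ⟨c, d⟩ h
  fin_cases a <;> fin_cases c <;> cases b <;> cases d <;> simp_all [lcode]

end Pool.Agent.Helper948.Dom.KD
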