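import Pool.Agent.Helper948.Dom.Code
import Pool.Agent.Helper948.Dom.KC
import Pool.Agent.Helper948.Dom.KD

/- solved by helper862 -/


set_option autoImplicit false

namespace Pool.Agent.Helper948.Dom.KE
open Pool.Agent.Helper948.Dom Pool.Agent.Helper948.Dom.KC Pool.Agent.Helper948.Dom.KD








-- TARGET
theorem okStep_walk_lt (N : ℕ) (T : List (List ℕ)) (hv : Valid N T) (w : List ℕ)
    (hw : ∀ j ∈ w, j < 4) (v : ℕ) (h : v < N) : walk T v w < N := by
  induction w generalizing v with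
  | nil => exact h
  | cons j w ih =>
    have : walk T v (j :: w) = walk T (step T j v) w := rfl
    rw [this]
    exact ih (fun i hi => hw i (by simp [hi])) _ (hv j (hw j (by simp)) v h).1

theorem okStep_walk_agree (N : ℕ) (T T' : List (List ℕ)) (hv : Valid N T)
    (hT : ∀ v < N, ∀ j < 4, step T' j v = step T j v) (w : List ℕ)
    (hw : ∀ j ∈ w, j < 4) (v : ℕ) (h : v < N) : walk T' v w = walk T v w := by
  induction w generalizing v with
  | nil => rfl
  | cons j w ih =>
    have h1 : walk T v (j :: w) = walk T (step T j v) w := rfl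
    have h2 : walk T' v (j :: w) = walk T' (step T' j v) w := rfl
    rw [h1, h2, hT v h j (hw j (by simp))]
    exact ih (fun i hi => hw i (by simp [hi])) _ (hv j (hw j (by simp)) v h).1

theorem okStep_words_lt (L n : ℕ) (r : List ℕ) (hr : r ∈ words L n) : ∀ j ∈ r, j < L :=
  ((mem_words L n r).1 hr).2

theorem okStep_conv_lt (k : ℕ) (r : List ℕ) (hr : ∀ j ∈ r, j < 2 * k) : ∀ j ∈ conv r, j < 4 := by
  obtain ⟨w, hw, _⟩ := conv_mem k r hr
  rw [← hw]
  exact enc_lt w

/-- soundness of the window conditions of `OkStep`.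
Proof of `Ext`: (i) `K' ≤ K`: the tables of `c'` extend those of `c`, so a word which acts trivially for `c'` acts trivially
on the points `< c.2.1` (`walk` stays in `{v < N}` by `Valid`, and both walks agree there). (ii) `w ∈ W (m+1) ∩ K`: write `w` as `r`
(`conv_surj`), by `short_perm` there is `r' ∈ words (2 (m+1)) (N'^N')` acting as `r` for `c'`, hence also for `c`; so `r'` acts
trivially for `c`, hence for `c'` (hypothesis), hence so does `r`.
Proof of `ND`: if `A m' * w⁻¹ ∈ K'` with `w ∈ W m'`, then `w` acts for `c'` as a short `r'`, and `A m'` acts as `w`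
(`eqT_iff`, `aw_enc`): contradiction to the sixth condition. -/
theorem okStep_sound (c c' : Code) (I : Inp) (K K' : Subgroup F) (hK : FN K) (hK' : FN K')
    (hv : Valid c.2.1 c.2.2) (hc : IsKer K c.2.1 c.2.2) (hc' : IsKer K' c'.2.1 c'.2.2)
    (h : OkStep c I c') : Ext K c.1 K' ∧ ND K' c'.1 := by
  obtain ⟨hv', hle, hT, _, hE, hN, _⟩ := h
  have hag := fun w hw v hvl => okStep_walk_agree c.2.1 c.2.2 c'.2.2 hv hT w hw v hvl
  refine ⟨⟨?_, ?_⟩, ?_⟩
  · intro g hg
    rw [← FreeGroup.mk_toWord (x := g)] at hg ⊢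
    refine (hc _).2 fun v hvl => ?_
    rw [← hag _ (enc_lt _) v hvl]
    exact (hc' _).1 hg v (lt_of_lt_of_le hvl hle)
  · intro g hg hgK
    obtain ⟨r, hr, w, hw, rfl⟩ := conv_surj (c.1 + 1) g hg
    obtain ⟨r', hr', hrr⟩ := short_perm c'.2.1 c'.2.2 hv' (2 * (c.1 + 1)) r hr
    have h1 : EqT c.2.1 c.2.2 (conv r') [] := by
      intro v hvl
      have hr'lt := okStep_conv_lt (c.1 + 1) r' (okStep_words_lt _ _ r' hr')
      rw [← hag _ hr'lt v hvl, hrr v (lt_of_lt_of_le hvl hle),
        hag _ (okStep_conv_lt (c.1 + 1) r hr) v hvl, ← hw]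
      exact (hc w).1 hgK v hvl
    have h2 := hE r' hr' h1
    refine (hc' w).2 fun v hvl => ?_
    rw [hw, ← hrr v hvl]
    exact h2 v hvl
  · intro g hg hgK
    obtain ⟨r, hr, w, hw, rfl⟩ := conv_surj c'.1 g hg
    obtain ⟨r', hr', hrr⟩ := short_perm c'.2.1 c'.2.2 hv' (2 * c'.1) r hr
    obtain ⟨wa, hwa, hwA⟩ := aw_enc c'.1
    refine hN r' hr' fun v hvl => ?_
    have h3 : EqT c'.2.1 c'.2.2 (enc w) (enc wa) := by
      rw [eqT_iff K' hK' _ _ hv' hc', hwA]
      exact hK'.normal.mem_comm hgK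
    rw [hrr v hvl, ← hw, ← hwa]
    exact h3 v hvl

end Pool.Agent.Helper948.Dom.KE
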