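import Pool.Agent.Helper948.Dom.Code
import Pool.Agent.Helper948.Dom.KC
import Pool.Agent.Helper948.Dom.KD

/- solved by helper439 -/


set_option autoImplicit false

namespace Pool.Agent.Helper948.Dom.KF
open Pool.Agent.Helper948.Dom Pool.Agent.Helper948.Dom.KC Pool.Agent.Helper948.Dom.KD








-- TARGET
theorem cs_walk_append (T : List (List ℕ)) (v : ℕ) (r r' : List ℕ) :
    walk T v (r ++ r') = walk T (walk T v r) r' := by
  unfold walk
  rw [List.foldl_append]

theorem cs_enc_append (w w' : List (Fin 2 × Bool)) : enc (w ++ w') = enc w ++ enc w' := by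
  unfold enc
  rw [List.map_append]

theorem cs_walk_lt (N : ℕ) (T : List (List ℕ)) (hv : Valid N T) (r : List ℕ)
    (hr : ∀ j ∈ r, j < 4) (v : ℕ) (hvN : v < N) : walk T v r < N := by
  induction r generalizing v with
  | nil => exact hvN
  | cons j r ih =>
    have h1 : walk T v (j :: r) = walk T (step T j v) r := rfl
    rw [h1]
    exact ih (fun i hi => hr i (List.mem_cons_of_mem _ hi)) _
      (hv j (hr j List.mem_cons_self) v hvN).1

theorem cs_key (K : Subgroup F) (hK : FN K) (N : ℕ) (T : List (List ℕ)) (hv : Valid N T)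
    (hker : IsKer K N T) (w w' : List (Fin 2 × Bool))
    (h : (FreeGroup.mk w)⁻¹ * FreeGroup.mk w' ∈ K) (v : ℕ) (hvN : v < N) :
    walk T v (enc w) = walk T v (enc w') :=
  (eqT_iff K hK N T hv hker w w').2 h v hvN

/-- `Commit` gives a colouring: `x g := label of the point u·g`, i.e. `x g := l.getD (walk T u (enc g.toWord)) 0`
(`< I.1` because `l ∈ wordsEq I.1 N` and the point is `< N`); `walk T u (enc w)` depends only on `FreeGroup.mk w`
(up to `K`, by `eqT_iff`), and every point `u·g` is reached by a word in `words 4 N` (`short_point`). -/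
theorem commit_sound (I : Inp) (K : Subgroup F) (hK : FN K) (N : ℕ) (T : List (List ℕ))
    (hv : Valid N T) (hker : IsKer K N T) (h : Commit I N T) : Good I K := by
  obtain ⟨u, hu, l, hl, hP⟩ := h
  obtain ⟨hlen, hlt⟩ := (mem_wordsEq _ _ _).1 hl
  have hpt : ∀ w : List (Fin 2 × Bool), walk T u (enc w) < N := fun w =>
    cs_walk_lt N T hv _ (enc_lt w) u hu
  have hget : ∀ w : List (Fin 2 × Bool), l.getD (walk T u (enc w)) 0 < I.1 := by
    intro w
    rw [List.getD_eq_getElem _ _ (by rw [hlen]; exact hpt w)]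
    exact hlt _ (List.getElem_mem _)
  refine ⟨fun g => ⟨l.getD (walk T u (enc g.toWord)) 0, hget _⟩, ?_, ?_⟩
  · intro g k hk
    apply Fin.ext
    show l.getD (walk T u (enc (g * k).toWord)) 0 = l.getD (walk T u (enc g.toWord)) 0
    rw [cs_key K hK N T hv hker (g * k).toWord g.toWord ?_ u hu]
    rw [FreeGroup.mk_toWord, FreeGroup.mk_toWord]
    have h1 : (g * k)⁻¹ * g = k⁻¹ := by group
    rw [h1]
    exact inv_mem hk
  · intro g P hPI hall
    obtain ⟨w', hw', hw'u⟩ := short_point N T hv u hu (enc g.toWord) (enc_lt _)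
    apply hP w' hw' P hPI
    intro q hq
    have h1 : l.getD (walk T u (enc (g * FreeGroup.mk q.1).toWord)) 0 = q.2 := hall q hq
    rw [← h1, cs_walk_append, hw'u, ← cs_walk_append, ← cs_enc_append]
    rw [cs_key K hK N T hv hker (g.toWord ++ q.1) (g * FreeGroup.mk q.1).toWord ?_ u hu]
    rw [FreeGroup.mk_toWord, ← FreeGroup.mul_mk, FreeGroup.mk_toWord, inv_mul_cancel]
    exact one_mem K

theorem cs_inv (K : Subgroup F) (hK : FN K) (N : ℕ) (T : List (List ℕ)) (hv : Valid N T)
    (hker : IsKer K N T) (w : List (Fin 2 × Bool)) (v : ℕ) (hvN : v < N) :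
    walk T (walk T v (enc w)) (enc (FreeGroup.invRev w)) = v := by
  rw [← cs_walk_append, ← cs_enc_append]
  rw [cs_key K hK N T hv hker (w ++ FreeGroup.invRev w) [] ?_ v hvN]
  · rfl
  · rw [← FreeGroup.mul_mk, ← FreeGroup.inv_mk, mul_inv_cancel, inv_one, one_mul]
    exact one_mem K

/-- Conversely a colouring of `F/K` gives `Commit`, if there is a point `u` with stabiliser `K` (regular orbit):
`l` has the entry `x (mk w)` at the place `walk T u (enc w)` (well defined since `walk T u (enc w) = walk T u (enc w')` implies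
`(mk w)⁻¹`… equality modulo `K`: `walk T u (enc (w ++ invRev w')) = u`, so `mk w * (mk w')⁻¹ ∈ K`), and any entry `< I.1` elsewhere
(`0 < I.1` because `x 1` exists). -/
theorem commit_complete (I : Inp) (K : Subgroup F) (hK : FN K) (N : ℕ) (T : List (List ℕ))
    (hv : Valid N T) (hker : IsKer K N T)
    (hreg : ∃ u < N, ∀ w : List (Fin 2 × Bool), walk T u (enc w) = u → FreeGroup.mk w ∈ K)
    (h : Good I K) : Commit I N T := by
  classical
  obtain ⟨u, hu, hstab⟩ := hreg
  obtain ⟨x, hx, hxP⟩ := h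
  haveI := hK.normal
  -- well defined
  have hwd : ∀ w w' : List (Fin 2 × Bool), walk T u (enc w) = walk T u (enc w') →
      x (FreeGroup.mk w) = x (FreeGroup.mk w') := by
    intro w w' hww
    have h1 : walk T u (enc (w ++ FreeGroup.invRev w')) = u := by
      rw [cs_enc_append, cs_walk_append, hww]
      exact cs_inv K hK N T hv hker w' u hu
    have h2 := hstab _ h1
    rw [← FreeGroup.mul_mk, ← FreeGroup.inv_mk] at h2
    have h3 : (FreeGroup.mk w')⁻¹ * FreeGroup.mk w ∈ K := by
      have h4 := hK.normal.conj_mem _ h2 (FreeGroup.mk w')⁻¹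
      have h5 : (FreeGroup.mk w')⁻¹ * (FreeGroup.mk w * (FreeGroup.mk w')⁻¹) *
          ((FreeGroup.mk w')⁻¹)⁻¹ = (FreeGroup.mk w')⁻¹ * FreeGroup.mk w := by group
      rwa [h5] at h4
    have h6 := hx (FreeGroup.mk w') _ h3
    rwa [mul_inv_cancel_left] at h6
  set lf : ℕ → ℕ := fun v => if h : ∃ w : List (Fin 2 × Bool), walk T u (enc w) = v then
    (x (FreeGroup.mk h.choose) : ℕ) else (x 1 : ℕ) with hlf
  have hlf1 : ∀ v, lf v < I.1 := by
    intro v
    simp only [hlf]
    split_ifs
    · exact (x _).2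
    · exact (x _).2
  have hlf2 : ∀ w : List (Fin 2 × Bool), lf (walk T u (enc w)) = (x (FreeGroup.mk w) : ℕ) := by
    intro w
    have hex : ∃ w' : List (Fin 2 × Bool), walk T u (enc w') = walk T u (enc w) := ⟨w, rfl⟩
    simp only [hlf]
    rw [dif_pos hex, hwd _ _ hex.choose_spec]
  refine ⟨u, hu, (List.range N).map lf, ?_, ?_⟩
  · rw [mem_wordsEq]
    refine ⟨by simp, fun j hj => ?_⟩
    obtain ⟨v, -, rfl⟩ := List.mem_map.1 hj
    exact hlf1 v
  · intro g hg P hPI hall
    obtain ⟨-, hg4⟩ := (mem_words _ _ _).1 hg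
    obtain ⟨w, rfl⟩ := enc_surj g hg4
    apply hxP (FreeGroup.mk w) P hPI
    intro q hq
    have h1 := hall q hq
    rw [← cs_enc_append] at h1
    have h2 : walk T u (enc (w ++ q.1)) < N := cs_walk_lt N T hv _ (enc_lt _) u hu
    rw [List.getD_eq_getElem _ _ (by simpa using h2), List.getElem_map, List.getElem_range,
      hlf2] at h1
    rw [FreeGroup.mul_mk]
    exact h1

end Pool.Agent.Helper948.Dom.KF
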