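import Pool.Agent.Helper948.Dom.Code
import Pool.Agent.Helper948.Dom.KC
import Pool.Agent.Helper948.Dom.KD

/- solved by helper558 -/


set_option autoImplicit false

namespace Pool.Agent.Helper948.Dom.KG
open Pool.Agent.Helper948.Dom Pool.Agent.Helper948.Dom.KC Pool.Agent.Helper948.Dom.KD








-- TARGET
theorem enc_length' (w : List (Fin 2 × Bool)) : (enc w).length = w.length := by
  simp [enc]

theorem enc_append' (g w : List (Fin 2 × Bool)) : enc (g ++ w) = enc g ++ enc w := by
  simp [enc]

theorem enc_mem_words (D : ℕ) (w : List (Fin 2 × Bool)) (hw : w.length ≤ D) :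
    enc w ∈ words 4 D := by
  rw [mem_words, enc_length']
  exact ⟨hw, enc_lt w⟩

theorem words_enc (D : ℕ) (r : List ℕ) (hr : r ∈ words 4 D) :
    ∃ w : List (Fin 2 × Bool), enc w = r ∧ w.length ≤ D := by
  rw [mem_words] at hr
  obtain ⟨w, hw⟩ := enc_surj r hr.2
  refine ⟨w, hw, ?_⟩
  rw [← enc_length', hw]
  exact hr.1

/-- `NoBall` in terms of the finite check. Proof: labellings `Y : List (Fin 2 × Bool) → ℕ` of the words of length `≤ D` with values
`< I.1` correspond to lists `Y' ∈ wordsEq I.1 (words 4 D).length` via `lab D Y' (enc w) = Y w`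
(`Y' := (words 4 D).map (fun r => Y (the w with enc w = r))`; `List.getD` at `List.idxOf` of a member of the list; note that
`words 4 D` is exactly the set of `enc w`, `w.length ≤ D`: `mem_words`, `enc_lt`, `enc_surj`, `enc_inj`), and `EqT` is equality
modulo `K` (`eqT_iff`). `(enc w).length = w.length`, `enc (g ++ w) = enc g ++ enc w`. -/
theorem noBall_iff (I : Inp) (K : Subgroup F) (hK : FN K) (N : ℕ) (T : List (List ℕ))
    (hv : Valid N T) (hker : IsKer K N T) (D : ℕ) :
    NoBall I K D ↔ ∀ Y ∈ wordsEq I.1 (words 4 D).length, ¬ BallOK I N T D Y := by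
  unfold NoBall
  constructor
  · intro h Y' hY' hOK
    apply h
    rw [mem_wordsEq] at hY'
    refine ⟨fun w => lab D Y' (enc w), ?_, ?_, ?_⟩
    · intro w hw
      have hidx : (words 4 D).idxOf (enc w) < Y'.length := by
        rw [hY'.1]
        exact List.idxOf_lt_length_of_mem (enc_mem_words D w hw)
      show Y'.getD ((words 4 D).idxOf (enc w)) 0 < I.1
      rw [List.getD_eq_getElem _ _ hidx]
      exact hY'.2 _ (List.getElem_mem hidx)
    · intro w w' hw hw' hk
      exact hOK.1 _ (enc_mem_words D w hw) _ (enc_mem_words D w' hw')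
        ((eqT_iff K hK N T hv hker w w').mpr hk)
    · intro g hg P hP hlen hall
      refine hOK.2 (enc g) (enc_mem_words D g hg) P hP ?_ ?_
      · intro q hq
        have := hlen q hq
        rw [List.length_append] at this
        rw [enc_length']
        exact this
      · intro q hq
        have := hall q hq
        rw [← enc_append']
        exact this
  · rintro h ⟨Y, h1, h2, h3⟩
    classical
    let dec : List ℕ → List (Fin 2 × Bool) := fun r =>
      if h : ∃ w, enc w = r then h.choose else []
    have hdec : ∀ w, dec (enc w) = w := by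
      intro w
      have hex : ∃ w', enc w' = enc w := ⟨w, rfl⟩
      show (if h : ∃ w', enc w' = enc w then h.choose else []) = w
      rw [dif_pos hex]
      exact enc_inj hex.choose_spec
    let Y' : List ℕ := (words 4 D).map (fun r => Y (dec r))
    have hlab : ∀ w : List (Fin 2 × Bool), w.length ≤ D → lab D Y' (enc w) = Y w := by
      intro w hw
      have hm := enc_mem_words D w hw
      have hidx := List.idxOf_lt_length_of_mem hm
      show Y'.getD ((words 4 D).idxOf (enc w)) 0 = Y w
      have hidx' : (words 4 D).idxOf (enc w) < Y'.length := by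
        simpa [Y'] using hidx
      rw [List.getD_eq_getElem _ _ hidx']
      simp only [Y', List.getElem_map, List.getElem_idxOf]
      rw [hdec]
    refine h Y' ?_ ⟨?_, ?_⟩
    · rw [mem_wordsEq]
      refine ⟨by simp [Y'], fun j hj => ?_⟩
      obtain ⟨r, hr, rfl⟩ := List.mem_map.mp hj
      obtain ⟨w, rfl, hw⟩ := words_enc D r hr
      rw [hdec]
      exact h1 w hw
    · intro w hw w' hw' hE
      obtain ⟨v, rfl, hv1⟩ := words_enc D w hw
      obtain ⟨v', rfl, hv2⟩ := words_enc D w' hw'
      rw [hlab v hv1, hlab v' hv2]
      exact h2 v v' hv1 hv2 ((eqT_iff K hK N T hv hker v v').mp hE)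
    · intro g hg P hP hlen hall
      obtain ⟨v, rfl, hv1⟩ := words_enc D g hg
      have hl : ∀ q ∈ P, (v ++ q.1).length ≤ D := by
        intro q hq
        have := hlen q hq
        rw [enc_length'] at this
        rw [List.length_append]
        exact this
      refine h3 v hv1 P hP hl ?_
      intro q hq
      have := hall q hq
      rw [← enc_append', hlab _ (hl q hq)] at this
      exact this


end Pool.Agent.Helper948.Dom.KG
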