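import Pool.Agent.Helper948.Dom.Code
import Pool.Agent.Helper948.Dom.JL
import Pool.Agent.Helper948.Dom.KB
import Pool.Agent.Helper948.Dom.KC
import Pool.Agent.Helper948.Dom.KD
import Pool.Agent.Helper948.Dom.KF
import Pool.Agent.Helper948.Dom.KG

/- solved by helper324 -/


set_option autoImplicit false

namespace Pool.Agent.Helper948.Dom.KH
open Pool.Agent.Helper948.Dom Pool.Agent.Helper948.Dom.JL Pool.Agent.Helper948.Dom.KB Pool.Agent.Helper948.Dom.KC Pool.Agent.Helper948.Dom.KD Pool.Agent.Helper948.Dom.KF Pool.Agent.Helper948.Dom.KG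








-- TARGET
/-- There is always a correct next step. Proof: `dich` gives `K'`, `m'`; `exists_code` (with `K0 := K`) gives tables;
`c' := (m', N', T')`. The fifth condition: `r ∈ words (2 (m+1)) _` acts trivially for `c` → the element of `W (m+1)` represented by
`conv r` (`conv_mem`) is in `K`, so in `K'` by `Ext`. The sixth: if `conv r` acts as `aw (2 m')` then
(`eqT_iff`, normality) `A m' * w⁻¹ ∈ K'` with `w ∈ W m'`, contradicting `ND K' m'`. Last: `commit_complete`, `noBall_iff`. -/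
theorem okStep_exists (c : Code) (I : Inp) (K : Subgroup F) (hv : Valid c.2.1 c.2.2) (hK : FN K)
    (hker : IsKer K c.2.1 c.2.2) (hND : ND K c.1) : ∃ c' : Code, OkStep c I c' := by
  obtain ⟨K', m', hlt, hFN, hExt, hND', hor⟩ := dich K c.1 hK hND I
  obtain ⟨N', T', hv', hN, hold, hker', hreg⟩ := exists_code c.2.1 c.2.2 hv K K' hker hFN hExt.1
  refine ⟨(m', N', T'), hv', hN, hold, hlt, ?_, ?_, ?_⟩
  · intro r hr hE
    obtain ⟨w, hw1, hw2⟩ := conv_mem (c.1 + 1) r ((mem_words _ _ _).1 hr).2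
    have h1 : FreeGroup.mk w ∈ K := by
      rw [hker w, hw1]
      intro v hv0
      exact hE v hv0
    have h2 := (hker' w).1 (hExt.2 _ hw2 h1)
    rw [hw1] at h2
    intro v hv0
    exact h2 v hv0
  · intro r hr hE
    obtain ⟨w, hw1, hw2⟩ := conv_mem m' r ((mem_words _ _ _).1 hr).2
    obtain ⟨w', hw1', hw2'⟩ := aw_enc m'
    have h3 : EqT N' T' (enc w) (enc w') := by rw [hw1, hw1']; exact hE
    have h4 := (eqT_iff K' hFN N' T' hv' hker' w w').1 h3
    rw [hw2'] at h4
    exact hND' _ hw2 (hFN.normal.mem_comm h4)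
  · rcases hor with hg | ⟨D, hD, hnb⟩
    · exact Or.inl (commit_complete I K' hFN N' T' hv' hker' hreg hg)
    · exact Or.inr ⟨D, by show D < m' + 1; omega, hD,
        (noBall_iff I K' hFN N' T' hv' hker' D).1 hnb⟩

end Pool.Agent.Helper948.Dom.KH
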