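import Pool.Agent.Helper948.Dom.Code

/- solved by helper125 -/


set_option autoImplicit false

namespace Pool.Agent.Helper948.Dom.KP1
open Pool.Agent.Helper948.Dom 






-- TARGET
theorem kp1_forall_lt {β : Type} [Primcodable β] {R : ℕ → β → Prop} (hf : PrimrecRel R) :
    PrimrecRel fun (n : ℕ) (y : β) => ∀ x < n, R x y :=
  (hf.forall_mem_list.comp (Primrec.list_range.comp Primrec.fst) Primrec.snd).of_eq (by simp)

theorem kp1_step : Primrec (fun p : List (List ℕ) × ℕ × ℕ => step p.1 p.2.1 p.2.2) := by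
  unfold step
  exact (Primrec.list_getD 0).comp
    ((Primrec.list_getD []).comp Primrec.fst (Primrec.fst.comp Primrec.snd))
    (Primrec.snd.comp Primrec.snd)

theorem kp1_linv : Primrec linv := by
  unfold linv
  refine Primrec.ite ?_ Primrec.succ ?_
  · exact Primrec.eq.comp (Primrec.nat_mod.comp Primrec.id (Primrec.const 2)) (Primrec.const 0)
  · exact Primrec.nat_sub.comp Primrec.id (Primrec.const 1)

theorem kp1_rep (c : ℕ) : Primrec fun n : ℕ => List.replicate n c := by
  refine (Primrec.list_map Primrec.list_range ((Primrec.const c).to₂)).of_eq fun n => ?_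
  simp [List.map_const']

theorem kp1_aw : Primrec aw := by
  unfold aw
  have hd : Primrec fun j : ℕ => j / 2 := Primrec.nat_div.comp Primrec.id (Primrec.const 2)
  have hm : Primrec fun j : ℕ => j % 2 := Primrec.nat_mod.comp Primrec.id (Primrec.const 2)
  exact Primrec.list_append.comp ((kp1_rep 2).comp hd)
    (Primrec.list_cons.comp hm ((kp1_rep 3).comp hd))

/-- `Primrec` facts about the basic functions (tools: `Primrec.list_getD`, `Primrec.list_foldl`, `Primrec.nat_rec`,
`Primrec.list_flatMap`, `Primrec.list_map`, `Primrec.list_range`, `PrimrecRel.forall_lt`, ...). `List.replicate n x` is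
`(List.range n).map (fun _ => x)`. -/
theorem primrec_enc : Primrec enc := by
  unfold enc
  exact Primrec.list_map Primrec.id ((Primrec.dom_finite lcode).comp Primrec.snd).to₂

theorem primrec_walk : Primrec (fun p : (List (List ℕ) × ℕ) × List ℕ => walk p.1.1 p.1.2 p.2) := by
  unfold walk
  have h : Primrec₂ (fun (p : (List (List ℕ) × ℕ) × List ℕ) (q : ℕ × ℕ) => step p.1.1 q.2 q.1) := by
    have h1 : Primrec (fun x : ((List (List ℕ) × ℕ) × List ℕ) × (ℕ × ℕ) =>
        (x.1.1.1, (x.2.2, x.2.1))) :=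
      Primrec.pair (Primrec.fst.comp (Primrec.fst.comp Primrec.fst))
        (Primrec.pair (Primrec.snd.comp Primrec.snd) (Primrec.fst.comp Primrec.snd))
    exact (kp1_step.comp h1).to₂
  exact Primrec.list_foldl Primrec.snd (Primrec.snd.comp Primrec.fst) h

theorem primrec_wordsEq : Primrec₂ wordsEq := by
  have hg : Primrec₂ (fun (L : ℕ) (p : ℕ × List (List ℕ)) =>
      p.2.flatMap (fun w => (List.range L).map (fun j => j :: w))) := by
    have h3 : Primrec₂ (fun (x : (ℕ × (ℕ × List (List ℕ))) × List ℕ) (j : ℕ) => j :: x.2) :=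
      (Primrec.list_cons.comp Primrec.snd (Primrec.snd.comp Primrec.fst)).to₂
    have h2 : Primrec₂ (fun (x : ℕ × (ℕ × List (List ℕ))) (w : List ℕ) =>
        (List.range x.1).map (fun j => j :: w)) :=
      (Primrec.list_map (Primrec.list_range.comp (Primrec.fst.comp Primrec.fst)) h3).to₂
    exact (Primrec.list_flatMap (Primrec.snd.comp Primrec.snd) h2).to₂
  have h := Primrec.nat_rec (Primrec.const ([[]] : List (List ℕ))) hg
  refine h.of_eq fun L n => ?_
  induction n with
  | zero => rfl
  | succ n ih =>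
    simp only [wordsEq] at ih ⊢
    rw [← ih]

theorem primrec_words : Primrec₂ words := by
  unfold words
  have h2 : Primrec₂ (fun (x : ℕ × ℕ) (k : ℕ) => wordsEq x.1 k) :=
    (primrec_wordsEq.comp (Primrec.fst.comp Primrec.fst) Primrec.snd).to₂
  exact (Primrec.list_flatMap (Primrec.list_range.comp (Primrec.succ.comp Primrec.snd)) h2).to₂

theorem primrec_conv : Primrec conv := by
  unfold conv
  exact Primrec.list_flatMap Primrec.id (kp1_aw.comp Primrec.snd).to₂

theorem primrec_aw : Primrec aw := kp1_aw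

theorem primrec_eqT : PrimrecPred (fun p : (ℕ × List (List ℕ)) × (List ℕ × List ℕ) =>
    EqT p.1.1 p.1.2 p.2.1 p.2.2) := by
  have h1 : PrimrecRel (fun (v : ℕ) (p : (ℕ × List (List ℕ)) × (List ℕ × List ℕ)) =>
      walk p.1.2 v p.2.1 = walk p.1.2 v p.2.2) := by
    have ha : Primrec (fun x : ℕ × ((ℕ × List (List ℕ)) × (List ℕ × List ℕ)) =>
        walk x.2.1.2 x.1 x.2.2.1) :=
      primrec_walk.comp (Primrec.pair (Primrec.pair (Primrec.snd.comp (Primrec.fst.comp Primrec.snd))
        Primrec.fst) (Primrec.fst.comp (Primrec.snd.comp Primrec.snd)))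
    have hb : Primrec (fun x : ℕ × ((ℕ × List (List ℕ)) × (List ℕ × List ℕ)) =>
        walk x.2.1.2 x.1 x.2.2.2) :=
      primrec_walk.comp (Primrec.pair (Primrec.pair (Primrec.snd.comp (Primrec.fst.comp Primrec.snd))
        Primrec.fst) (Primrec.snd.comp (Primrec.snd.comp Primrec.snd)))
    exact Primrec.eq.comp ha hb
  exact (kp1_forall_lt h1).comp (Primrec.fst.comp Primrec.fst) Primrec.id

theorem primrec_valid : PrimrecPred (fun p : ℕ × List (List ℕ) => Valid p.1 p.2) := by
  have hst : Primrec (fun x : ℕ × (ℕ × (ℕ × List (List ℕ))) => step x.2.2.2 x.2.1 x.1) :=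
    kp1_step.comp (Primrec.pair (Primrec.snd.comp (Primrec.snd.comp Primrec.snd))
      (Primrec.pair (Primrec.fst.comp Primrec.snd) Primrec.fst))
  have hst2 : Primrec (fun x : ℕ × (ℕ × (ℕ × List (List ℕ))) =>
      step x.2.2.2 (linv x.2.1) (step x.2.2.2 x.2.1 x.1)) :=
    kp1_step.comp (Primrec.pair (Primrec.snd.comp (Primrec.snd.comp Primrec.snd))
      (Primrec.pair (kp1_linv.comp (Primrec.fst.comp Primrec.snd)) hst))
  have h1 : PrimrecRel (fun (v : ℕ) (q : ℕ × (ℕ × List (List ℕ))) =>
      step q.2.2 q.1 v < q.2.1 ∧ step q.2.2 (linv q.1) (step q.2.2 q.1 v) = v) := by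
    refine PrimrecPred.and ?_ ?_
    · exact Primrec.nat_lt.comp hst (Primrec.fst.comp (Primrec.snd.comp Primrec.snd))
    · exact Primrec.eq.comp hst2 Primrec.fst
  have h2 : PrimrecRel (fun (j : ℕ) (q : ℕ × List (List ℕ)) => ∀ v < q.1,
      step q.2 j v < q.1 ∧ step q.2 (linv j) (step q.2 j v) = v) :=
    (kp1_forall_lt h1).comp (Primrec.fst.comp Primrec.snd) Primrec.id
  exact (kp1_forall_lt h2).comp (Primrec.const 4) Primrec.id

end Pool.Agent.Helper948.Dom.KP1
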