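import Pool.Agent.Helper948.Dom.Code
import Pool.Agent.Helper948.Dom.KP1

/- solved by helper833 -/


set_option autoImplicit false

namespace Pool.Agent.Helper948.Dom.KP2
open Pool.Agent.Helper948.Dom Pool.Agent.Helper948.Dom.KP1








-- TARGET
abbrev PT833 := List (Fin 2 × Bool) × ℕ
abbrev C833 := Inp × (ℕ × List (List ℕ))
abbrev B3833 := (C833 × ℕ) × List ℕ
abbrev B4833 := B3833 × List ℕ

theorem r1_833 : PrimrecRel (fun (q : PT833) (b : B4833) =>
    b.1.2.getD (walk b.1.1.1.2.2 b.1.1.2 (b.2 ++ enc q.1)) 0 = q.2) := by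
  have hq : Primrec (fun z : PT833 × B4833 => z.1) := Primrec.fst
  have hb : Primrec (fun z : PT833 × B4833 => z.2) := Primrec.snd
  have hl : Primrec (fun z : PT833 × B4833 => z.2.1.2) := Primrec.snd.comp (Primrec.fst.comp hb)
  have hg : Primrec (fun z : PT833 × B4833 => z.2.2) := Primrec.snd.comp hb
  have hpu : Primrec (fun z : PT833 × B4833 => z.2.1.1) := Primrec.fst.comp (Primrec.fst.comp hb)
  have hu : Primrec (fun z : PT833 × B4833 => z.2.1.1.2) := Primrec.snd.comp hpu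
  have hT : Primrec (fun z : PT833 × B4833 => z.2.1.1.1.2.2) :=
    Primrec.snd.comp (Primrec.snd.comp (Primrec.fst.comp hpu))
  have he : Primrec (fun z : PT833 × B4833 => enc z.1.1) := primrec_enc.comp (Primrec.fst.comp hq)
  have ha : Primrec (fun z : PT833 × B4833 => z.2.2 ++ enc z.1.1) := Primrec.list_append.comp hg he
  have hw : Primrec (fun z : PT833 × B4833 =>
      walk z.2.1.1.1.2.2 z.2.1.1.2 (z.2.2 ++ enc z.1.1)) :=
    primrec_walk.comp ((hT.pair hu).pair ha)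
  have hd : Primrec (fun z : PT833 × B4833 =>
      z.2.1.2.getD (walk z.2.1.1.1.2.2 z.2.1.1.2 (z.2.2 ++ enc z.1.1)) 0) :=
    (Primrec.list_getD 0).comp hl hw
  have hn : Primrec (fun z : PT833 × B4833 => z.1.2) := Primrec.snd.comp hq
  exact Primrec.eq.comp hd hn

theorem r4_833 : PrimrecRel (fun (g : List ℕ) (b : B3833) =>
    ∀ P ∈ b.1.1.1.2, ¬ ∀ q ∈ P,
      b.2.getD (walk b.1.1.2.2 b.1.2 (g ++ enc q.1)) 0 = q.2) := by
  have h3 := (r1_833.forall_mem_list.not).forall_mem_list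
  have hg : Primrec (fun z : List ℕ × B3833 => z.1) := Primrec.fst
  have hb : Primrec (fun z : List ℕ × B3833 => z.2) := Primrec.snd
  have hI : Primrec (fun z : List ℕ × B3833 => z.2.1.1.1.2) :=
    Primrec.snd.comp (Primrec.fst.comp (Primrec.fst.comp (Primrec.fst.comp hb)))
  exact h3.comp hI (hb.pair hg)

theorem r6_833 : PrimrecRel (fun (l : List ℕ) (b : C833 × ℕ) =>
    ∀ g ∈ words 4 b.1.2.1, ∀ P ∈ b.1.1.2, ¬ ∀ q ∈ P,
      l.getD (walk b.1.2.2 b.2 (g ++ enc q.1)) 0 = q.2) := by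
  have h5 := r4_833.forall_mem_list
  have hl : Primrec (fun z : List ℕ × (C833 × ℕ) => z.1) := Primrec.fst
  have hb : Primrec (fun z : List ℕ × (C833 × ℕ) => z.2) := Primrec.snd
  have hN : Primrec (fun z : List ℕ × (C833 × ℕ) => z.2.1.2.1) :=
    Primrec.fst.comp (Primrec.snd.comp (Primrec.fst.comp hb))
  have hw : Primrec (fun z : List ℕ × (C833 × ℕ) => words 4 z.2.1.2.1) :=
    primrec_words.comp (Primrec.const 4) hN
  exact h5.comp hw (hb.pair hl)

theorem r8_833 : PrimrecRel (fun (u : ℕ) (p : C833) =>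
    ∃ l ∈ wordsEq p.1.1 p.2.1, ∀ g ∈ words 4 p.2.1, ∀ P ∈ p.1.2, ¬ ∀ q ∈ P,
      l.getD (walk p.2.2 u (g ++ enc q.1)) 0 = q.2) := by
  have h7 := r6_833.exists_mem_list
  have hu : Primrec (fun z : ℕ × C833 => z.1) := Primrec.fst
  have hp : Primrec (fun z : ℕ × C833 => z.2) := Primrec.snd
  have hw : Primrec (fun z : ℕ × C833 => wordsEq z.2.1.1 z.2.2.1) :=
    primrec_wordsEq.comp (Primrec.fst.comp (Primrec.fst.comp hp))
      (Primrec.fst.comp (Primrec.snd.comp hp))
  exact h7.comp hw (hp.pair hu)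

/-- `Commit` is primitive recursive (bounded quantifiers over lists: `PrimrecRel.exists_mem_list`, `PrimrecRel.forall_mem_list`,
`PrimrecPred.not`). -/
theorem primrec_commit : PrimrecPred (fun p : Inp × (ℕ × List (List ℕ)) => Commit p.1 p.2.1 p.2.2) := by
  have h9 := r8_833.exists_mem_list
  have h10 := h9.comp (Primrec.list_range.comp (Primrec.fst.comp (Primrec.snd (α := Inp)
    (β := ℕ × List (List ℕ))))) Primrec.id
  refine h10.of_eq ?_
  intro p
  constructor
  · rintro ⟨u, hu, l, hl, h⟩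
    exact ⟨u, List.mem_range.1 hu, l, hl, h⟩
  · rintro ⟨u, hu, l, hl, h⟩
    exact ⟨u, List.mem_range.2 hu, l, hl, h⟩

end Pool.Agent.Helper948.Dom.KP2
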