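import Pool.Agent.Helper948.Dom.Code
import Pool.Agent.Helper948.Dom.KP1

/- solved by helper214 -/


set_option autoImplicit false

namespace Pool.Agent.Helper948.Dom.KP3
open Pool.Agent.Helper948.Dom Pool.Agent.Helper948.Dom.KP1








-- TARGET
theorem pk_forall {α β : Type} [Primcodable α] [Primcodable β] {f : α → List β} (hf : Primrec f)
    {R : α × β → Prop} (hR : PrimrecPred R) : PrimrecPred (fun a => ∀ b ∈ f a, R (a, b)) :=
  (PrimrecRel.forall_mem_list (R := fun b a => R (a, b))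
    (PrimrecPred.comp hR (Primrec.pair Primrec.snd Primrec.fst)).primrecRel).comp hf Primrec.id

theorem pk_exists_lt {α : Type} [Primcodable α] {f : α → ℕ} (hf : Primrec f)
    {R : α × ℕ → Prop} (hR : PrimrecPred R) : PrimrecPred (fun a => ∃ b < f a, R (a, b)) := by
  have h1 : PrimrecPred (fun a => ∃ b ∈ List.range (f a), R (a, b)) :=
    (PrimrecRel.exists_mem_list (R := fun b a => R (a, b))
      (PrimrecPred.comp hR (Primrec.pair Primrec.snd Primrec.fst)).primrecRel).comp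
      (Primrec.list_range.comp hf) Primrec.id
  exact h1.of_eq (fun a => by simp only [List.mem_range])

theorem pk_imp {α : Type} [Primcodable α] {p q : α → Prop} (hp : PrimrecPred p)
    (hq : PrimrecPred q) : PrimrecPred (fun a => p a → q a) :=
  (hp.not.or hq).of_eq (fun a => by tauto)

theorem pk_lab : Primrec (fun p : (ℕ × List ℕ) × List ℕ => lab p.1.1 p.1.2 p.2) := by
  have h1 : Primrec (fun p : (ℕ × List ℕ) × List ℕ => words 4 p.1.1) :=
    primrec_words.comp (Primrec.const 4) (Primrec.fst.comp Primrec.fst)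
  have h2 : Primrec (fun p : (ℕ × List ℕ) × List ℕ => (words 4 p.1.1).idxOf p.2) := by
    refine (Primrec.list_idxOf.comp Primrec.snd h1).of_eq (fun p => ?_)
    congr 1
    exact lawful_beq_subsingleton _ _
  exact (Primrec.list_getD 0).comp (Primrec.snd.comp Primrec.fst) h2

/-- context -/
abbrev PkX : Type := (Inp × (ℕ × List (List ℕ))) × (ℕ × List ℕ)

theorem pk_part1 : PrimrecPred (fun p : PkX =>
    ∀ w ∈ words 4 p.2.1, ∀ w' ∈ words 4 p.2.1, EqT p.1.2.1 p.1.2.2 w w' →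
      lab p.2.1 p.2.2 w = lab p.2.1 p.2.2 w') := by
  have hw : Primrec (fun p : PkX => words 4 p.2.1) :=
    primrec_words.comp (Primrec.const 4) (Primrec.fst.comp Primrec.snd)
  refine pk_forall hw (R := fun x : PkX × List ℕ => ∀ w' ∈ words 4 x.1.2.1,
    EqT x.1.1.2.1 x.1.1.2.2 x.2 w' → lab x.1.2.1 x.1.2.2 x.2 = lab x.1.2.1 x.1.2.2 w') ?_
  refine pk_forall (f := fun x : PkX × List ℕ => words 4 x.1.2.1) (hw.comp Primrec.fst)
    (R := fun y : (PkX × List ℕ) × List ℕ => EqT y.1.1.1.2.1 y.1.1.1.2.2 y.1.2 y.2 →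
      lab y.1.1.2.1 y.1.1.2.2 y.1.2 = lab y.1.1.2.1 y.1.1.2.2 y.2) ?_
  have hX : Primrec (fun y : (PkX × List ℕ) × List ℕ => y.1.1) := Primrec.fst.comp Primrec.fst
  refine pk_imp ?_ ?_
  · exact primrec_eqT.comp (Primrec.pair (Primrec.snd.comp (Primrec.fst.comp hX))
      (Primrec.pair (Primrec.snd.comp Primrec.fst) Primrec.snd))
  · have k1 : Primrec (fun y : (PkX × List ℕ) × List ℕ => ((y.1.1.2, y.1.2) : (ℕ × List ℕ) × List ℕ)) :=
      (Primrec.pair (Primrec.snd.comp hX) (Primrec.snd.comp Primrec.fst))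
    have k2 : Primrec (fun y : (PkX × List ℕ) × List ℕ => ((y.1.1.2, y.2) : (ℕ × List ℕ) × List ℕ)) :=
      (Primrec.pair (Primrec.snd.comp hX) Primrec.snd)
    have h1 := pk_lab.comp k1
    have h2 := pk_lab.comp k2
    exact PrimrecRel.comp (R := fun a b : ℕ => a = b) (Primrec.eq (α := ℕ)) h1 h2

theorem pk_part2 : PrimrecPred (fun p : PkX =>
    ∀ g ∈ words 4 p.2.1, ∀ P ∈ p.1.1.2, (∀ q ∈ P, g.length + q.1.length ≤ p.2.1) →
      ¬ ∀ q ∈ P, lab p.2.1 p.2.2 (g ++ enc q.1) = q.2) := by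
  have hw : Primrec (fun p : PkX => words 4 p.2.1) :=
    primrec_words.comp (Primrec.const 4) (Primrec.fst.comp Primrec.snd)
  refine pk_forall hw (R := fun x : PkX × List ℕ => ∀ P ∈ x.1.1.1.2,
    (∀ q ∈ P, x.2.length + q.1.length ≤ x.1.2.1) →
      ¬ ∀ q ∈ P, lab x.1.2.1 x.1.2.2 (x.2 ++ enc q.1) = q.2) ?_
  refine pk_forall (f := fun x : PkX × List ℕ => x.1.1.1.2)
    (Primrec.snd.comp (Primrec.fst.comp (Primrec.fst.comp Primrec.fst)))
    (R := fun y : (PkX × List ℕ) × List (List (Fin 2 × Bool) × ℕ) =>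
      (∀ q ∈ y.2, y.1.2.length + q.1.length ≤ y.1.1.2.1) →
      ¬ ∀ q ∈ y.2, lab y.1.1.2.1 y.1.1.2.2 (y.1.2 ++ enc q.1) = q.2) ?_
  refine pk_imp ?_ (PrimrecPred.not ?_)
  · refine pk_forall (f := fun y : (PkX × List ℕ) × List (List (Fin 2 × Bool) × ℕ) => y.2)
      Primrec.snd
      (R := fun z : ((PkX × List ℕ) × List (List (Fin 2 × Bool) × ℕ)) ×
          (List (Fin 2 × Bool) × ℕ) => z.1.1.2.length + z.2.1.length ≤ z.1.1.1.2.1) ?_
    have h1 : Primrec (fun z : ((PkX × List ℕ) × List (List (Fin 2 × Bool) × ℕ)) ×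
          (List (Fin 2 × Bool) × ℕ) => z.1.1.2.length) :=
      Primrec.list_length.comp (Primrec.snd.comp (Primrec.fst.comp Primrec.fst))
    have h2 : Primrec (fun z : ((PkX × List ℕ) × List (List (Fin 2 × Bool) × ℕ)) ×
          (List (Fin 2 × Bool) × ℕ) => z.2.1.length) :=
      Primrec.list_length.comp (Primrec.fst.comp Primrec.snd)
    have h3 : Primrec (fun z : ((PkX × List ℕ) × List (List (Fin 2 × Bool) × ℕ)) ×
          (List (Fin 2 × Bool) × ℕ) => z.1.1.1.2.1) :=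
      Primrec.fst.comp (Primrec.snd.comp (Primrec.fst.comp (Primrec.fst.comp Primrec.fst)))
    have h4 : Primrec (fun z : ((PkX × List ℕ) × List (List (Fin 2 × Bool) × ℕ)) ×
          (List (Fin 2 × Bool) × ℕ) => z.1.1.2.length + z.2.1.length) :=
      Primrec.nat_add.comp h1 h2
    exact Primrec.nat_le.comp h4 h3
  · refine pk_forall (f := fun y : (PkX × List ℕ) × List (List (Fin 2 × Bool) × ℕ) => y.2)
      Primrec.snd
      (R := fun z : ((PkX × List ℕ) × List (List (Fin 2 × Bool) × ℕ)) ×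
          (List (Fin 2 × Bool) × ℕ) =>
          lab z.1.1.1.2.1 z.1.1.1.2.2 (z.1.1.2 ++ enc z.2.1) = z.2.2) ?_
    have h1 : Primrec (fun z : ((PkX × List ℕ) × List (List (Fin 2 × Bool) × ℕ)) ×
          (List (Fin 2 × Bool) × ℕ) => z.1.1.1.2) :=
      Primrec.snd.comp (Primrec.fst.comp (Primrec.fst.comp Primrec.fst))
    have h2 : Primrec (fun z : ((PkX × List ℕ) × List (List (Fin 2 × Bool) × ℕ)) ×
          (List (Fin 2 × Bool) × ℕ) => z.1.1.2 ++ enc z.2.1) :=
      Primrec.list_append.comp (Primrec.snd.comp (Primrec.fst.comp Primrec.fst))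
        (primrec_enc.comp (Primrec.fst.comp Primrec.snd))
    have h3 := pk_lab.comp (Primrec.pair h1 h2)
    have h4 : Primrec (fun z : ((PkX × List ℕ) × List (List (Fin 2 × Bool) × ℕ)) ×
          (List (Fin 2 × Bool) × ℕ) => z.2.2) := Primrec.snd.comp Primrec.snd
    exact PrimrecRel.comp (R := fun a b : ℕ => a = b) (Primrec.eq (α := ℕ)) h3 h4

theorem pk_ball : PrimrecPred (fun p : PkX => BallOK p.1.1 p.1.2.1 p.1.2.2 p.2.1 p.2.2) :=
  pk_part1.and pk_part2

/-- `Kill` is primitive recursive. -/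
theorem primrec_kill : PrimrecPred (fun p : (Inp × ℕ) × (ℕ × List (List ℕ)) =>
    Kill p.1.1 p.1.2 p.2.1 p.2.2) := by
  refine pk_exists_lt (f := fun p : (Inp × ℕ) × (ℕ × List (List ℕ)) => p.1.2 + 1)
    (Primrec.succ.comp (Primrec.snd.comp Primrec.fst))
    (R := fun x : ((Inp × ℕ) × (ℕ × List (List ℕ))) × ℕ => 2 * x.2 + 1 ≤ x.1.1.2 ∧
      ∀ Y ∈ wordsEq x.1.1.1.1 (words 4 x.2).length, ¬ BallOK x.1.1.1 x.1.2.1 x.1.2.2 x.2 Y) ?_
  refine PrimrecPred.and ?_ ?_
  · exact Primrec.nat_le.comp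
      (Primrec.succ.comp (Primrec.nat_mul.comp (Primrec.const 2) Primrec.snd))
      (Primrec.snd.comp (Primrec.fst.comp Primrec.fst))
  · refine pk_forall
      (f := fun x : ((Inp × ℕ) × (ℕ × List (List ℕ))) × ℕ =>
        wordsEq x.1.1.1.1 (words 4 x.2).length)
      (primrec_wordsEq.comp
        (Primrec.fst.comp (Primrec.fst.comp (Primrec.fst.comp Primrec.fst)))
        (Primrec.list_length.comp (primrec_words.comp (Primrec.const 4) Primrec.snd)))
      (R := fun y : (((Inp × ℕ) × (ℕ × List (List ℕ))) × ℕ) × List ℕ =>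
        ¬ BallOK y.1.1.1.1 y.1.1.2.1 y.1.1.2.2 y.1.2 y.2) ?_
    have g1 : Primrec (fun y : (((Inp × ℕ) × (ℕ × List (List ℕ))) × ℕ) × List ℕ => y.1.1.1.1) :=
      Primrec.fst.comp (Primrec.fst.comp (Primrec.fst.comp Primrec.fst))
    have g2 : Primrec (fun y : (((Inp × ℕ) × (ℕ × List (List ℕ))) × ℕ) × List ℕ => y.1.1.2) :=
      Primrec.snd.comp (Primrec.fst.comp Primrec.fst)
    have g3 : Primrec (fun y : (((Inp × ℕ) × (ℕ × List (List ℕ))) × ℕ) × List ℕ => y.1.2) :=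
      Primrec.snd.comp Primrec.fst
    have g4 : Primrec (fun y : (((Inp × ℕ) × (ℕ × List (List ℕ))) × ℕ) × List ℕ => y.2) :=
      Primrec.snd
    have g5 : Primrec (fun y : (((Inp × ℕ) × (ℕ × List (List ℕ))) × ℕ) × List ℕ =>
        (((y.1.1.1.1, y.1.1.2), (y.1.2, y.2)) : PkX)) :=
      Primrec.pair (Primrec.pair g1 g2) (Primrec.pair g3 g4)
    have g6 := pk_ball.comp g5
    exact PrimrecPred.not g6

end Pool.Agent.Helper948.Dom.KP3
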