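import Pool.Agent.Helper948.Dom.Code
import Pool.Agent.Helper948.Dom.KP1
import Pool.Agent.Helper948.Dom.KP2
import Pool.Agent.Helper948.Dom.KP3

/- solved by helper782 -/


set_option autoImplicit false

namespace Pool.Agent.Helper948.Dom.KP4
open Pool.Agent.Helper948.Dom Pool.Agent.Helper948.Dom.KP1 Pool.Agent.Helper948.Dom.KP2 Pool.Agent.Helper948.Dom.KP3








-- TARGET
section okaux
variable {β : Type} [Primcodable β]

theorem pr_forall_list {α : Type} [Primcodable α] {R : α → β → Prop}
    (hR : PrimrecRel R) {f : β → List α} (hf : Primrec f) :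
    PrimrecPred (fun b => ∀ a ∈ f b, R a b) :=
  hR.forall_mem_list.comp hf Primrec.id

theorem pr_forall_lt {R : ℕ → β → Prop}
    (hR : PrimrecRel R) {f : β → ℕ} (hf : Primrec f) :
    PrimrecPred (fun b => ∀ a < f b, R a b) :=
  (pr_forall_list hR (Primrec.list_range.comp hf)).of_eq (by simp)

theorem pr_imp {p q : β → Prop} (hp : PrimrecPred p)
    (hq : PrimrecPred q) : PrimrecPred (fun b => p b → q b) :=
  (hp.not.or hq).of_eq (fun _ => imp_iff_not_or.symm)

theorem primrec_step' {T : β → List (List ℕ)} {j v : β → ℕ} (hT : Primrec T) (hj : Primrec j)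
    (hv : Primrec v) : Primrec (fun b => step (T b) (j b) (v b)) :=
  (Primrec.list_getD 0).comp ((Primrec.list_getD []).comp hT hj) hv

theorem primrec_eqT' {N : β → ℕ} {T : β → List (List ℕ)} {r r' : β → List ℕ}
    (hN : Primrec N) (hT : Primrec T) (hr : Primrec r) (hr' : Primrec r') :
    PrimrecPred (fun b => EqT (N b) (T b) (r b) (r' b)) :=
  primrec_eqT.comp ((hN.pair hT).pair (hr.pair hr'))

theorem primrec_powself : Primrec (fun n : ℕ => n ^ n) := by
  have h : Primrec (fun a : ℕ => Nat.rec (motive := fun _ => ℕ) 1 (fun _ IH => IH * a) a) :=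
    Primrec.nat_rec' (f := fun n : ℕ => n) (g := fun _ => 1) (h := fun n p => p.2 * n)
      Primrec.id (Primrec.const 1)
      (Primrec.nat_mul.comp (Primrec.snd.comp Primrec.snd) Primrec.fst).to₂
  refine h.of_eq ?_
  intro n
  have h2 : ∀ m : ℕ, Nat.rec (motive := fun _ => ℕ) 1 (fun _ IH => IH * n) m = n ^ m := by
    intro m
    induction m with
    | zero => rfl
    | succ m ih => rw [pow_succ, ← ih]
  exact h2 n

theorem okaux_c {N : β → ℕ} {T T' : β → List (List ℕ)} (hN : Primrec N) (hT : Primrec T)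
    (hT' : Primrec T') :
    PrimrecPred (fun b => ∀ v < N b, ∀ j < 4, step (T' b) j v = step (T b) j v) := by
  have h1 : PrimrecRel (fun (j : ℕ) (q : ℕ × β) =>
      step (T' q.2) j q.1 = step (T q.2) j q.1) := by
    have s1 := primrec_step' (β := ℕ × (ℕ × β)) (hT'.comp (Primrec.snd.comp Primrec.snd))
      Primrec.fst (Primrec.fst.comp Primrec.snd)
    have s2 := primrec_step' (β := ℕ × (ℕ × β)) (hT.comp (Primrec.snd.comp Primrec.snd))
      Primrec.fst (Primrec.fst.comp Primrec.snd)
    exact Primrec.eq.comp s1 s2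
  have h2 := pr_forall_lt h1 (Primrec.const 4)
  have h3 : PrimrecRel (fun (v : ℕ) (b : β) => ∀ j < 4,
      step (T' b) j v = step (T b) j v) := h2
  exact pr_forall_lt h3 hN

theorem okaux_e {c N N' : β → ℕ} {T T' : β → List (List ℕ)} (hc : Primrec c) (hN : Primrec N)
    (hN' : Primrec N') (hT : Primrec T) (hT' : Primrec T') :
    PrimrecPred (fun b => ∀ r ∈ words (2 * (c b + 1)) (N' b ^ N' b),
        EqT (N b) (T b) (conv r) [] → EqT (N' b) (T' b) (conv r) []) := by
  have hL : Primrec (fun b => words (2 * (c b + 1)) (N' b ^ N' b)) :=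
    primrec_words.comp (Primrec.nat_mul.comp (Primrec.const 2) (Primrec.succ.comp hc))
      (primrec_powself.comp hN')
  have a1 := primrec_eqT' (β := List ℕ × β) (hN.comp Primrec.snd) (hT.comp Primrec.snd)
    (primrec_conv.comp Primrec.fst) (Primrec.const [])
  have a2 := primrec_eqT' (β := List ℕ × β) (hN'.comp Primrec.snd) (hT'.comp Primrec.snd)
    (primrec_conv.comp Primrec.fst) (Primrec.const [])
  have h1 : PrimrecRel (fun (r : List ℕ) (b : β) =>
      EqT (N b) (T b) (conv r) [] → EqT (N' b) (T' b) (conv r) []) := pr_imp a1 a2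
  exact pr_forall_list h1 hL

theorem okaux_f {c' N' : β → ℕ} {T' : β → List (List ℕ)} (hc : Primrec c')
    (hN' : Primrec N') (hT' : Primrec T') :
    PrimrecPred (fun b => ∀ r ∈ words (2 * c' b) (N' b ^ N' b),
        ¬ EqT (N' b) (T' b) (conv r) (aw (2 * c' b))) := by
  have hL : Primrec (fun b => words (2 * c' b) (N' b ^ N' b)) :=
    primrec_words.comp (Primrec.nat_mul.comp (Primrec.const 2) hc)
      (primrec_powself.comp hN')
  have a2 := primrec_eqT' (β := List ℕ × β) (hN'.comp Primrec.snd) (hT'.comp Primrec.snd)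
    (primrec_conv.comp Primrec.fst)
    (primrec_aw.comp (Primrec.nat_mul.comp (Primrec.const 2) (hc.comp Primrec.snd)))
  have h1 : PrimrecRel (fun (r : List ℕ) (b : β) =>
      ¬ EqT (N' b) (T' b) (conv r) (aw (2 * c' b))) := a2.not
  exact pr_forall_list h1 hL

theorem okaux_all {c c' N N' : β → ℕ} {T T' : β → List (List ℕ)} {I : β → Inp}
    (hc : Primrec c) (hc' : Primrec c') (hN : Primrec N)
    (hN' : Primrec N') (hT : Primrec T) (hT' : Primrec T') (hI : Primrec I) :
    PrimrecPred (fun b => OkStep (c b, N b, T b) (I b) (c' b, N' b, T' b)) := by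
  have pa : PrimrecPred (fun b => Valid (N' b) (T' b)) := primrec_valid.comp (hN'.pair hT')
  have pb : PrimrecPred (fun b => N b ≤ N' b) := Primrec.nat_le.comp hN hN'
  have pd : PrimrecPred (fun b => c b < c' b) := Primrec.nat_lt.comp hc hc'
  have pg1 : PrimrecPred (fun b => Commit (I b) (N' b) (T' b)) :=
    primrec_commit.comp (hI.pair (hN'.pair hT'))
  have pg2 : PrimrecPred (fun b => Kill (I b) (c' b) (N' b) (T' b)) :=
    primrec_kill.comp ((hI.pair hc').pair (hN'.pair hT'))
  exact pa.and (pb.and ((okaux_c hN hT hT').and (pd.and ((okaux_e hc hN hN' hT hT').and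
    ((okaux_f hc' hN' hT').and (pg1.or pg2))))))

end okaux

/-- `OkStep` is primitive recursive. -/
theorem primrec_okStep : PrimrecPred (fun p : (Code × Inp) × Code => OkStep p.1.1 p.1.2 p.2) := by
  have hc : Primrec (fun p : (Code × Inp) × Code => p.1.1) := Primrec.fst.comp Primrec.fst
  have hI : Primrec (fun p : (Code × Inp) × Code => p.1.2) := Primrec.snd.comp Primrec.fst
  have hc' : Primrec (fun p : (Code × Inp) × Code => p.2) := Primrec.snd
  exact okaux_all (Primrec.fst.comp hc) (Primrec.fst.comp hc')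
    (Primrec.fst.comp (Primrec.snd.comp hc)) (Primrec.fst.comp (Primrec.snd.comp hc'))
    (Primrec.snd.comp (Primrec.snd.comp hc)) (Primrec.snd.comp (Primrec.snd.comp hc')) hI


end Pool.Agent.Helper948.Dom.KP4
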