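import Pool.Agent.Helper948.Dom.Defs

/- solved by helper845 -/


set_option autoImplicit false

namespace Pool.Agent.Helper948.Dom.KQ
open Pool.Agent.Helper948.Dom 


-- TARGET
/-- Computable choice of a sequence. Proof: `next : α × ℕ →. α` searches (`Nat.rfind` / `Partrec.rfind`) for the least `k` such that
`decode k = some b` with `R a n b`; iterate with `Partrec.nat_rec`: `c' : ℕ →. α`; by induction `c' n` is defined and its value is
good, so `c n := (c' n).get _` is computable and satisfies `R (c n) n (c (n+1))`. -/
theorem computable_iter {α : Type} [Primcodable α] (R : α → ℕ → α → Prop)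
    (hR : PrimrecPred (fun p : (α × ℕ) × α => R p.1.1 p.1.2 p.2)) (good : α → Prop) (c0 : α)
    (h0 : good c0) (hex : ∀ a n, good a → ∃ b, R a n b)
    (hgood : ∀ a n b, good a → R a n b → good b) :
    ∃ c : ℕ → α, Computable c ∧ c 0 = c0 ∧ ∀ n, R (c n) n (c (n + 1)) := by
  classical
  let f : α × ℕ → ℕ → Option α := fun p k =>
    (Encodable.decode k : Option α).bind (fun b => if R p.1 p.2 b then some b else none)
  have hf : Computable₂ f := by
    refine Primrec₂.to_comp ?_
    refine Primrec.option_bind (Primrec.decode.comp Primrec.snd) ?_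
    refine Primrec.ite (c := fun q : ((α × ℕ) × ℕ) × α => R q.1.1.1 q.1.1.2 q.2) ?_ ?_ ?_
    · exact hR.comp ((Primrec.fst.comp Primrec.fst).pair Primrec.snd)
    · exact Primrec.option_some.comp Primrec.snd
    · exact Primrec.const none
  let next : α × ℕ → Part α := fun p => Nat.rfindOpt (f p)
  have hnext : Partrec next := Partrec.rfindOpt hf
  have hspec : ∀ p b, b ∈ next p → R p.1 p.2 b := by
    intro p b hb
    obtain ⟨k, hk⟩ := Nat.rfindOpt_spec hb
    simp only [f, Option.mem_def, Option.bind_eq_some_iff] at hk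
    obtain ⟨b', _, hb'⟩ := hk
    by_cases h : R p.1 p.2 b'
    · rw [if_pos h] at hb'
      cases hb'
      exact h
    · rw [if_neg h] at hb'
      cases hb'
  have hdom : ∀ a n, good a → ∃ b, b ∈ next (a, n) ∧ R a n b ∧ good b := by
    intro a n ha
    obtain ⟨b, hb⟩ := hex a n ha
    have hd : (next (a, n)).Dom := by
      refine Nat.rfindOpt_dom.2 ⟨Encodable.encode b, b, ?_⟩
      simp only [f, Option.mem_def, Encodable.encodek, Option.bind_some]
      rw [if_pos hb]
    refine ⟨(next (a, n)).get hd, Part.get_mem hd, hspec (a, n) _ (Part.get_mem hd), ?_⟩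
    exact hgood a n _ ha (hspec (a, n) _ (Part.get_mem hd))
  let c' : ℕ → Part α := fun n =>
    Nat.rec (Part.some c0) (fun y IH => IH.bind fun i => next (i, y)) n
  have hc' : Partrec c' := by
    have h := Partrec.nat_rec (α := ℕ) (σ := α) (f := fun n => n) (g := fun _ => Part.some c0)
      (h := fun _ p => next (p.2, p.1)) Computable.id (Computable.const c0)
      (hnext.comp ((Computable.snd.comp Computable.snd).pair (Computable.fst.comp Computable.snd)))
    exact h
  have hsucc : ∀ n, c' (n + 1) = (c' n).bind fun i => next (i, n) := fun n => rfl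
  have hgd : ∀ n, ∃ a, a ∈ c' n ∧ good a := by
    intro n
    induction n with
    | zero => exact ⟨c0, Part.mem_some c0, h0⟩
    | succ n ih =>
      obtain ⟨a, ha, hga⟩ := ih
      obtain ⟨b, hb, _, hgb⟩ := hdom a n hga
      refine ⟨b, ?_, hgb⟩
      rw [hsucc]
      exact Part.mem_bind ha hb
  choose c hc hcg using hgd
  have hce : ∀ n, c' n = Part.some (c n) := fun n => Part.eq_some_iff.2 (hc n)
  refine ⟨c, ?_, ?_, ?_⟩
  · exact hc'.of_eq hce
  · have := hc 0
    exact Part.mem_unique this (Part.mem_some c0)
  · intro n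
    have h1 := hc (n + 1)
    rw [hsucc, hce n, Part.bind_some] at h1
    exact hspec (c n, n) _ h1

end Pool.Agent.Helper948.Dom.KQ
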