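import Pool.Agent.Helper948.Dom.JA
import Pool.Agent.Helper948.Dom.JB
import Pool.Agent.Helper948.Dom.JC
import Pool.Agent.Helper948.Dom.JD
import Pool.Agent.Helper948.Dom.JE
import Pool.Agent.Helper948.Dom.JF
import Pool.Agent.Helper948.Dom.JG
import Pool.Agent.Helper948.Dom.JH
import Pool.Agent.Helper948.Dom.JI
import Pool.Agent.Helper948.Dom.JJ
import Pool.Agent.Helper948.Dom.JK
import Pool.Agent.Helper948.Dom.JL
import Pool.Agent.Helper948.Dom.JM
import Pool.Agent.Helper948.Dom.JN
import Pool.Agent.Helper948.Dom.KA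
import Pool.Agent.Helper948.Dom.KB
import Pool.Agent.Helper948.Dom.KC
import Pool.Agent.Helper948.Dom.KD
import Pool.Agent.Helper948.Dom.KE
import Pool.Agent.Helper948.Dom.KF
import Pool.Agent.Helper948.Dom.KG
import Pool.Agent.Helper948.Dom.KH
import Pool.Agent.Helper948.Dom.KP1
import Pool.Agent.Helper948.Dom.KP2
import Pool.Agent.Helper948.Dom.KP3
import Pool.Agent.Helper948.Dom.KP4
import Pool.Agent.Helper948.Dom.KQ

set_option autoImplicit false

namespace Pool.Agent.Helper948.Dom

open JA JB JC JD JE JF JG JH JI JJ JK JL JM JN KA KB KC KD KE KF KG KH KP1 KP2 KP3 KP4 KQ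

/-- the starting code: `a` swaps two points, `t` is trivial -/
def c0 : Code := (0, 2, [[1, 0], [1, 0], [0, 1], [0, 1]])

theorem c0_valid : Valid c0.2.1 c0.2.2 := by
  intro j hj v hv
  change v < 2 at hv
  interval_cases j <;> interval_cases v <;> simp [c0, step, linv]

/-- the code is good -/
def GoodCode (c : Code) : Prop :=
  Valid c.2.1 c.2.2 ∧ ∃ K : Subgroup F, FN K ∧ IsKer K c.2.1 c.2.2 ∧ ND K c.1

theorem c0_good : GoodCode c0 := by
  refine ⟨c0_valid, ?_⟩
  obtain ⟨K, hK, hker⟩ := valid_ker _ _ c0_valid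
  refine ⟨K, hK, hker, ?_⟩
  intro w hw hmem
  have hw1 : w = 1 := by
    have : W (c0.1) = ⊥ := by
      rw [W, Subgroup.closure_eq_bot_iff]
      rintro g ⟨i, hi, rfl⟩
      simp [c0] at hi
    rw [this] at hw
    simpa using hw
  subst hw1
  have h1 : (A c0.1) * (1 : F)⁻¹ = FreeGroup.mk [(0, true)] := by
    simp [c0, A_zero, fa, FreeGroup.of]
  rw [h1, hker] at hmem
  have := hmem 0 (by simp [c0])
  simp [c0, walk, enc, lcode, step] at this

theorem good_step (c c' : Code) (I : Inp) (h : GoodCode c) (hs : OkStep c I c') : GoodCode c' := by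
  obtain ⟨hv, K, hK, hker, hND⟩ := h
  obtain ⟨K', hK', hker'⟩ := valid_ker _ _ hs.1
  exact ⟨hs.1, K', hK', hker', (okStep_sound c c' I K K' hK hK' hv hker hker' hs).2⟩

/-- enumeration of the inputs -/
def inp (n : ℕ) : Inp := ((Encodable.decode n : Option Inp)).getD (0, [])

theorem inp_encode (I : Inp) : inp (Encodable.encode I) = I := by
  simp [inp]

theorem primrec_inp : Primrec inp := by
  unfold inp
  exact Primrec.option_getD.comp Primrec.decode (Primrec.const _)

theorem exists_seq : ∃ c : ℕ → Code, Computable c ∧ c 0 = c0 ∧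
    ∀ n, OkStep (c n) (inp n) (c (n + 1)) := by
  refine computable_iter (fun c n c' => OkStep c (inp n) c') ?_ GoodCode c0 c0_good ?_ ?_
  · have h := primrec_okStep
    have hf : Primrec (fun p : (Code × ℕ) × Code => (((p.1.1, inp p.1.2), p.2) : (Code × Inp) × Code)) :=
      Primrec.pair (Primrec.pair (Primrec.fst.comp Primrec.fst)
        (primrec_inp.comp (Primrec.snd.comp Primrec.fst))) Primrec.snd
    exact h.comp hf
  · rintro c n ⟨hv, K, hK, hker, hND⟩
    exact okStep_exists c (inp n) K hv hK hker hND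
  · intro c n c' h hs
    exact good_step c c' _ h hs

theorem main : ∃ Kinf : Subgroup F, ∃ _ : Kinf.Normal,
    ComputablePred (fun I : Inp => Good I Kinf) ∧
    ¬ ∃ H : Subgroup (F ⧸ Kinf), H.FiniteIndex ∧ IsFreeGroup H := by
  obtain ⟨c, hcomp, hc0, hstep⟩ := exists_seq
  have hgood : ∀ n, GoodCode (c n) := by
    intro n
    induction n with
    | zero => rw [hc0]; exact c0_good
    | succ n ih => exact good_step _ _ _ ih (hstep n)
  choose hv K hK hker hND using hgood
  have hsound : ∀ n, Ext (K n) (c n).1 (K (n + 1)) ∧ ND (K (n + 1)) (c (n + 1)).1 := fun n =>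
    okStep_sound (c n) (c (n + 1)) (inp n) (K n) (K (n + 1)) (hK n) (hK (n + 1)) (hv n)
      (hker n) (hker (n + 1)) (hstep n)
  have hmc : StrictMono (fun n => (c n).1) := strictMono_nat_of_lt_succ (fun n => (hstep n).2.2.2.1)
  have hanti : Antitone K := antitone_nat_of_succ_le (fun n => (hsound n).1.1)
  have hrel : ∀ n, ∀ w ∈ W ((c n).1 + 1), w ∈ K n → w ∈ ⨅ n, K n := by
    intro n w hw hwK
    have key : ∀ i, w ∈ K (n + i) := by
      intro i
      induction i with
      | zero => exact hwK
      | succ i ih =>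
        have hw' : w ∈ W ((c (n + i)).1 + 1) :=
          W_mono (Nat.succ_le_succ (hmc.monotone (Nat.le_add_right n i))) hw
        exact (hsound (n + i)).1.2 w hw' ih
    rw [Subgroup.mem_iInf]
    intro i
    rcases le_total i n with h | h
    · exact hanti h hwK
    · obtain ⟨j, rfl⟩ := Nat.exists_eq_add_of_le h
      exact key j
  have hle : ∀ n, (⨅ n, K n) ≤ K n := fun n => iInf_le K n
  have hn : (⨅ n, K n).Normal := Subgroup.normal_iInf_normal (fun n => (hK n).normal)
  refine ⟨⨅ n, K n, hn, ?_, ?_⟩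
  · have hiff : ∀ I : Inp, Good I (⨅ n, K n) ↔
        Commit I (c (Encodable.encode I + 1)).2.1 (c (Encodable.encode I + 1)).2.2 := by
      intro I
      set n := Encodable.encode I with hndef
      have hI : inp n = I := inp_encode I
      have hs := hstep n
      rw [hI] at hs
      constructor
      · intro hg
        rcases hs.2.2.2.2.2.2 with h | h
        · exact h
        · exfalso
          obtain ⟨D, _, hD, hY⟩ := h
          have hNB : NoBall I (K (n + 1)) D :=
            (noBall_iff I (K (n + 1)) (hK (n + 1)) _ _ (hv (n + 1)) (hker (n + 1)) D).2 hY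
          exact kill_sound (K (n + 1)) (⨅ n, K n) (hK (n + 1)).normal hn _ D (hND (n + 1)) hD
            (hrel (n + 1)) I hNB hg
      · intro hc
        exact (commit_sound I (K (n + 1)) (hK (n + 1)) _ _ (hv (n + 1)) (hker (n + 1)) hc).mono
          (hle (n + 1))
    obtain ⟨dec, hprim⟩ := primrec_commit
    have hf : Computable (fun I : Inp =>
        ((I, (c (Encodable.encode I + 1)).2) : Inp × (ℕ × List (List ℕ)))) := by
      refine Computable.pair Computable.id ?_
      refine Computable.snd.comp (hcomp.comp ?_)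
      exact Computable.succ.comp Computable.encode
    refine ⟨fun I => @decidable_of_iff _ _ (hiff I).symm
      (dec ((I, (c (Encodable.encode I + 1)).2) : Inp × (ℕ × List (List ℕ)))), ?_⟩
    refine (hprim.to_comp.comp hf).of_eq ?_
    intro I
    simp only [decide_eq_decide]
    exact (hiff I).symm
  · exact not_virt_free K (fun n => (c n).1) hmc hK hND hrel

theorem final :
    ¬ (∀ (Γ : Type) [Group Γ] (n : ℕ) (s : Fin n → Γ),
      Subgroup.closure (Set.range s) = ⊤ →
      (ComputablePred
          (fun I : ℕ × List (List (List (Fin n × Bool) × ℕ)) =>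
            ∃ x : Γ → Fin I.1, ∀ g : Γ, ∀ P ∈ I.2,
              ¬ (∀ q ∈ P, ((x (g * FreeGroup.lift s (FreeGroup.mk q.1)) : Fin I.1) : ℕ) = q.2))
        ↔ ∃ H : Subgroup Γ, H.FiniteIndex ∧ IsFreeGroup H)) := by
  intro hall
  obtain ⟨Kinf, hn, hcomp, hnvf⟩ := main
  have hlift : FreeGroup.lift (fun i : Fin 2 => (QuotientGroup.mk' Kinf (FreeGroup.of i))) =
      QuotientGroup.mk' Kinf := by
    ext i; simp
  have h := hall (F ⧸ Kinf) 2 (fun i => QuotientGroup.mk' Kinf (FreeGroup.of i)) ?_
  · refine hnvf (h.1 ?_)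
    refine hcomp.of_eq ?_
    intro I
    rw [hlift]
    constructor
    · rintro ⟨x, hx, hx'⟩
      refine ⟨fun γ => x γ.out, ?_⟩
      have key : ∀ g : F, x ((g : F ⧸ Kinf).out) = x g := by
        intro g
        obtain ⟨k, hk⟩ := QuotientGroup.mk_out_eq_mul Kinf g
        rw [hk]; exact hx g k k.2
      intro γ P hP
      obtain ⟨g, rfl⟩ := QuotientGroup.mk_surjective γ
      have := hx' g P hP
      intro hq
      apply this
      intro q hq'
      rw [← hq q hq', ← key]
      rfl
    · rintro ⟨x, hx⟩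
      refine ⟨fun g => x g, ?_, ?_⟩
      · intro g k hk
        exact congrArg x (QuotientGroup.mk_mul_of_mem g hk)
      · intro g P hP hq
        exact hx (g : F ⧸ Kinf) P hP hq
  · rw [eq_top_iff]
    intro γ _
    obtain ⟨g, rfl⟩ := QuotientGroup.mk_surjective γ
    have : (QuotientGroup.mk' Kinf) g ∈ (Subgroup.closure (Set.range (FreeGroup.of : Fin 2 → F))).map (QuotientGroup.mk' Kinf) := by
      refine Subgroup.mem_map_of_mem _ ?_
      rw [FreeGroup.closure_range_of]; trivial
    rw [MonoidHom.map_closure, ← Set.range_comp] at this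
    exact this

end Pool.Agent.Helper948.Dom
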