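import Pool.Agent.Helper948.Dom.Code

/- solved by helper571 -/


set_option autoImplicit false

namespace Pool.Agent.Helper948.Dom.KA
open Pool.Agent.Helper948.Dom 






-- TARGET
/-- the permutation given by a valid table -/
def vkPerm (N : ℕ) (T : List (List ℕ)) (h : Valid N T) (i : Fin 2) : Equiv.Perm (Fin N) where
  toFun v := ⟨step T (2 * (i : ℕ) + 1) v, (h _ (by omega) v v.2).1⟩
  invFun v := ⟨step T (2 * (i : ℕ)) v, (h _ (by omega) v v.2).1⟩
  left_inv v := by
    apply Fin.ext
    have h1 := (h (2 * (i : ℕ) + 1) (by omega) v v.2).2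
    have h2 : linv (2 * (i : ℕ) + 1) = 2 * (i : ℕ) := by
      unfold linv
      rw [if_neg (by omega)]
      omega
    rw [h2] at h1
    exact h1
  right_inv v := by
    apply Fin.ext
    have h1 := (h (2 * (i : ℕ)) (by omega) v v.2).2
    have h2 : linv (2 * (i : ℕ)) = 2 * (i : ℕ) + 1 := by
      unfold linv
      rw [if_pos (by omega)]
    rw [h2] at h1
    exact h1

theorem vk_walk (N : ℕ) (T : List (List ℕ)) (h : Valid N T) (w : List (Fin 2 × Bool)) :
    ∀ v : Fin N, (((FreeGroup.lift (vkPerm N T h) (FreeGroup.mk w))⁻¹ v : Fin N) : ℕ) =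
      walk T v (enc w) := by
  induction w with
  | nil =>
    intro v
    have : (FreeGroup.mk ([] : List (Fin 2 × Bool))) = 1 := rfl
    rw [this, map_one, inv_one]
    rfl
  | cons s w ih =>
    intro v
    have h1 : FreeGroup.mk (s :: w) = FreeGroup.mk [s] * FreeGroup.mk w := by
      rw [FreeGroup.mul_mk]
      rfl
    rw [h1, map_mul, mul_inv_rev, Equiv.Perm.mul_apply, ih]
    have h2 : (((FreeGroup.lift (vkPerm N T h) (FreeGroup.mk [s]))⁻¹ v : Fin N) : ℕ) =
        step T (lcode s) v := by
      obtain ⟨i, b⟩ := s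
      cases b with
      | true =>
        have h3 : FreeGroup.mk [(i, true)] = FreeGroup.of i := rfl
        rw [h3, FreeGroup.lift_apply_of]
        simp only [lcode, if_true, add_zero]
        rfl
      | false =>
        have h3 : FreeGroup.mk [(i, false)] = (FreeGroup.of i)⁻¹ := rfl
        rw [h3, map_inv, FreeGroup.lift_apply_of, inv_inv]
        rfl
    rw [h2]
    rfl

/-- The action given by valid tables. Proof: for `j < 4` the map `v ↦ step T j v` is a permutation of `Fin N` with inverse
`step T (linv j)`. Let `φ : F →* Equiv.Perm (Fin N)` be `FreeGroup.lift` with `φ (of i) = ` the permutation with number `2 i + 1`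
(the inverse of the one with number `2 i = lcode (i, true)`). By induction on `w`, `(φ (FreeGroup.mk w))⁻¹ v = walk T v (enc w)`.
Take `K := φ.ker`. -/
theorem valid_ker (N : ℕ) (T : List (List ℕ)) (h : Valid N T) :
    ∃ K : Subgroup F, FN K ∧ IsKer K N T := by
  refine ⟨(FreeGroup.lift (vkPerm N T h)).ker, ⟨inferInstance, Subgroup.finiteIndex_ker _⟩, ?_⟩
  intro w
  rw [MonoidHom.mem_ker]
  constructor
  · intro h1 v hv
    have h2 := vk_walk N T h w ⟨v, hv⟩
    rw [h1] at h2
    simpa using h2.symm
  · intro h1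
    rw [← inv_eq_one]
    ext v
    rw [vk_walk N T h w v, h1 v v.2]
    rfl

end Pool.Agent.Helper948.Dom.KA
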